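import Pool.Agent.Cartan73.Triv

/-! # Assembling idempotent data for `k[G]`, `G → Λ` split with odd kernel
(helper73, MP_bea28b_al) -/

namespace Pool.Cartan73

open MonoidAlgebra

section
variable {k G Λ : Type*} [Field k] [IsAlgClosed k] [CharP k 2] [Group G] [Finite G] [Group Λ]
variable {π : G →* Λ} {s : Λ →* G}

/-- The orders of the inertia groups. -/
def mm : Fin 3 → ℕ := ![4, 3, 1]

/-- the Cartan numbers on the new part -/
def cK {K : Type*} [DecidableEq K] : (K ⊕ (K × Fin 3) ⊕ K) → (K ⊕ (K × Fin 3) ⊕ K) → ℕ :=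
  fun i j => if i = j then (match i with | Sum.inl _ => 4 | Sum.inr _ => 1) else 0

/-- the Cartan matrix of `k[G]` -/
def bigC {I K : Type*} [DecidableEq K] (C : I → I → ℕ) :
    (I ⊕ (K ⊕ (K × Fin 3) ⊕ K)) → (I ⊕ (K ⊕ (K × Fin 3) ⊕ K)) → ℕ
  | Sum.inl i, Sum.inl j => C i j
  | Sum.inr i, Sum.inr j => cK i j
  | _, _ => 0

lemma f_mul_f_eq_zero (P Q : LinPair k G)
    (h : ∀ g : G, P.f * single g (1 : k) * Q.f = 0) (a : MonoidAlgebra k G) :
    P.f * a * Q.f = 0 := by
  induction a using MonoidAlgebra.induction_linear with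
  | zero => simp
  | add a b ha hb => rw [mul_add, add_mul, ha, hb, add_zero]
  | single g r =>
    have : single g r = r • single g (1 : k) := by rw [smul_single]; simp
    rw [this, mul_smul_comm, smul_mul_assoc, h, smul_zero]

lemma finrank_sand_zero {A : Type*} [Ring A] [Algebra k A] (x y : A)
    (h : ∀ a, x * a * y = 0) : Module.finrank k (LinearMap.range (sand (k := k) x y)) = 0 := by
  have : sand (k := k) x y = 0 := by
    ext a; rw [sand_apply, h]; rfl
  rw [this, LinearMap.range_zero, finrank_bot]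

lemma finrank_sand_one {A : Type*} [Ring A] [Algebra k A] (x : A) (hx : x ≠ 0)
    (hxx : x * x = x) (h : ∀ a, ∃ c : k, x * a * x = c • x) :
    Module.finrank k (LinearMap.range (sand (k := k) x x)) = 1 := by
  have : LinearMap.range (sand (k := k) x x) = Submodule.span k {x} := by
    apply le_antisymm
    · rintro _ ⟨a, rfl⟩
      obtain ⟨c, hc⟩ := h a
      rw [sand_apply, hc]
      exact Submodule.smul_mem _ _ (Submodule.mem_span_singleton_self x)
    · rw [Submodule.span_singleton_le_iff_mem]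
      exact ⟨x, by rw [sand_apply, hxx, hxx]⟩
  rw [this, finrank_span_singleton hx]

/-- family of local idempotents with zero Cartan numbers between different ones -/
theorem family {K : Type*} [DecidableEq K] (P : K → Fin 3 → LinPair k G) (g : K → Fin 3 → G)
    (D : ∀ κ a, (P κ a).CornerData π (g κ a) (mm a))
    (orth : ∀ (x y : K × Fin 3), x ≠ y → ∀ h : G,
      (P x.1 x.2).f * single h (1 : k) * (P y.1 y.2).f = 0) :
    ∃ (E : (K ⊕ (K × Fin 3) ⊕ K) → MonoidAlgebra k G)
      (host : (K ⊕ (K × Fin 3) ⊕ K) → K × Fin 3),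
      (∀ i, (P (host i).1 (host i).2).f * E i = E i) ∧
      (∀ i, E i * (P (host i).1 (host i).2).f = E i) ∧
      (∀ i, E i * E i = E i) ∧ (∀ i, E i ≠ 0) ∧
      (∀ i x, ∃ c : k, IsNilpotent (E i * x * E i - c • E i)) ∧
      (∀ i j, i ≠ j → ∀ a, E i * a * E j = 0) ∧
      (∀ i, Module.finrank k (LinearMap.range (sand (k := k) (E i) (E i))) = cK i i) ∧
      (∀ κ a, (P κ a).f ∈ Submodule.span k {y | ∃ a i b, y = a * E i * b}) := by
  have D4 : ∀ κ, (P κ 0).CornerData π (g κ 0) 4 := fun κ => D κ 0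
  have D3 : ∀ κ, (P κ 1).CornerData π (g κ 1) 3 := fun κ => D κ 1
  have D1 : ∀ κ, (P κ 2).CornerData π (g κ 2) 1 := fun κ => D κ 2
  choose e he1 he2 he3 he4 he5 he6 he7 he8 using fun κ => (D3 κ).split_three
  let E : (K ⊕ (K × Fin 3) ⊕ K) → MonoidAlgebra k G := fun i => match i with
    | Sum.inl κ => (P κ 0).f
    | Sum.inr (Sum.inl p) => e p.1 p.2
    | Sum.inr (Sum.inr κ) => (P κ 2).f
  let host : (K ⊕ (K × Fin 3) ⊕ K) → K × Fin 3 := fun i => match i with
    | Sum.inl κ => (κ, 0)
    | Sum.inr (Sum.inl p) => (p.1, 1)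
    | Sum.inr (Sum.inr κ) => (κ, 2)
  have fne : ∀ κ a, (P κ a).f ≠ 0 := by
    intro κ a h
    have := (P κ a).f_coeff_one
    rw [h] at this; simp at this
  have h1 : ∀ i, (P (host i).1 (host i).2).f * E i = E i := by
    rintro (κ | ⟨κ, j⟩ | κ)
    · exact (P κ 0).f_mul_f
    · exact he5 κ j
    · exact (P κ 2).f_mul_f
  have h2 : ∀ i, E i * (P (host i).1 (host i).2).f = E i := by
    rintro (κ | ⟨κ, j⟩ | κ)
    · exact (P κ 0).f_mul_f
    · exact he6 κ j
    · exact (P κ 2).f_mul_f
  have h3 : ∀ i, E i * E i = E i := by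
    rintro (κ | ⟨κ, j⟩ | κ)
    · exact (P κ 0).f_mul_f
    · exact he1 κ j
    · exact (P κ 2).f_mul_f
  have h4 : ∀ i, E i ≠ 0 := by
    rintro (κ | ⟨κ, j⟩ | κ)
    · exact fne κ 0
    · exact he3 κ j
    · exact fne κ 2
  have hdiff : ∀ i j, host i ≠ host j → ∀ a, E i * a * E j = 0 := by
    intro i j hij a
    have : E i * a * E j = E i * ((P (host i).1 (host i).2).f * a
        * (P (host j).1 (host j).2).f) * E j := by
      rw [← mul_assoc, ← mul_assoc, h2, mul_assoc (E i * a), h1]
    rw [this, f_mul_f_eq_zero _ _ (orth _ _ hij), mul_zero, zero_mul]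
  have h6 : ∀ i j, i ≠ j → ∀ a, E i * a * E j = 0 := by
    intro i j hij a
    by_cases hh : host i = host j
    · rcases i with (κ | ⟨κ, l⟩ | κ) <;> rcases j with (κ' | ⟨κ', l'⟩ | κ') <;>
        simp only [host, Prod.mk.injEq] at hh
      · exact absurd (by rw [hh.1]) hij
      · exact absurd hh.2 (by decide)
      · exact absurd hh.2 (by decide)
      · exact absurd hh.2 (by decide)
      · obtain ⟨rfl, -⟩ := hh
        have hl : l ≠ l' := by rintro rfl; exact hij rfl
        exact he8 κ l l' a hl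
      · exact absurd hh.2 (by decide)
      · exact absurd hh.2 (by decide)
      · exact absurd hh.2 (by decide)
      · exact absurd (by rw [hh.1]) hij
    · exact hdiff i j hh a
  refine ⟨E, host, h1, h2, h3, h4, ?_, h6, ?_, ?_⟩
  · rintro (κ | ⟨κ, j⟩ | κ) x
    · exact (D4 κ).local_four x
    · obtain ⟨c, hc⟩ := he7 κ j x
      exact ⟨c, by change IsNilpotent (e κ j * x * e κ j - c • e κ j); rw [hc, sub_self]; exact IsNilpotent.zero⟩
    · obtain ⟨c, hc⟩ := (D1 κ).corner_one x
      exact ⟨c, by change IsNilpotent ((P κ 2).f * x * (P κ 2).f - c • (P κ 2).f); rw [hc, sub_self]; exact IsNilpotent.zero⟩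
  · rintro (κ | ⟨κ, j⟩ | κ)
    · have : cK (Sum.inl κ : K ⊕ (K × Fin 3) ⊕ K) (Sum.inl κ) = 4 := by simp [cK]
      rw [this]; exact (D4 κ).finrank_sand
    · have : cK (Sum.inr (Sum.inl (κ, j)) : K ⊕ (K × Fin 3) ⊕ K) (Sum.inr (Sum.inl (κ, j))) = 1 := by
        simp [cK]
      rw [this]; exact finrank_sand_one _ (he3 κ j) (he1 κ j) (he7 κ j)
    · have : cK (Sum.inr (Sum.inr κ) : K ⊕ (K × Fin 3) ⊕ K) (Sum.inr (Sum.inr κ)) = 1 := by
        simp [cK]
      rw [this]; exact (D1 κ).finrank_sand
  · intro κ a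
    fin_cases a
    · exact Submodule.subset_span ⟨1, Sum.inl κ, 1, by simp [E]⟩
    · change (P κ 1).f ∈ _
      rw [← he4 κ]
      refine Submodule.sum_mem _ (fun j _ => Submodule.subset_span ⟨1, Sum.inr (Sum.inl (κ, j)), 1, ?_⟩)
      simp [E]
    · exact Submodule.subset_span ⟨1, Sum.inr (Sum.inr κ), 1, by simp [E]⟩

/-- two-sided ideals -/
lemma span_mul_mem {A I : Type*} [Ring A] [Algebra k A] (E : I → A) {x : A}
    (hx : x ∈ Submodule.span k {y | ∃ a i b, y = a * E i * b}) (c d : A) :
    c * x * d ∈ Submodule.span k {y | ∃ a i b, y = a * E i * b} := by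
  induction hx using Submodule.span_induction with
  | mem y hy =>
    obtain ⟨a, i, b, rfl⟩ := hy
    exact Submodule.subset_span ⟨c * a, i, b * d, by simp [mul_assoc]⟩
  | zero => simp
  | add a b _ _ ha hb => rw [mul_add, add_mul]; exact Submodule.add_mem _ ha hb
  | smul r a _ ha => rw [mul_smul_comm, smul_mul_assoc]; exact Submodule.smul_mem _ _ ha

theorem assemble {I K : Type*} [DecidableEq K] {C : I → I → ℕ} (S : SplitOdd π s)
    (D7 : IdemData k (MonoidAlgebra k Λ) I C)
    (P : K → Fin 3 → LinPair k G) (g : K → Fin 3 → G)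
    (D : ∀ κ a, (P κ a).CornerData π (g κ a) (mm a))
    (orth : ∀ (x y : K × Fin 3), x ≠ y → ∀ h : G,
      (P x.1 x.2).f * single h (1 : k) * (P y.1 y.2).f = 0)
    (ntriv : ∀ κ a, ∃ b : (P κ a).A, (P κ a).lam b ≠ 1)
    (full : ∀ J : Submodule k (MonoidAlgebra k G), (∀ x ∈ J, ∀ c d, c * x * d ∈ J) →
      eN k S ∈ J → (∀ κ a, (P κ a).f ∈ J) → (1 : MonoidAlgebra k G) ∈ J) :
    Nonempty (IdemData k (MonoidAlgebra k G) (I ⊕ (K ⊕ (K × Fin 3) ⊕ K)) (bigC C)) := by
  obtain ⟨E, host, h1, h2, h3, h4, h5, h6, h7, h8⟩ := family P g D orth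
  -- `P.f` and `eN` are orthogonal
  have o1 : ∀ κ a (x : MonoidAlgebra k G), (P κ a).f * x * eN k S = 0 := by
    intro κ a x
    refine f_mul_f_eq_zero (P κ a) (trivPair k S) (fun h => ?_) x
    obtain ⟨b, hb⟩ := ntriv κ a
    refine LinPair.f_mul_single_mul_f_eq_zero (P κ a) (trivPair k S) h b
      ⟨h⁻¹ * b * h, ?_⟩ ?_ ?_
    · change π (h⁻¹ * b * h) = 1
      rw [map_mul, map_mul, (D κ a).sub b, map_inv, mul_one, inv_mul_cancel]
    · simp [mul_assoc]
    · exact hb
  have oE1 : ∀ i x, E i * x * eN k S = 0 := by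
    intro i x
    rw [← h2 i, mul_assoc (E i), mul_assoc (E i), o1, mul_zero]
  have oE2 : ∀ i x, eN k S * x * E i = 0 := by
    intro i x
    have hc : eN k S * (x * E i) = (x * E i) * eN k S := (eN_central S _).symm
    rw [mul_assoc, hc]
    have := oE1 i 1
    rw [mul_one] at this
    rw [mul_assoc, this, mul_zero]
  have oT1 : ∀ i x y, E i * x * th k S y = 0 := by
    intro i x y
    rw [th_apply, ← mul_assoc, oE1, zero_mul]
  have oT2 : ∀ i x y, th k S y * x * E i = 0 := by
    intro i x y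
    rw [th_apply, ← eN_central, mul_assoc, mul_assoc, ← mul_assoc (eN k S), oE2, mul_zero]
  let e : (I ⊕ (K ⊕ (K × Fin 3) ⊕ K)) → MonoidAlgebra k G :=
    Sum.elim (fun i => th k S (D7.e i)) E
  refine ⟨⟨e, ?_, ?_, ?_, ?_, ?_, ?_⟩⟩
  · rintro (i | i)
    · change th k S (D7.e i) * th k S (D7.e i) = th k S (D7.e i)
      rw [← th_mul, D7.idem]
    · exact h3 i
  · rintro (i | i)
    · change th k S (D7.e i) ≠ 0
      intro h
      apply D7.ne i
      apply th_injective S
      rw [h, map_zero]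
    · exact h4 i
  · rintro (i | i) x
    · obtain ⟨c, hc⟩ := D7.loc i (pr k π x)
      refine ⟨c, ?_⟩
      change IsNilpotent (th k S (D7.e i) * x * th k S (D7.e i) - c • th k S (D7.e i))
      rw [th_mul_mul, ← map_smul, ← map_sub]
      exact th_nilpotent S hc
    · exact h5 i x
  · rintro (i | i) (j | j) hij a b
    · change IsNilpotent (th k S (D7.e i) * a * th k S (D7.e j) * b * th k S (D7.e i))
      rw [th_mul_mul, th_mul_mul]
      have hne : i ≠ j := fun h => hij (by rw [h])
      have := D7.nil i j hne (pr k π a) (pr k π b)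
      exact th_nilpotent S this
    · change IsNilpotent (th k S (D7.e i) * a * E j * b * th k S (D7.e i))
      rw [oT2, zero_mul, zero_mul]; exact IsNilpotent.zero
    · change IsNilpotent (E i * a * th k S (D7.e j) * b * E i)
      rw [oT1, zero_mul, zero_mul]; exact IsNilpotent.zero
    · change IsNilpotent (E i * a * E j * b * E i)
      rw [h6 i j (fun h => hij (by rw [h])), zero_mul, zero_mul]; exact IsNilpotent.zero
  · apply full
    · intro x hx c d
      exact span_mul_mem e hx c d
    · rw [← th_one S]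
      have hmem : ∀ x ∈ Submodule.span k {y | ∃ a i b, y = a * D7.e i * b},
          th k S x ∈ Submodule.span k {y | ∃ a i b, y = a * e i * b} := by
        intro x hx
        induction hx using Submodule.span_induction with
        | mem y hy =>
          obtain ⟨a, i, b, rfl⟩ := hy
          rw [th_mul, th_mul]
          exact Submodule.subset_span ⟨th k S a, Sum.inl i, th k S b, rfl⟩
        | zero => simp
        | add a b _ _ ha hb => rw [map_add]; exact Submodule.add_mem _ ha hb
        | smul r a _ ha => rw [map_smul]; exact Submodule.smul_mem _ _ ha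
      exact hmem 1 D7.full
    · intro κ a
      refine Submodule.span_mono ?_ (h8 κ a)
      rintro y ⟨a, i, b, rfl⟩
      exact ⟨a, Sum.inr i, b, rfl⟩
  · rintro (i | i) (j | j)
    · change Module.finrank k (LinearMap.range
        (sand (k := k) (th k S (D7.e i)) (th k S (D7.e j)))) = C i j
      rw [finrank_sand_th, D7.dims]
    · exact finrank_sand_zero _ _ (fun a => oT2 j a _)
    · exact finrank_sand_zero _ _ (fun a => oT1 i a _)
    · change Module.finrank k (LinearMap.range (sand (k := k) (E i) (E j))) = cK i j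
      by_cases hij : i = j
      · subst hij; exact h7 i
      · rw [finrank_sand_zero _ _ (h6 i j hij)]
        simp [cK, hij]

end

end Pool.Cartan73
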