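import Pool.Agent.Cartan73.Corner

/-! # Local corners and splitting of corners (helper73, MP_bea28b_al) -/

namespace Pool.Cartan73

open MonoidAlgebra

/-- the map `x ↦ a x b` -/
noncomputable def sand {k A : Type*} [Field k] [Ring A] [Algebra k A] (a b : A) : A →ₗ[k] A :=
  (LinearMap.mulRight k b).comp (LinearMap.mulLeft k a)

@[simp] lemma sand_apply {k A : Type*} [Field k] [Ring A] [Algebra k A] (a b x : A) :
    sand (k := k) a b x = a * x * b := by
  simp [sand, LinearMap.mulRight_apply, LinearMap.mulLeft_apply]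

namespace LinPair

variable {k G Λ : Type*} [Field k] [Group G] [Finite G] [Group Λ]
variable {P : LinPair k G} {π : G →* Λ} {g : G} {m : ℕ} [CharP k 2]

attribute [local instance 10000] Fintype.ofFinite

lemma u_comm_f (P : LinPair k G) (g : G) : Commute (P.u g) P.f := by
  rw [Commute, SemiconjBy, u_mul_f, f_mul_u]

lemma f_u_pow_f (P : LinPair k G) (g : G) (j : ℕ) :
    P.f * (P.f * P.u g ^ j) * P.f = P.f * P.u g ^ j := by
  rw [← mul_assoc, P.f_mul_f, mul_assoc, ((P.u_comm_f g).pow_left j).eq, ← mul_assoc, P.f_mul_f]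

lemma CornerData.range_sand (D : CornerData P π g m) :
    LinearMap.range (sand (k := k) P.f P.f)
      = Submodule.span k (Set.range (fun j : Fin m => P.f * P.u g ^ (j : ℕ))) := by
  apply le_antisymm
  · rintro _ ⟨x, rfl⟩
    rw [sand_apply]
    obtain ⟨a, ha⟩ := D.corner x
    rw [ha]
    exact Submodule.sum_mem _ (fun j _ => Submodule.smul_mem _ _ (Submodule.subset_span ⟨j, rfl⟩))
  · rw [Submodule.span_le]
    rintro _ ⟨j, rfl⟩
    exact ⟨P.f * P.u g ^ (j : ℕ), by rw [sand_apply, f_u_pow_f]⟩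

lemma CornerData.finrank_sand (D : CornerData P π g m) :
    Module.finrank k (LinearMap.range (sand (k := k) P.f P.f)) = m := by
  rw [D.range_sand, finrank_span_eq_card D.linInd, Fintype.card_fin]

/-- `m = 1` : the corner is `k` -/
lemma CornerData.corner_one (D : CornerData P π g 1) (x : MonoidAlgebra k G) :
    ∃ c : k, P.f * x * P.f = c • P.f := by
  obtain ⟨a, ha⟩ := D.corner x
  exact ⟨a 0, by rw [ha]; simp⟩

/-- `m = 4`: the corner is local -/
lemma CornerData.local_four [IsAlgClosed k] (D : CornerData P π g 4) (x : MonoidAlgebra k G) :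
    ∃ c : k, IsNilpotent (P.f * x * P.f - c • P.f) := by
  obtain ⟨a, ha⟩ := D.corner x
  obtain ⟨c, hc0, hc⟩ := D.u_pow_m
  obtain ⟨d, hd⟩ := IsAlgClosed.exists_pow_nat_eq c (n := 4) (by norm_num)
  have h2 : ∀ y : MonoidAlgebra k G, y + y = 0 := by
    intro y
    have : (2 : k) = 0 := CharP.cast_eq_zero k 2
    rw [← two_smul k y, this, zero_smul]
  set f := P.f with hf
  set u := P.u g with hu
  have huf : u * f = u := P.u_mul_f g
  have hfu : f * u = u := P.f_mul_u g
  have hff : f * f = f := P.f_mul_f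
  set s := u - d • f with hs
  have hs2 : s * s = u ^ 2 + (d ^ 2) • f := by
    have : s * s = u ^ 2 - (d • u + d • u) + (d ^ 2) • f := by
      rw [hs, sub_mul, mul_sub, mul_sub, mul_smul_comm, smul_mul_assoc, smul_mul_assoc,
        mul_smul_comm, huf, hfu, hff, smul_smul, pow_two, pow_two]
      abel
    rw [this, h2, sub_zero]
  have hu4 : u ^ 4 = c • f := by
    have : f * u ^ 4 = u ^ 4 := by
      rw [pow_succ' u 3, ← mul_assoc, hfu]
    rw [← this, hc]
  have hs4 : s ^ 4 = 0 := by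
    have h1 : s ^ 4 = (s * s) * (s * s) := by noncomm_ring
    have h3 : u ^ 2 * f = u ^ 2 := by rw [pow_two, mul_assoc, huf]
    have h4 : f * u ^ 2 = u ^ 2 := by rw [pow_two, ← mul_assoc, hfu]
    rw [h1, hs2, add_mul, mul_add, mul_add, mul_smul_comm, smul_mul_assoc, smul_mul_assoc,
      mul_smul_comm, h3, h4, hff, smul_smul, ← pow_add, ← pow_add, hd]
    have : u ^ (2 + 2) = c • f := hu4
    rw [this]
    have e : c • f + d ^ 2 • u ^ 2 + (d ^ 2 • u ^ 2 + c • f)
        = (c • f + c • f) + (d ^ 2 • u ^ 2 + d ^ 2 • u ^ 2) := by abel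
    rw [e, h2, h2, add_zero]
  have hsu : Commute s u := by
    rw [Commute, SemiconjBy, hs, sub_mul, mul_sub, smul_mul_assoc, mul_smul_comm, huf, hfu]
  have key : ∀ j : ℕ, ∃ t : MonoidAlgebra k G, Commute s t ∧ f * u ^ j - d ^ j • f = s * t := by
    intro j
    induction j with
    | zero => exact ⟨0, Commute.zero_right _, by simp⟩
    | succ j ih =>
      obtain ⟨t, ht, h⟩ := ih
      refine ⟨t * u + (d ^ j) • 1, ?_, ?_⟩
      · exact (ht.mul_right hsu).add_right ((Commute.one_right s).smul_right _)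
      · rw [mul_add, ← mul_assoc, ← h, mul_smul_comm, mul_one, sub_mul, smul_mul_assoc, hfu,
          pow_succ, pow_succ, hs, smul_sub, smul_smul, ← mul_assoc]
        abel
  choose t ht h using key
  refine ⟨∑ j, a j * d ^ (j : ℕ), ?_⟩
  have h6 : f * x * f - (∑ j, a j * d ^ (j : ℕ)) • f = s * (∑ j, a j • t (j : ℕ)) := by
    rw [ha, Finset.sum_smul, ← Finset.sum_sub_distrib, Finset.mul_sum]
    refine Finset.sum_congr rfl (fun j _ => ?_)
    rw [mul_smul_comm, ← h, smul_sub, smul_smul]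
  rw [h6]
  have h7 : Commute s (∑ j : Fin 4, a j • t (j : ℕ)) :=
    Commute.sum_right _ _ _ (fun j _ => (ht j).smul_right _)
  refine ⟨4, ?_⟩
  rw [h7.mul_pow, hs4, zero_mul]

/-- `m = 3`: the corner splits into three one-dimensional pieces -/
lemma CornerData.split_three [IsAlgClosed k] (D : CornerData P π g 3) :
    ∃ e : Fin 3 → MonoidAlgebra k G, (∀ i, e i * e i = e i) ∧ (∀ i j, i ≠ j → e i * e j = 0) ∧
      (∀ i, e i ≠ 0) ∧ (∑ i, e i = P.f) ∧ (∀ i, P.f * e i = e i) ∧ (∀ i, e i * P.f = e i) ∧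
      (∀ i x, ∃ c : k, e i * x * e i = c • e i) ∧ (∀ i j x, i ≠ j → e i * x * e j = 0) := by
  obtain ⟨c, hc0, hc⟩ := D.u_pow_m
  obtain ⟨d, hd⟩ := IsAlgClosed.exists_pow_nat_eq c (n := 3) (by norm_num)
  have hd0 : d ≠ 0 := by
    rintro rfl
    rw [zero_pow (by norm_num)] at hd; exact hc0 hd.symm
  have two : (2 : k) = 0 := CharP.cast_eq_zero k 2
  obtain ⟨w, hw⟩ : ∃ w : k, w ^ 2 + w + 1 = 0 := by
    obtain ⟨w, hw⟩ := IsAlgClosed.exists_root
      (Polynomial.X ^ 2 + Polynomial.X + 1 : Polynomial k) (by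
        have : (Polynomial.X ^ 2 + Polynomial.X + 1 : Polynomial k)
            = Polynomial.C 1 * Polynomial.X ^ 2 + Polynomial.C 1 * Polynomial.X
              + Polynomial.C 1 := by simp
        rw [this, Polynomial.degree_quadratic one_ne_zero]
        decide)
    exact ⟨w, by simpa [Polynomial.IsRoot] using hw⟩
  have hw3 : w ^ 3 = 1 := by
    have : w ^ 3 - 1 = (w - 1) * (w ^ 2 + w + 1) := by ring
    rw [hw, mul_zero] at this
    exact sub_eq_zero.mp this
  have h2 : ∀ y : MonoidAlgebra k G, y + y = 0 := by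
    intro y
    rw [← two_smul k y, two, zero_smul]
  obtain ⟨c1, hc1, hU1⟩ := D.f_mul_u_pow 1
  obtain ⟨c2, hc2, hU2⟩ := D.f_mul_u_pow 2
  have hfc1 : (P.f * P.u g ^ 1).coeff 1 = 0 := by
    rw [hU1, coeff_smul_apply, D.U_coeff_ne, smul_zero]
    intro h
    have h3 := orderOf_dvd_of_pow_eq_one (x := π g) (n := 1) (by rw [← h, map_one])
    rw [D.order] at h3; norm_num at h3
  have hfc2 : (P.f * P.u g ^ 2).coeff 1 = 0 := by
    rw [hU2, coeff_smul_apply, D.U_coeff_ne, smul_zero]
    intro h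
    have h3 := orderOf_dvd_of_pow_eq_one (x := π g) (n := 2) (by rw [← h, map_one])
    rw [D.order] at h3; norm_num at h3
  have hcor := D.corner
  have hfo := P.f_coeff_one
  set f := P.f with hf
  set u := P.u g with hu
  have huf : u * f = u := P.u_mul_f g
  have hfu : f * u = u := P.f_mul_u g
  have hff : f * f = f := P.f_mul_f
  obtain ⟨v, hv⟩ : ∃ v : MonoidAlgebra k G, v = d⁻¹ • u := ⟨_, rfl⟩
  have hvf : v * f = v := by rw [hv, smul_mul_assoc, huf]
  have hfv : f * v = v := by rw [hv, mul_smul_comm, hfu]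
  have huv : u = d • v := by rw [hv, smul_smul, mul_inv_cancel₀ hd0, one_smul]
  have hv3 : v * v * v = f := by
    have h3 : f * u ^ 3 = u * u * u := by
      rw [pow_succ, pow_succ, pow_one, ← mul_assoc, ← mul_assoc, hfu]
    have h4 : v * v * v = (d⁻¹ * d⁻¹ * d⁻¹) • (u * u * u) := by
      rw [hv]; simp only [smul_mul_assoc, mul_smul_comm, smul_smul]; congr 1; ring
    rw [h4, ← h3, hc, smul_smul, ← hd]
    have : d⁻¹ * d⁻¹ * d⁻¹ * d ^ 3 = 1 := by field_simp
    rw [this, one_smul]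
  have hv4 : v * v * v * v = v := by rw [hv3, hfv]
  let E : k → MonoidAlgebra k G := fun z => f + z • v + z ^ 2 • (v * v)
  have hE : ∀ z, E z = f + z • v + z ^ 2 • (v * v) := fun z => rfl
  have fvv : f * (v * v) = v * v := by rw [← mul_assoc, hfv]
  have vvf : v * v * f = v * v := by rw [mul_assoc, hvf]
  have EE : ∀ z w : k, z ^ 3 = 1 → w ^ 3 = 1 → E z * E w =
      (1 + z * w ^ 2 + z ^ 2 * w) • f + (w + z + z ^ 2 * w ^ 2) • v
        + (w ^ 2 + z * w + z ^ 2) • (v * v) := by
    intro z w _ _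
    rw [hE, hE]
    simp only [add_mul, mul_add, smul_mul_assoc, mul_smul_comm, hff, hfv, hvf, fvv, vvf,
      smul_smul, ← mul_assoc, hv3, hv4]
    module
  have hEf : ∀ z, E z * f = E z := by
    intro z
    rw [hE, add_mul, add_mul, smul_mul_assoc, smul_mul_assoc, hff, hvf, vvf]
  have hfE : ∀ z, f * E z = E z := by
    intro z
    rw [hE, mul_add, mul_add, mul_smul_comm, mul_smul_comm, hff, hfv, fvv]
  have huE : ∀ z, z ^ 3 = 1 → u * E z = (d * z ^ 2) • E z := by
    intro z hz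
    rw [huv, hE]
    simp only [mul_add, smul_mul_assoc, mul_smul_comm, hvf, ← mul_assoc, hv3, smul_add, smul_smul]
    have e1 : d * z ^ 2 * z = d := by rw [mul_assoc, ← pow_succ, hz, mul_one]
    have e2 : d * z ^ 2 * z ^ 2 = d * z := by
      calc d * z ^ 2 * z ^ 2 = d * z * z ^ 3 := by ring
        _ = d * z := by rw [hz, mul_one]
    rw [e1, e2, mul_comm z d, mul_comm (z ^ 2) d]
    abel
  have hupE : ∀ z, z ^ 3 = 1 → ∀ j : ℕ, f * u ^ j * E z = (d * z ^ 2) ^ j • E z := by
    intro z hz j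
    induction j with
    | zero => rw [pow_zero, pow_zero, mul_one, one_smul, hfE]
    | succ j ih =>
      rw [pow_succ u, mul_assoc, mul_assoc, huE z hz, mul_smul_comm, mul_smul_comm, ← mul_assoc, ih,
        smul_smul, pow_succ' (d * z ^ 2)]
  have same : ∀ z, z ^ 3 = 1 → E z * E z = E z := by
    intro z hz
    rw [EE z z hz hz, hE z]
    have e1 : (1 + z * z ^ 2 + z ^ 2 * z : k) = 1 := by
      have : (1 + z * z ^ 2 + z ^ 2 * z : k) = 1 + 2 * z ^ 3 := by ring
      rw [this, two]; ring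
    have e2 : (z + z + z ^ 2 * z ^ 2 : k) = z := by
      have : (z + z + z ^ 2 * z ^ 2 : k) = 2 * z + z ^ 3 * z := by ring
      rw [this, two, hz]; ring
    have e3 : (z ^ 2 + z * z + z ^ 2 : k) = z ^ 2 := by
      have : (z ^ 2 + z * z + z ^ 2 : k) = 2 * z ^ 2 + z ^ 2 := by ring
      rw [this, two]; ring
    rw [e1, e2, e3, one_smul]
  have diff : ∀ z w, z ^ 3 = 1 → w ^ 3 = 1 → z ≠ w → E z * E w = 0 := by
    intro z w hz hw hne
    have hq : z ^ 2 + z * w + w ^ 2 = 0 := by
      have : (z - w) * (z ^ 2 + z * w + w ^ 2) = 0 := by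
        have : (z - w) * (z ^ 2 + z * w + w ^ 2) = z ^ 3 - w ^ 3 := by ring
        rw [this, hz, hw, sub_self]
      exact (mul_eq_zero.mp this).resolve_left (sub_ne_zero.mpr hne)
    rw [EE z w hz hw]
    have e1 : (1 + z * w ^ 2 + z ^ 2 * w : k) = 0 := by
      have : (1 + z * w ^ 2 + z ^ 2 * w : k) = z * (z ^ 2 + z * w + w ^ 2) + (1 - z ^ 3) := by ring
      rw [this, hq, hz]; ring
    have e2 : (w + z + z ^ 2 * w ^ 2 : k) = 0 := by
      have : (w + z + z ^ 2 * w ^ 2 : k)
          = z ^ 2 * (z ^ 2 + z * w + w ^ 2) + (1 - z ^ 3) * (z + w) := by ring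
      rw [this, hq, hz]; ring
    have e3 : (w ^ 2 + z * w + z ^ 2 : k) = 0 := by rw [← hq]; ring
    rw [e1, e2, e3]; simp
  have hne0 : ∀ z, E z ≠ 0 := by
    intro z h
    have h3 : (E z).coeff 1 = 1 := by
      rw [hE, coeff_add, coeff_add, Finsupp.add_apply, Finsupp.add_apply, coeff_smul_apply,
        coeff_smul_apply, hfo]
      have e1 : v.coeff 1 = 0 := by
        rw [hv, coeff_smul_apply]
        rw [pow_one, hfu] at hfc1
        rw [hfc1, smul_zero]
      have e2 : (v * v).coeff 1 = 0 := by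
        rw [hv, smul_mul_assoc, mul_smul_comm, smul_smul, coeff_smul_apply]
        rw [pow_two, ← mul_assoc, hfu] at hfc2
        rw [hfc2, smul_zero]
      rw [e1, e2]; simp
    rw [h] at h3; simp at h3
  have hz : ∀ i : Fin 3, (w ^ (i : ℕ)) ^ 3 = 1 := by
    intro i; rw [← pow_mul, mul_comm, pow_mul, hw3, one_pow]
  have w1 : w ≠ 1 := by
    rintro rfl
    have : (1 : k) = 0 := by
      have h5 : (1 : k) ^ 2 + 1 + 1 = 2 + 1 := by ring
      rw [h5, two, zero_add] at hw
      exact hw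
    exact one_ne_zero this
  have w2 : w ^ 2 ≠ 1 := by
    intro h
    apply w1
    have : w = w ^ 3 * w⁻¹ ^ 2 := by
      have hw0 : w ≠ 0 := by rintro rfl; norm_num at hw3
      field_simp
    rw [this, hw3, inv_pow, h]; simp
  have w3 : w ≠ w ^ 2 := by
    intro h
    apply w1
    have hw0 : w ≠ 0 := by rintro rfl; norm_num at hw3
    have : w * 1 = w * w := by rw [mul_one, ← pow_two]; exact h
    exact (mul_left_cancel₀ hw0 this).symm
  have hneq : ∀ i j : Fin 3, i ≠ j → w ^ (i : ℕ) ≠ w ^ (j : ℕ) := by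
    intro i j hij
    fin_cases i <;> fin_cases j <;> first
      | exact absurd rfl hij
      | (simp only [Fin.mk_zero, Fin.val_zero, pow_zero, Fin.mk_one, Fin.val_one, pow_one,
          Fin.reduceFinMk, Fin.val_two, Fin.zero_eta]
         first
          | exact w1 | exact fun h => w1 h.symm | exact w2 | exact fun h => w2 h.symm
          | exact w3 | exact fun h => w3 h.symm)
  refine ⟨fun i => E (w ^ (i : ℕ)), fun i => same _ (hz i),
    fun i j hij => diff _ _ (hz i) (hz j) (hneq i j hij), fun i => hne0 _, ?_, fun i => hfE _,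
    fun i => hEf _, ?_, ?_⟩
  · rw [Fin.sum_univ_three]
    simp only [hE, Fin.val_zero, Fin.val_one, Fin.val_two, pow_zero, pow_one]
    have e : (f + (1 : k) • v + (1 : k) ^ 2 • (v * v)) + (f + w • v + w ^ 2 • (v * v))
        + (f + w ^ 2 • v + (w ^ 2) ^ 2 • (v * v))
        = (f + f) + f + (w ^ 2 + w + 1) • v + (w ^ 3 * w + w ^ 2 + 1) • (v * v) := by
      module
    rw [e, h2, hw, hw3, one_mul]
    have e' : w + w ^ 2 + 1 = 0 := by rw [← hw]; ring
    rw [e']; simp
  · intro i x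
    obtain ⟨a, ha⟩ := hcor x
    refine ⟨∑ j : Fin 3, a j * (d * (w ^ (i : ℕ)) ^ 2) ^ (j : ℕ), ?_⟩
    have : E (w ^ (i : ℕ)) * x * E (w ^ (i : ℕ))
        = E (w ^ (i : ℕ)) * (f * x * f) * E (w ^ (i : ℕ)) := by
      rw [← mul_assoc, ← mul_assoc, hEf, mul_assoc _ f, hfE]
    rw [this, ha, Finset.mul_sum, Finset.sum_mul, Finset.sum_smul]
    refine Finset.sum_congr rfl (fun j _ => ?_)
    rw [mul_smul_comm, smul_mul_assoc, mul_assoc, hupE _ (hz i), mul_smul_comm, same _ (hz i),
      smul_smul]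
  · intro i j x hij
    obtain ⟨a, ha⟩ := hcor x
    have : E (w ^ (i : ℕ)) * x * E (w ^ (j : ℕ))
        = E (w ^ (i : ℕ)) * (f * x * f) * E (w ^ (j : ℕ)) := by
      rw [← mul_assoc, ← mul_assoc, hEf, mul_assoc _ f, hfE]
    rw [this, ha, Finset.mul_sum, Finset.sum_mul]
    refine Finset.sum_eq_zero (fun l _ => ?_)
    rw [mul_smul_comm, smul_mul_assoc, mul_assoc, hupE _ (hz j), mul_smul_comm,
      diff _ _ (hz i) (hz j) (hneq i j hij), smul_zero, smul_zero]

end LinPair

end Pool.Cartan73
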