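import Mathlib
import Pool.Agent.Cartan76.DRule
import Pool.Agent.Cartan73.Corner2

/-! # The Borel part of `k[PSL(2,q)]` in characteristic two (helper73, MP_bea28b_al) -/

set_option linter.unusedSectionVars false

open Matrix Finset Cartan76

namespace Pool.Cartan73
namespace Borel

variable {F k G : Type*} [Field F] [Fintype F] [DecidableEq F] [Field k] [CharP k 2] [Group G]
variable (S : Setup F k G)

/-- the squares among the units -/
noncomputable def Sq (F : Type*) [Field F] [Fintype F] [DecidableEq F] : Finset Fˣ := by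
  classical exact Finset.univ.filter (fun a => IsSquare (a : F))

lemma mem_Sq {a : Fˣ} : a ∈ Sq F ↔ IsSquare (a : F) := by
  classical
  unfold Sq
  simp

lemma one_mem_Sq : (1 : Fˣ) ∈ Sq F := by rw [mem_Sq]; exact ⟨1, by simp⟩

lemma mul_mem_Sq {a b : Fˣ} (ha : a ∈ Sq F) (hb : b ∈ Sq F) : a * b ∈ Sq F := by
  rw [mem_Sq] at *
  rw [Units.val_mul]; exact ha.mul hb

lemma inv_mem_Sq {a : Fˣ} (ha : a ∈ Sq F) : a⁻¹ ∈ Sq F := by
  rw [mem_Sq] at *
  obtain ⟨x, hx⟩ := ha
  refine ⟨x⁻¹, ?_⟩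
  rw [Units.val_inv_eq_inv_val, hx, mul_inv]

include S in
lemma inv_fixed {a : Fˣ} (ha : a ∈ Sq F) : a⁻¹ = a ↔ a = 1 := by
  constructor
  · intro h
    have h1 : (a : F) * a = 1 := by
      have h2 : a * a = 1 := by
        nth_rewrite 1 [← h]
        rw [inv_mul_cancel]
      have := congrArg (fun u : Fˣ => (u : F)) h2
      simpa using this
    have h3 : ((a : F) - 1) * ((a : F) + 1) = 0 := by linear_combination h1
    rcases mul_eq_zero.1 h3 with h | h
    · apply Units.ext; rw [Units.val_one]; linear_combination h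
    · exfalso
      rw [mem_Sq] at ha
      have h4 : (a : F) = -1 := by linear_combination h
      rw [h4] at ha
      exact S.hsq ha
  · rintro rfl; simp

include S in
lemma card_Sq : ((Sq F).card : k) = 1 := by
  have h := sum_fixed (M := k) (fun x => CharTwo.add_self_eq_zero x) (Sq F) (fun a => a⁻¹)
    (fun i hi => inv_mem_Sq hi) (fun i _ => inv_inv i) (fun _ => 1) (fun _ _ => rfl)
  rw [Finset.sum_const, nsmul_one] at h
  rw [h]
  have h2 : (Sq F).filter (fun a => a⁻¹ = a) = {1} := by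
    ext a
    rw [Finset.mem_filter, Finset.mem_singleton]
    constructor
    · rintro ⟨h3, h4⟩; exact (inv_fixed S h3).1 h4
    · rintro rfl; exact ⟨one_mem_Sq, by simp⟩
  rw [h2]
  simp

include S in
/-- every unit is a square up to sign -/
lemma mem_or_neg_mem (a : Fˣ) : a ∈ Sq F ∨ -a ∈ Sq F := by
  rw [mem_Sq, mem_Sq, Units.val_neg]
  by_cases h : IsSquare (a : F)
  · left; exact h
  · right
    have h2 : ringChar F ≠ 2 := by
      intro h3
      apply S.two_ne
      have : ((ringChar F : ℕ) : F) = 0 := CharP.cast_eq_zero F (ringChar F)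
      rw [h3] at this; exact_mod_cast this
    have h1 : quadraticChar F (-1) = -1 := by
      rw [quadraticChar_neg_one_iff_not_isSquare]
      exact S.hsq
    have h4 : quadraticChar F (a : F) = -1 := by
      rw [quadraticChar_neg_one_iff_not_isSquare]
      exact h
    have h5 : quadraticChar F (-(a : F)) = 1 := by
      rw [← neg_one_mul, map_mul, h1, h4]; norm_num
    exact (quadraticChar_one_iff_isSquare (neg_ne_zero.2 a.ne_zero)).1 h5

/-- a character of the torus -/
structure TChar (F k : Type*) [Field F] [Field k] where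
  χ : Fˣ →* kˣ
  neg : χ (-1) = 1

variable (X Y : TChar F k)

lemma TChar.map_neg (X : TChar F k) (a : Fˣ) : X.χ (-a) = X.χ a := by
  rw [← neg_one_mul, map_mul, X.neg, one_mul]

@[ext] lemma TChar.ext' {X Y : TChar F k} (h : X.χ = Y.χ) : X = Y := by
  cases X; cases Y; simp only at h; subst h; rfl

/-- the inverse character -/
def TChar.inv (X : TChar F k) : TChar F k := ⟨X.χ⁻¹, by rw [MonoidHom.inv_apply, X.neg, inv_one]⟩

/-- the trivial character -/
def TChar.one : TChar F k := ⟨1, rfl⟩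

lemma TChar.inv_apply (X : TChar F k) (a : Fˣ) : X.inv.χ a = (X.χ a)⁻¹ := rfl

/-- the idempotent of the Borel subgroup for the character `X` -/
noncomputable def B : MonoidAlgebra k G :=
  (∑ a ∈ Sq F, ((X.χ a)⁻¹ : kˣ).val • S.b (t a)) * S.e 0

lemma bt_e0 (a : Fˣ) : S.b (t a) * S.e 0 = S.e 0 * S.b (t a) := by
  rw [S.bt_e, zero_mul]

lemma e0_bu (x : F) : S.e 0 * S.b (u x) = S.e 0 := by
  rw [S.e_bu, zero_mul, AddChar.map_zero_eq_one, one_smul]

lemma bu_e0 (x : F) : S.b (u x) * S.e 0 = S.e 0 := by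
  rw [S.bu_e, zero_mul, AddChar.map_zero_eq_one, one_smul]

lemma B_mul_e0 : B S X * S.e 0 = B S X := by
  rw [B, mul_assoc, S.e_idem]

lemma e0_mul_B : S.e 0 * B S X = B S X := by
  rw [B, ← mul_assoc, Finset.mul_sum, Finset.sum_mul, Finset.sum_mul]
  refine Finset.sum_congr rfl (fun a _ => ?_)
  rw [mul_smul_comm, ← bt_e0, smul_mul_assoc, mul_assoc, S.e_idem, smul_mul_assoc]

lemma B_bu (x : F) : B S X * S.b (u x) = B S X := by
  rw [B, mul_assoc, e0_bu]

lemma bu_B (x : F) : S.b (u x) * B S X = B S X := by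
  rw [← e0_mul_B, ← mul_assoc, bu_e0]

lemma bt_comm_B (a : Fˣ) : S.b (t a) * B S X = B S X * S.b (t a) := by
  have key : S.b (t a) * (∑ a ∈ Sq F, ((X.χ a)⁻¹ : kˣ).val • S.b (t a))
      = (∑ a ∈ Sq F, ((X.χ a)⁻¹ : kˣ).val • S.b (t a)) * S.b (t a) := by
    rw [Finset.mul_sum, Finset.sum_mul]
    refine Finset.sum_congr rfl (fun c _ => ?_)
    rw [mul_smul_comm, smul_mul_assoc, ← S.b_mul, ← S.b_mul, t_mul_t, t_mul_t, mul_comm]
  rw [B, mul_assoc _ (S.e 0), ← bt_e0, ← mul_assoc, ← mul_assoc, key]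

lemma bt_B_of_mem {a : Fˣ} (ha : a ∈ Sq F) : S.b (t a) * B S X = (X.χ a).val • B S X := by
  rw [B, ← mul_assoc, ← smul_mul_assoc, Finset.mul_sum, Finset.smul_sum]
  congr 1
  refine Finset.sum_bij' (fun c _ => a * c) (fun c _ => a⁻¹ * c) ?_ ?_ ?_ ?_ ?_
  · intro c hc; exact mul_mem_Sq ha hc
  · intro c hc; exact mul_mem_Sq (inv_mem_Sq ha) hc
  · intro c _; simp
  · intro c _; simp
  · intro c _
    rw [mul_smul_comm, ← S.b_mul, t_mul_t, smul_smul, ← Units.val_mul, map_mul, mul_inv,
      mul_inv_cancel_left]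

lemma bt_B (a : Fˣ) : S.b (t a) * B S X = (X.χ a).val • B S X := by
  rcases mem_or_neg_mem S a with h | h
  · exact bt_B_of_mem S X h
  · have := bt_B_of_mem S X h
    rwa [S.b_t_neg, X.map_neg] at this

lemma B_bt (a : Fˣ) : B S X * S.b (t a) = (X.χ a).val • B S X := by
  rw [← bt_comm_B, bt_B]

lemma B_idem : B S X * B S X = B S X := by
  nth_rewrite 1 [B]
  rw [mul_assoc, e0_mul_B, Finset.sum_mul]
  have : ∀ a ∈ Sq F, (((X.χ a)⁻¹ : kˣ).val • S.b (t a)) * B S X = B S X := by
    intro a _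
    rw [smul_mul_assoc, bt_B, smul_smul, ← Units.val_mul, inv_mul_cancel, Units.val_one, one_smul]
  rw [Finset.sum_congr rfl this, Finset.sum_const, ← Nat.cast_smul_eq_nsmul k, card_Sq S, one_smul]

lemma TChar.exists_ne {X Y : TChar F k} (h : X ≠ Y) : ∃ a : Fˣ, X.χ a ≠ Y.χ a := by
  by_contra hcon
  push Not at hcon
  exact h (TChar.ext' (MonoidHom.ext hcon))

lemma B_mul_B_ne {X Y : TChar F k} (h : X ≠ Y) : B S X * B S Y = 0 := by
  obtain ⟨a, ha⟩ := TChar.exists_ne h
  have h1 : (X.χ a).val • (B S X * B S Y) = (Y.χ a).val • (B S X * B S Y) := by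
    rw [← smul_mul_assoc, ← B_bt, mul_assoc, bt_B, mul_smul_comm]
  have h2 : ((X.χ a).val - (Y.χ a).val) • (B S X * B S Y) = 0 := by rw [sub_smul, h1, sub_self]
  exact (smul_eq_zero.mp h2).resolve_left (sub_ne_zero.2 (fun h3 => ha (Units.ext h3)))

/-- `n c = t c⁻¹ * n 1` -/
lemma bn_left (c : Fˣ) : S.b (n c) = S.b (t c⁻¹) * S.b (n 1) := by
  rw [← S.b_mul, t_mul_n]; simp

/-- `n c = n 1 * t c` -/
lemma bn_right (c : Fˣ) : S.b (n c) = S.b (n 1) * S.b (t c) := by
  rw [← S.b_mul, n_mul_t, one_mul]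

lemma B_bn (c : Fˣ) (z : MonoidAlgebra k G) :
    B S X * S.b (n c) * z = ((X.χ c)⁻¹ : kˣ).val • (B S X * S.b (n 1) * z) := by
  rw [bn_left, ← mul_assoc, B_bt, map_inv, smul_mul_assoc, smul_mul_assoc]

lemma bn_B (c : Fˣ) (z : MonoidAlgebra k G) :
    z * S.b (n c) * B S X = (X.χ c).val • (z * S.b (n 1) * B S X) := by
  rw [bn_right, ← mul_assoc, mul_assoc _ (S.b (t c)), bt_B, mul_smul_comm]

lemma B_n_B_ne {X Y : TChar F k} (h : Y ≠ X.inv) : B S X * S.b (n 1) * B S Y = 0 := by
  obtain ⟨a, ha⟩ := TChar.exists_ne h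
  rw [TChar.inv_apply] at ha
  have h1 : ((X.χ a)⁻¹ : kˣ).val • (B S X * S.b (n 1) * B S Y)
      = (Y.χ a).val • (B S X * S.b (n 1) * B S Y) := by
    rw [← B_bn, bn_B]
  have h2 : ((Y.χ a).val - ((X.χ a)⁻¹ : kˣ).val) • (B S X * S.b (n 1) * B S Y) = 0 := by
    rw [sub_smul, h1, sub_self]
  exact (smul_eq_zero.mp h2).resolve_left (sub_ne_zero.2 (fun h3 => ha (Units.ext h3)))

/-- linear extension from Bruhat elements -/
lemma bruhat_span {M : Type*} [AddCommGroup M] [Module k M] (V : Submodule k M)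
    (φ : MonoidAlgebra k G →ₗ[k] M)
    (h1 : ∀ (a : Fˣ) (x : F), φ (S.b (t a) * S.b (u x)) ∈ V)
    (h2 : ∀ (c : Fˣ) (x y : F), φ (S.b (u x) * S.b (n c) * S.b (u y)) ∈ V)
    (z : MonoidAlgebra k G) : φ z ∈ V := by
  induction z using MonoidAlgebra.induction_linear with
  | zero => rw [map_zero]; exact V.zero_mem
  | add a b ha hb => rw [map_add]; exact V.add_mem ha hb
  | single g r =>
    have h3 : MonoidAlgebra.single g r = r • MonoidAlgebra.of k G g := by
      rw [MonoidAlgebra.of_apply, MonoidAlgebra.smul_single, smul_eq_mul, mul_one]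
    rw [h3, map_smul]
    apply V.smul_mem
    rcases S.of_bruhat g with ⟨a, x, h⟩ | ⟨c, x, y, h⟩
    · rw [h]; exact h1 a x
    · rw [h]; exact h2 c x y

/-- `B X A B Y` -/
lemma B_B_mem (z : MonoidAlgebra k G) :
    B S X * z * B S Y ∈ Submodule.span k {B S X * B S Y, B S X * S.b (n 1) * B S Y} := by
  have := bruhat_span S (Submodule.span k {B S X * B S Y, B S X * S.b (n 1) * B S Y})
    (sand (k := k) (B S X) (B S Y)) (fun a x => by
      have : B S X * (S.b (t a) * S.b (u x)) * B S Y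
          = B S X * (S.b (t a) * (S.b (u x) * B S Y)) := by simp only [mul_assoc]
      rw [sand_apply, this, bu_B, bt_B, mul_smul_comm]
      exact Submodule.smul_mem _ _ (Submodule.subset_span (Set.mem_insert _ _)))
    (fun c x y => by
      rw [sand_apply]
      have : B S X * (S.b (u x) * S.b (n c) * S.b (u y)) * B S Y
          = (B S X * S.b (u x)) * S.b (n c) * (S.b (u y) * B S Y) := by simp only [mul_assoc]
      rw [this, B_bu, bu_B, B_bn S X c (B S Y)]
      apply Submodule.smul_mem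
      apply Submodule.subset_span
      exact Set.mem_insert_of_mem _ rfl) z
  rwa [sand_apply] at this

/-- `x = B X * n 1 * e α` -/
noncomputable def xx (α : F) : MonoidAlgebra k G := B S X * S.b (n 1) * S.e α

/-- `y = e α * n 1 * B X` -/
noncomputable def yy (α : F) : MonoidAlgebra k G := S.e α * S.b (n 1) * B S X

lemma B_e {α : F} (hα : α ≠ 0) : B S X * S.e α = 0 := by
  rw [← B_mul_e0, mul_assoc, S.e_orth (Ne.symm hα), mul_zero]

lemma e_B {α : F} (hα : α ≠ 0) : S.e α * B S X = 0 := by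
  rw [← e0_mul_B, ← mul_assoc, S.e_orth hα, zero_mul]

lemma B_xx (α : F) : B S X * xx S X α = xx S X α := by
  rw [xx, ← mul_assoc, ← mul_assoc, B_idem]

lemma xx_e (α : F) : xx S X α * S.e α = xx S X α := by
  rw [xx, mul_assoc, S.e_idem]

lemma e_yy (α : F) : S.e α * yy S X α = yy S X α := by
  rw [yy, ← mul_assoc, ← mul_assoc, S.e_idem]

lemma yy_B (α : F) : yy S X α * B S X = yy S X α := by
  rw [yy, mul_assoc, B_idem]

/-- `B X A e α` is spanned by `xx` -/
lemma B_e_mem {α : F} (hα : α ≠ 0) (z : MonoidAlgebra k G) :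
    ∃ c : k, B S X * z * S.e α = c • xx S X α := by
  have := bruhat_span S (Submodule.span k {xx S X α})
    (sand (k := k) (B S X) (S.e α)) (fun a x => by
      have : B S X * (S.b (t a) * S.b (u x)) * S.e α
          = B S X * S.b (t a) * (S.b (u x) * S.e α) := by simp only [mul_assoc]
      rw [sand_apply, this, S.bu_e, mul_smul_comm, B_bt, smul_mul_assoc, B_e S X hα, smul_zero,
        smul_zero]
      exact Submodule.zero_mem _)
    (fun c x y => by
      rw [sand_apply]
      have : B S X * (S.b (u x) * S.b (n c) * S.b (u y)) * S.e α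
          = (B S X * S.b (u x)) * S.b (n c) * (S.b (u y) * S.e α) := by simp only [mul_assoc]
      rw [this, B_bu, S.bu_e, mul_smul_comm, B_bn S X c (S.e α)]
      exact Submodule.smul_mem _ _ (Submodule.smul_mem _ _ (Submodule.subset_span rfl))) z
  rw [sand_apply] at this
  obtain ⟨c, hc⟩ := Submodule.mem_span_singleton.1 this
  exact ⟨c, hc.symm⟩

/-- `e α A B X` is spanned by `yy` -/
lemma e_B_mem {α : F} (hα : α ≠ 0) (z : MonoidAlgebra k G) :
    ∃ c : k, S.e α * z * B S X = c • yy S X α := by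
  have := bruhat_span S (Submodule.span k {yy S X α})
    (sand (k := k) (S.e α) (B S X)) (fun a x => by
      have : S.e α * (S.b (t a) * S.b (u x)) * B S X
          = S.e α * (S.b (t a) * (S.b (u x) * B S X)) := by simp only [mul_assoc]
      rw [sand_apply, this, bu_B, bt_B, mul_smul_comm, e_B S X hα, smul_zero]
      exact Submodule.zero_mem _)
    (fun c x y => by
      rw [sand_apply]
      have : S.e α * (S.b (u x) * S.b (n c) * S.b (u y)) * B S X
          = (S.e α * S.b (u x)) * S.b (n c) * (S.b (u y) * B S X) := by simp only [mul_assoc]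
      rw [this, bu_B, S.e_bu, smul_mul_assoc, smul_mul_assoc, bn_B]
      exact Submodule.smul_mem _ _ (Submodule.smul_mem _ _ (Submodule.subset_span rfl))) z
  rw [sand_apply] at this
  obtain ⟨c, hc⟩ := Submodule.mem_span_singleton.1 this
  exact ⟨c, hc.symm⟩

end Borel
end Pool.Cartan73
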