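import Pool.Agent.Cartan73.Borel

/-! # The Borel part of `k[PSL(2,q)]`: product formulas (helper73, MP_bea28b_al) -/

set_option linter.unusedSectionVars false

open Matrix Finset Cartan76

namespace Pool.Cartan73
namespace Borel

variable {F k G : Type*} [Field F] [Fintype F] [DecidableEq F] [Field k] [CharP k 2] [Group G]
variable (S : Setup F k G)
variable (X Y : TChar F k)

lemma b_n1_sq : S.b (n 1) * S.b (n 1) = 1 := by
  rw [S.b_n_mul_n, inv_one, mul_one, t_one, S.b_one]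

/-- `n 1 * e α * n 1` -/
lemma n_e_n (α : F) : S.b (n 1) * S.e α * S.b (n 1) = 1 + ∑ x : Fˣ, S.ψ (-(α * x)) •
    (S.b (u (-((x : F))⁻¹)) * S.b (n x) * S.b (u (-((x : F))⁻¹))) := by
  have h2 : S.b (n 1) * S.e α * S.b (n 1) =
      ∑ x : F, S.ψ (-(α * x)) • (S.b (n 1 * u x * n 1)) := by
    conv_lhs => rw [show S.e α = ∑ x : F, S.ψ (-(α * x)) • S.b (u x) from rfl]
    simp only [Finset.mul_sum, Finset.sum_mul, mul_smul_comm, smul_mul_assoc, S.b_mul]
  rw [h2, sum_units]
  congr 1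
  · rw [mul_zero, neg_zero, AddChar.map_zero_eq_one, one_smul, u_zero, mul_one, S.b_mul, b_n1_sq]
  · refine Finset.sum_congr rfl fun x _ => ?_
    rw [n_u_n, S.b_mul, S.b_mul]
    simp

lemma BX_n (x : Fˣ) :
    B S X * (S.b (u (-((x : F))⁻¹)) * S.b (n x) * S.b (u (-((x : F))⁻¹))) * B S Y
      = ((X.χ x)⁻¹ : kˣ).val • (B S X * S.b (n 1) * B S Y) := by
  have : B S X * (S.b (u (-((x : F))⁻¹)) * S.b (n x) * S.b (u (-((x : F))⁻¹))) * B S Y
    = (B S X * S.b (u (-((x : F))⁻¹))) * S.b (n x) * (S.b (u (-((x : F))⁻¹)) * B S Y) := by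
      simp only [mul_assoc]
  rw [this, B_bu, bu_B, B_bn]

/-- the sandwich `B X * (n 1 * e α * n 1) * B Y` -/
lemma B_nen_B (α : F) : B S X * (S.b (n 1) * S.e α * S.b (n 1)) * B S Y =
    B S X * B S Y + (∑ x : Fˣ, S.ψ (-(α * x)) * ((X.χ x)⁻¹ : kˣ).val) •
      (B S X * S.b (n 1) * B S Y) := by
  rw [n_e_n, mul_add, add_mul, mul_one, Finset.mul_sum, Finset.sum_mul, Finset.sum_smul]
  congr 1
  refine Finset.sum_congr rfl fun x _ => ?_
  rw [mul_smul_comm, smul_mul_assoc, BX_n S X Y x, smul_smul]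

lemma xx_mul_yy (α : F) : xx S X α * yy S Y α =
    B S X * B S Y + (∑ x : Fˣ, S.ψ (-(α * x)) * ((X.χ x)⁻¹ : kˣ).val) •
      (B S X * S.b (n 1) * B S Y) := by
  rw [← B_nen_B, xx, yy]
  calc B S X * S.b (n 1) * S.e α * (S.e α * S.b (n 1) * B S Y)
      = B S X * (S.b (n 1) * (S.e α * S.e α) * S.b (n 1)) * B S Y := by simp only [mul_assoc]
    _ = _ := by rw [S.e_idem]

lemma TChar.inv_inv (X : TChar F k) : X.inv.inv = X := by
  apply TChar.ext'
  exact _root_.inv_inv X.χ

lemma TChar.eq_one_of_eq_inv {X : TChar F k} (h : X = X.inv) : X = TChar.one := by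
  apply TChar.ext'
  ext a
  have h1 : X.χ a = (X.χ a)⁻¹ := by
    nth_rewrite 1 [h]; rfl
  have h2 : (X.χ a : k) * (X.χ a : k) = 1 := by
    have : X.χ a * X.χ a = 1 := by
      nth_rewrite 1 [h1]; rw [inv_mul_cancel]
    have := congrArg Units.val this
    simpa using this
  have h3 : ((X.χ a : k) - 1) * ((X.χ a : k) - 1) = 0 := by
    have h4 : (2 : k) = 0 := CharTwo.two_eq_zero
    linear_combination h2 + (1 - (X.χ a : k)) * h4
  have h5 := mul_self_eq_zero.1 h3
  change (X.χ a : k) = 1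
  linear_combination h5

lemma TChar.ne_inv {X : TChar F k} (h : X ≠ TChar.one) : X ≠ X.inv :=
  fun h2 => h (TChar.eq_one_of_eq_inv h2)

lemma xx_yy_self {X : TChar F k} (h : X ≠ TChar.one) (α : F) :
    xx S X α * yy S X α = B S X := by
  rw [xx_mul_yy, B_idem, B_n_B_ne S (TChar.ne_inv h), smul_zero, add_zero]

lemma xx_yy_ne {X Y : TChar F k} (h : X ≠ Y) (h' : Y ≠ X.inv) (α : F) :
    xx S X α * yy S Y α = 0 := by
  rw [xx_mul_yy, B_mul_B_ne S h, B_n_B_ne S h', smul_zero, add_zero]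

/-- The element `W` -/
noncomputable def W : MonoidAlgebra k G := B S (TChar.one) * S.b (n 1) * B S TChar.one

lemma xx_yy_one {α : F} (hα : α ≠ 0) :
    xx S TChar.one α * yy S TChar.one α = B S TChar.one + W S := by
  rw [xx_mul_yy, B_idem, W]
  have : (∑ x : Fˣ, S.ψ (-(α * x)) * (((TChar.one : TChar F k).χ x)⁻¹ : kˣ).val) = 1 := by
    have h1 : ∀ x : Fˣ, S.ψ (-(α * x)) * (((TChar.one : TChar F k).χ x)⁻¹ : kˣ).val
        = S.ψ ((x : F) * (-α)) := by
      intro x
      have : (((TChar.one : TChar F k).χ x)⁻¹ : kˣ).val = 1 := by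
        change (((1 : kˣ))⁻¹ : kˣ).val = 1
        simp
      rw [this, mul_one]
      congr 1; ring
    rw [Finset.sum_congr rfl fun x _ => h1 x]
    have h2 := S.sum_psi (-α)
    rw [sum_units, zero_mul, AddChar.map_zero_eq_one, if_neg (neg_ne_zero.2 hα)] at h2
    have h3 : ∑ x : Fˣ, S.ψ ((x : F) * -α) = -1 := by linear_combination h2
    rw [h3, CharTwo.neg_eq]
  rw [this, one_smul]

include S in
lemma card_units_cast : ((Fintype.card Fˣ : ℕ) : k) = 0 := by
  apply Setup.cast_even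
  have := S.hq
  rw [Fintype.card_units]
  omega

lemma B_n_e0_n_B : B S X * (S.b (n 1) * S.e 0 * S.b (n 1)) * B S X = B S X := by
  rw [B_nen_B, B_idem]
  by_cases h : X = TChar.one
  · subst h
    have : (∑ x : Fˣ, S.ψ (-(0 * x)) * (((TChar.one : TChar F k).χ x)⁻¹ : kˣ).val) = 0 := by
      have h1 : ∀ x : Fˣ, S.ψ (-(0 * x)) * (((TChar.one : TChar F k).χ x)⁻¹ : kˣ).val = 1 := by
        intro x
        have : (((TChar.one : TChar F k).χ x)⁻¹ : kˣ).val = 1 := by
          change (((1 : kˣ))⁻¹ : kˣ).val = 1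
          simp
        rw [this, mul_one, zero_mul, neg_zero, AddChar.map_zero_eq_one]
      rw [Finset.sum_congr rfl fun x _ => h1 x, Finset.sum_const, Finset.card_univ, nsmul_one,
        card_units_cast S]
    rw [this, zero_smul, add_zero]
  · rw [B_n_B_ne S (TChar.ne_inv h), smul_zero, add_zero]

lemma W_W_inv : (B S X * S.b (n 1) * B S X.inv) * (B S X.inv * S.b (n 1) * B S X) = B S X := by
  have h1 : (B S X * S.b (n 1) * B S X.inv) * (B S X.inv * S.b (n 1) * B S X)
      = B S X * S.b (n 1) * B S X.inv * S.b (n 1) * B S X := by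
    calc _ = B S X * S.b (n 1) * (B S X.inv * B S X.inv) * S.b (n 1) * B S X := by
          simp only [mul_assoc]
      _ = _ := by rw [B_idem]
  rw [h1]
  have h2 : B S X * S.b (n 1) * B S X.inv * S.b (n 1) * B S X
      = ∑ a ∈ Sq F, B S X * (S.b (n 1) * S.e 0 * S.b (n 1)) * B S X := by
    nth_rewrite 2 [B]
    rw [← mul_assoc, Finset.mul_sum, Finset.sum_mul, Finset.sum_mul, Finset.sum_mul]
    refine Finset.sum_congr rfl fun a _ => ?_
    rw [mul_smul_comm, mul_assoc (B S X) (S.b (n 1)) (S.b (t a)), ← bn_right, smul_mul_assoc,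
      smul_mul_assoc, smul_mul_assoc]
    rw [mul_assoc (B S X * S.b (n a)), mul_assoc (B S X * S.b (n a)), B_bn, smul_smul,
      TChar.inv_apply, ← Units.val_mul]
    simp only [mul_assoc, inv_inv, mul_inv_cancel, Units.val_one, one_smul]
  rw [h2, Finset.sum_const, ← Nat.cast_smul_eq_nsmul k, card_Sq S, one_smul, B_n_e0_n_B]

lemma TChar.one_inv : (TChar.one : TChar F k).inv = TChar.one := by
  apply TChar.ext'
  apply MonoidHom.ext
  intro a
  exact (inv_one : (1 : kˣ)⁻¹ = 1)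

lemma W_sq : W S * W S = B S TChar.one := by
  have := W_W_inv S (TChar.one : TChar F k)
  rw [TChar.one_inv] at this
  exact this

lemma yy_xx_ne {X Y : TChar F k} (h : X ≠ Y) (α β : F) : yy S X α * xx S Y β = 0 := by
  have : yy S X α * xx S Y β = S.e α * S.b (n 1) * (B S X * B S Y) * S.b (n 1) * S.e β := by
    rw [yy, xx]; simp only [mul_assoc]
  rw [this, B_mul_B_ne S h, mul_zero, zero_mul, zero_mul]

lemma e_n_e0_n_e (α γ : F) (hα : α * α = 1) (hγ : γ * γ = 1) (a : Fˣ) (ha : a ∈ Sq F) :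
    S.e α * S.b (n a) * S.e 0 * S.b (n 1) * S.e γ =
      (if α = γ ∧ a = 1 then S.e α else 0) + S.D α γ ((a : F)⁻¹ + α * γ * a) := by
  have h1 : S.e α * S.b (n a) * S.e 0 * S.b (n 1) * S.e γ = S.N α 0 a * S.N 0 γ 1 := by
    simp only [Setup.N]
    calc _ = S.e α * S.b (n a) * (S.e 0 * S.e 0) * S.b (n 1) * S.e γ := by rw [S.e_idem]
      _ = _ := by simp only [mul_assoc]
  rw [h1, S.N_mul_N, S.e_t_e α γ hα hγ]
  congr 1
  · apply if_congr _ rfl rfl
    rw [one_mul]
    constructor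
    · rintro ⟨h2, h3 | h3⟩
      · exact ⟨h2, by simpa using h3⟩
      · exfalso
        have h4 : a = -1 := by rw [inv_eq_iff_eq_inv] at h3; rw [h3]; simp
        rw [mem_Sq, h4] at ha
        exact S.hsq (by simpa using ha)
    · rintro ⟨h2, rfl⟩
      exact ⟨h2, Or.inl (by simp)⟩
  · rw [← S.D_neg, Setup.D]
    refine Fintype.sum_equiv (Equiv.mulLeft a) _ _ fun x => ?_
    have ha0 := a.ne_zero
    have hx0 := x.ne_zero
    simp only [Equiv.coe_mulLeft, mul_one]
    congr 1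
    rw [zero_mul, neg_zero, AddChar.map_zero_eq_one, one_mul, ← AddChar.map_add_eq_mul]
    congr 1
    rw [Units.val_mul, Units.val_one]
    field_simp
    linear_combination ((a : F) ^ 2 * γ) * hα

/-- the product `y x` -/
lemma yy_xx (α γ : F) (hα : α * α = 1) (hγ : γ * γ = 1) : yy S X α * xx S X γ =
    (if α = γ then S.e α else 0) +
      ∑ a ∈ Sq F, ((X.χ a)⁻¹ : kˣ).val • S.D α γ ((a : F)⁻¹ + α * γ * a) := by
  have h1 : yy S X α * xx S X γ = S.e α * S.b (n 1) * B S X * S.b (n 1) * S.e γ := by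
    rw [yy, xx]
    calc _ = S.e α * S.b (n 1) * (B S X * B S X) * S.b (n 1) * S.e γ := by simp only [mul_assoc]
      _ = _ := by rw [B_idem]
  have h2 : S.e α * S.b (n 1) * B S X * S.b (n 1) * S.e γ
      = ∑ a ∈ Sq F, ((X.χ a)⁻¹ : kˣ).val •
        (S.e α * S.b (n a) * S.e 0 * S.b (n 1) * S.e γ) := by
    rw [B, ← mul_assoc, Finset.mul_sum, Finset.sum_mul, Finset.sum_mul, Finset.sum_mul]
    refine Finset.sum_congr rfl fun a _ => ?_
    rw [mul_smul_comm, mul_assoc (S.e α) (S.b (n 1)) (S.b (t a)), ← bn_right, smul_mul_assoc,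
      smul_mul_assoc, smul_mul_assoc]
  rw [h1, h2, Finset.sum_congr rfl fun a ha => by rw [e_n_e0_n_e S α γ hα hγ a ha, smul_add],
    Finset.sum_add_distrib]
  congr 1
  rw [Finset.sum_eq_single (1 : Fˣ)]
  · simp
  · intro a _ ha
    rw [if_neg (fun h => ha h.2), smul_zero]
  · intro h; exact absurd one_mem_Sq h

lemma yy_xx_inv (α γ : F) (hα : α * α = 1) (hγ : γ * γ = 1) :
    yy S X.inv α * xx S X.inv γ = yy S X α * xx S X γ := by
  rw [yy_xx S _ α γ hα hγ, yy_xx S _ α γ hα hγ]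
  congr 1
  refine Finset.sum_bij' (fun a _ => a⁻¹) (fun a _ => a⁻¹) (fun a ha => inv_mem_Sq ha)
    (fun a ha => inv_mem_Sq ha) (fun a _ => inv_inv a) (fun a _ => inv_inv a) ?_
  intro a _
  rw [TChar.inv_apply, map_inv]
  congr 1
  have hab : γ = α ∨ γ = -α := by
    have : (γ - α) * (γ + α) = 0 := by linear_combination hγ - hα
    rcases mul_eq_zero.1 this with h | h
    · left; linear_combination h
    · right; linear_combination h
  have ha0 := a.ne_zero
  rcases hab with rfl | rfl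
  · congr 1
    rw [hα, Units.val_inv_eq_inv_val, inv_inv]; ring
  · rw [← S.D_neg]
    congr 1
    rw [mul_neg, hα, Units.val_inv_eq_inv_val, inv_inv]; ring

lemma yy_xx_one (α : F) (hα : α * α = 1) :
    yy S TChar.one α * xx S TChar.one α = S.z α := by
  rw [yy_xx S _ α α hα hα, if_pos rfl, Setup.z]
  congr 1
  have h1 : ∀ a ∈ Sq F, (((TChar.one : TChar F k).χ a)⁻¹ : kˣ).val •
      S.D α α ((a : F)⁻¹ + α * α * a) = S.D α α ((a : F)⁻¹ + a) := by
    intro a _
    have : (((TChar.one : TChar F k).χ a)⁻¹ : kˣ).val = 1 := by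
      change (((1 : kˣ))⁻¹ : kˣ).val = 1
      simp
    rw [this, one_smul, hα, one_mul]
  rw [Finset.sum_congr rfl h1, sum_fixed (fun x : MonoidAlgebra k G => Setup.add_self x) (Sq F)
    (fun a => a⁻¹) (fun i hi => inv_mem_Sq hi) (fun i _ => inv_inv i) _ (fun a _ => by
      rw [Units.val_inv_eq_inv_val, inv_inv, add_comm])]
  have h2 : (Sq F).filter (fun a => a⁻¹ = a) = {1} := by
    ext a
    rw [Finset.mem_filter, Finset.mem_singleton]
    constructor
    · rintro ⟨h3, h4⟩; exact (inv_fixed S h3).1 h4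
    · rintro rfl; exact ⟨one_mem_Sq, by simp⟩
  rw [h2, Finset.sum_singleton]
  congr 1
  simp; norm_num

lemma yy_xx_one_ne {α γ : F} (hα : α * α = 1) (hγ : γ * γ = 1) (h : α ≠ γ) :
    yy S TChar.one α * xx S TChar.one γ = 0 := by
  rw [yy_xx S _ α γ hα hγ, if_neg h, zero_add]
  have hab : γ = -α := by
    have : (γ - α) * (γ + α) = 0 := by linear_combination hγ - hα
    rcases mul_eq_zero.1 this with h' | h'
    · exfalso; apply h; linear_combination -h'
    · linear_combination h'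
  have h1 : ∀ a ∈ Sq F, (((TChar.one : TChar F k).χ a)⁻¹ : kˣ).val •
      S.D α γ ((a : F)⁻¹ + α * γ * a) = S.D α γ ((a : F)⁻¹ - a) := by
    intro a _
    have : (((TChar.one : TChar F k).χ a)⁻¹ : kˣ).val = 1 := by
      change (((1 : kˣ))⁻¹ : kˣ).val = 1
      simp
    rw [this, one_smul, hab, mul_neg, hα]
    congr 1; ring
  rw [Finset.sum_congr rfl h1, sum_fixed (fun x : MonoidAlgebra k G => Setup.add_self x) (Sq F)
    (fun a => a⁻¹) (fun i hi => inv_mem_Sq hi) (fun i _ => inv_inv i) _ (fun a _ => by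
      rw [← S.D_neg, Units.val_inv_eq_inv_val, inv_inv]
      congr 1; ring)]
  have h2 : (Sq F).filter (fun a => a⁻¹ = a) = {1} := by
    ext a
    rw [Finset.mem_filter, Finset.mem_singleton]
    constructor
    · rintro ⟨h3, h4⟩; exact (inv_fixed S h3).1 h4
    · rintro rfl; exact ⟨one_mem_Sq, by simp⟩
  rw [h2, Finset.sum_singleton]
  simp [S.D_zero]

end Borel
end Pool.Cartan73
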