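import Pool.Agent.Cartan73.General2

/-! # Dimensions of `e A f` and equivalence of idempotents (helper73, MP_bea28b_al) -/

namespace Pool.Cartan73

section
variable {k A : Type*} [Field k] [Ring A] [Algebra k A]

/-- dimension of `e A f` -/
noncomputable def dm (k : Type*) {A : Type*} [Field k] [Ring A] [Algebra k A] (e f : A) : ℕ :=
  Module.finrank k (LinearMap.range (sand (k := k) e f))

lemma dm_zero_of {e f : A} (h : ∀ x, e * x * f = 0) : dm k e f = 0 := by
  unfold dm
  have : sand (k := k) e f = 0 := by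
    ext x
    rw [sand_apply, h]; rfl
  rw [this, LinearMap.range_zero, finrank_bot]

lemma mem_range_sand {e f : A} (he : e * e = e) (hf : f * f = f) {x : A} :
    x ∈ LinearMap.range (sand (k := k) e f) ↔ e * x = x ∧ x * f = x := by
  constructor
  · rintro ⟨y, rfl⟩
    rw [sand_apply]
    refine ⟨?_, ?_⟩
    · rw [← mul_assoc, ← mul_assoc, he]
    · rw [mul_assoc, hf]
  · rintro ⟨h1, h2⟩
    exact ⟨x, by rw [sand_apply, h1, h2]⟩

/-- equivalence of idempotents -/
def Equi (e f : A) : Prop := ∃ p q : A, p * q = e ∧ q * p = f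

lemma Equi.symm {e f : A} (h : Equi e f) : Equi f e := by
  obtain ⟨p, q, h1, h2⟩ := h
  exact ⟨q, p, h2, h1⟩

lemma finrank_le_of_maps {V W : Submodule k A} [FiniteDimensional k A] (φ : A →ₗ[k] A)
    (h1 : ∀ v ∈ V, φ v ∈ W) (h2 : ∀ v ∈ V, φ v = 0 → v = 0) :
    Module.finrank k V ≤ Module.finrank k W := by
  have h3 : ∀ v : V, φ v ∈ W := fun v => h1 v v.2
  let φ' : V →ₗ[k] W := LinearMap.codRestrict W (φ.comp V.subtype) h3
  apply LinearMap.finrank_le_finrank_of_injective (f := φ')
  rw [← LinearMap.ker_eq_bot, Submodule.eq_bot_iff]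
  intro v hv
  have h4 : φ (v : A) = 0 := congrArg Subtype.val (LinearMap.mem_ker.1 hv)
  exact Subtype.ext (h2 v v.2 h4)

lemma Equi.dm_left_le [FiniteDimensional k A] {e f g : A} (h : Equi e f) (he : e * e = e)
    (hf : f * f = f) (hg : g * g = g) : dm k e g ≤ dm k f g := by
  obtain ⟨p, q, h1, h2⟩ := h
  apply finrank_le_of_maps (LinearMap.mulLeft k (f * q))
  · intro v hv
    obtain ⟨h3, h4⟩ := (mem_range_sand he hg).1 hv
    rw [mem_range_sand hf hg, LinearMap.mulLeft_apply]
    refine ⟨?_, ?_⟩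
    · rw [← mul_assoc, ← mul_assoc, hf]
    · rw [mul_assoc, h4]
  · intro v hv h5
    obtain ⟨h3, h4⟩ := (mem_range_sand he hg).1 hv
    rw [LinearMap.mulLeft_apply] at h5
    have h6 : p * (f * q) = e := by
      rw [← h2]
      calc p * (q * p * q) = (p * q) * (p * q) := by simp only [mul_assoc]
        _ = e := by rw [h1, he]
    rw [← h3, ← h6, mul_assoc, h5, mul_zero]

lemma Equi.dm_left [FiniteDimensional k A] {e f g : A} (h : Equi e f) (he : e * e = e)
    (hf : f * f = f) (hg : g * g = g) : dm k e g = dm k f g :=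
  le_antisymm (h.dm_left_le he hf hg) (h.symm.dm_left_le hf he hg)

lemma Equi.dm_right_le [FiniteDimensional k A] {e f g : A} (h : Equi e f) (he : e * e = e)
    (hf : f * f = f) (hg : g * g = g) : dm k g e ≤ dm k g f := by
  obtain ⟨p, q, h1, h2⟩ := h
  apply finrank_le_of_maps (LinearMap.mulRight k (p * f))
  · intro v hv
    obtain ⟨h3, h4⟩ := (mem_range_sand hg he).1 hv
    rw [mem_range_sand hg hf, LinearMap.mulRight_apply]
    refine ⟨?_, ?_⟩
    · rw [← mul_assoc, h3]
    · rw [mul_assoc, mul_assoc, hf]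
  · intro v hv h5
    obtain ⟨h3, h4⟩ := (mem_range_sand hg he).1 hv
    rw [LinearMap.mulRight_apply] at h5
    have h6 : (p * f) * q = e := by
      rw [← h2]
      calc p * (q * p) * q = (p * q) * (p * q) := by simp only [mul_assoc]
        _ = e := by rw [h1, he]
    rw [← h4, ← h6, ← mul_assoc, h5, zero_mul]

lemma Equi.dm_right [FiniteDimensional k A] {e f g : A} (h : Equi e f) (he : e * e = e)
    (hf : f * f = f) (hg : g * g = g) : dm k g e = dm k g f :=
  le_antisymm (h.dm_right_le he hf hg) (h.symm.dm_right_le hf he hg)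

/-- additivity on the left -/
lemma dm_add_left [FiniteDimensional k A] {e₁ e₂ f : A} (h1 : e₁ * e₁ = e₁) (h2 : e₂ * e₂ = e₂)
    (h12 : e₁ * e₂ = 0) (h21 : e₂ * e₁ = 0) (hf : f * f = f) :
    dm k (e₁ + e₂) f = dm k e₁ f + dm k e₂ f := by
  have hs : (e₁ + e₂) * (e₁ + e₂) = e₁ + e₂ := by
    rw [add_mul, mul_add, mul_add, h1, h2, h12, h21]; abel
  unfold dm
  set V := LinearMap.range (sand (k := k) (e₁ + e₂) f) with hV
  let φ : V →ₗ[k] A := (LinearMap.mulLeft k e₁).comp V.subtype
  have hφ : ∀ v : V, φ v = e₁ * (v : A) := fun v => rfl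
  have h3 := LinearMap.finrank_range_add_finrank_ker φ
  have h4 : LinearMap.range φ = LinearMap.range (sand (k := k) e₁ f) := by
    ext x
    rw [mem_range_sand h1 hf]
    constructor
    · rintro ⟨v, rfl⟩
      obtain ⟨h5, h6⟩ := (mem_range_sand hs hf).1 v.2
      rw [hφ]
      exact ⟨by rw [← mul_assoc, h1], by rw [mul_assoc, h6]⟩
    · rintro ⟨h5, h6⟩
      refine ⟨⟨x, ?_⟩, ?_⟩
      · rw [hV, mem_range_sand hs hf]
        refine ⟨?_, h6⟩
        rw [add_mul, h5]
        have : e₂ * x = 0 := by rw [← h5, ← mul_assoc, h21, zero_mul]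
        rw [this, add_zero]
      · rw [hφ]; exact h5
  have h5 : (LinearMap.ker φ).map V.subtype = LinearMap.range (sand (k := k) e₂ f) := by
    ext x
    rw [mem_range_sand h2 hf]
    constructor
    · rintro ⟨v, hv, rfl⟩
      have hv' : e₁ * (v : A) = 0 := hv
      obtain ⟨h5, h6⟩ := (mem_range_sand hs hf).1 v.2
      refine ⟨?_, h6⟩
      rw [add_mul, hv', zero_add] at h5
      exact h5
    · rintro ⟨h5, h6⟩
      have h7 : e₁ * x = 0 := by rw [← h5, ← mul_assoc, h12, zero_mul]
      have h8 : x ∈ V := by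
        rw [hV, mem_range_sand hs hf]
        exact ⟨by rw [add_mul, h7, zero_add, h5], h6⟩
      exact ⟨⟨x, h8⟩, h7, rfl⟩
  have h6 : Module.finrank k (LinearMap.ker φ)
      = Module.finrank k (LinearMap.range (sand (k := k) e₂ f)) := by
    rw [← h5]
    exact (Submodule.equivMapOfInjective V.subtype (Submodule.injective_subtype _)
        _).finrank_eq
  rw [← h3, h4, h6]

/-- additivity on the right -/
lemma dm_add_right [FiniteDimensional k A] {e₁ e₂ f : A} (h1 : e₁ * e₁ = e₁) (h2 : e₂ * e₂ = e₂)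
    (h12 : e₁ * e₂ = 0) (h21 : e₂ * e₁ = 0) (hf : f * f = f) :
    dm k f (e₁ + e₂) = dm k f e₁ + dm k f e₂ := by
  have hs : (e₁ + e₂) * (e₁ + e₂) = e₁ + e₂ := by
    rw [add_mul, mul_add, mul_add, h1, h2, h12, h21]; abel
  unfold dm
  set V := LinearMap.range (sand (k := k) f (e₁ + e₂)) with hV
  let φ : V →ₗ[k] A := (LinearMap.mulRight k e₁).comp V.subtype
  have hφ : ∀ v : V, φ v = (v : A) * e₁ := fun v => rfl
  have h3 := LinearMap.finrank_range_add_finrank_ker φ
  have h4 : LinearMap.range φ = LinearMap.range (sand (k := k) f e₁) := by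
    ext x
    rw [mem_range_sand hf h1]
    constructor
    · rintro ⟨v, rfl⟩
      obtain ⟨h5, h6⟩ := (mem_range_sand hf hs).1 v.2
      rw [hφ]
      exact ⟨by rw [← mul_assoc, h5], by rw [mul_assoc, h1]⟩
    · rintro ⟨h5, h6⟩
      refine ⟨⟨x, ?_⟩, ?_⟩
      · rw [hV, mem_range_sand hf hs]
        refine ⟨h5, ?_⟩
        rw [mul_add, h6]
        have : x * e₂ = 0 := by rw [← h6, mul_assoc, h12, mul_zero]
        rw [this, add_zero]
      · rw [hφ]; exact h6
  have h5 : (LinearMap.ker φ).map V.subtype = LinearMap.range (sand (k := k) f e₂) := by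
    ext x
    rw [mem_range_sand hf h2]
    constructor
    · rintro ⟨v, hv, rfl⟩
      have hv' : (v : A) * e₁ = 0 := hv
      obtain ⟨h5, h6⟩ := (mem_range_sand hf hs).1 v.2
      refine ⟨h5, ?_⟩
      rw [mul_add, hv', zero_add] at h6
      exact h6
    · rintro ⟨h5, h6⟩
      have h7 : x * e₁ = 0 := by rw [← h6, mul_assoc, h21, mul_zero]
      have h8 : x ∈ V := by
        rw [hV, mem_range_sand hf hs]
        exact ⟨h5, by rw [mul_add, h7, zero_add, h6]⟩
      exact ⟨⟨x, h8⟩, h7, rfl⟩
  have h6 : Module.finrank k (LinearMap.ker φ)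
      = Module.finrank k (LinearMap.range (sand (k := k) f e₂)) := by
    rw [← h5]
    exact (Submodule.equivMapOfInjective V.subtype (Submodule.injective_subtype _)
        _).finrank_eq
  rw [← h3, h4, h6]

lemma orth_sum_idem {ι : Type*} (s : Finset ι) (e : ι → A) (h : ∀ i ∈ s, e i * e i = e i)
    (ho : ∀ i ∈ s, ∀ j ∈ s, i ≠ j → e i * e j = 0) :
    (∑ i ∈ s, e i) * (∑ i ∈ s, e i) = ∑ i ∈ s, e i := by
  classical
  rw [Finset.sum_mul]
  refine Finset.sum_congr rfl (fun i hi => ?_)
  rw [Finset.mul_sum, Finset.sum_eq_single i]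
  · exact h i hi
  · intro j hj hji; exact ho i hi j hj (Ne.symm hji)
  · intro h'; exact absurd hi h'

lemma dm_sum_left [FiniteDimensional k A] {ι : Type*} (s : Finset ι) (e : ι → A) (f : A)
    (h : ∀ i ∈ s, e i * e i = e i) (ho : ∀ i ∈ s, ∀ j ∈ s, i ≠ j → e i * e j = 0)
    (hf : f * f = f) : dm k (∑ i ∈ s, e i) f = ∑ i ∈ s, dm k (e i) f := by
  classical
  induction s using Finset.induction_on with
  | empty =>
    rw [Finset.sum_empty, Finset.sum_empty]
    exact dm_zero_of (fun x => by rw [zero_mul, zero_mul])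
  | insert a s ha ih =>
    rw [Finset.sum_insert ha, Finset.sum_insert ha, dm_add_left, ih]
    · intro i hi; exact h i (Finset.mem_insert_of_mem hi)
    · intro i hi j hj; exact ho i (Finset.mem_insert_of_mem hi) j (Finset.mem_insert_of_mem hj)
    · exact h a (Finset.mem_insert_self a s)
    · exact orth_sum_idem s e (fun i hi => h i (Finset.mem_insert_of_mem hi))
        (fun i hi j hj => ho i (Finset.mem_insert_of_mem hi) j (Finset.mem_insert_of_mem hj))
    · rw [Finset.mul_sum]
      exact Finset.sum_eq_zero (fun i hi => ho a (Finset.mem_insert_self a s) i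
        (Finset.mem_insert_of_mem hi) (fun h' => ha (h' ▸ hi)))
    · rw [Finset.sum_mul]
      exact Finset.sum_eq_zero (fun i hi => ho i (Finset.mem_insert_of_mem hi) a
        (Finset.mem_insert_self a s) (fun h' => ha (h' ▸ hi)))
    · exact hf

lemma dm_sum_right [FiniteDimensional k A] {ι : Type*} (s : Finset ι) (e : ι → A) (f : A)
    (h : ∀ i ∈ s, e i * e i = e i) (ho : ∀ i ∈ s, ∀ j ∈ s, i ≠ j → e i * e j = 0)
    (hf : f * f = f) : dm k f (∑ i ∈ s, e i) = ∑ i ∈ s, dm k f (e i) := by
  classical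
  induction s using Finset.induction_on with
  | empty =>
    rw [Finset.sum_empty, Finset.sum_empty]
    exact dm_zero_of (fun x => by rw [mul_zero])
  | insert a s ha ih =>
    rw [Finset.sum_insert ha, Finset.sum_insert ha, dm_add_right, ih]
    · intro i hi; exact h i (Finset.mem_insert_of_mem hi)
    · intro i hi j hj; exact ho i (Finset.mem_insert_of_mem hi) j (Finset.mem_insert_of_mem hj)
    · exact h a (Finset.mem_insert_self a s)
    · exact orth_sum_idem s e (fun i hi => h i (Finset.mem_insert_of_mem hi))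
        (fun i hi j hj => ho i (Finset.mem_insert_of_mem hi) j (Finset.mem_insert_of_mem hj))
    · rw [Finset.mul_sum]
      exact Finset.sum_eq_zero (fun i hi => ho a (Finset.mem_insert_self a s) i
        (Finset.mem_insert_of_mem hi) (fun h' => ha (h' ▸ hi)))
    · rw [Finset.sum_mul]
      exact Finset.sum_eq_zero (fun i hi => ho i (Finset.mem_insert_of_mem hi) a
        (Finset.mem_insert_self a s) (fun h' => ha (h' ▸ hi)))
    · exact hf

/-- non-nilpotent products give equivalences -/
lemma equi_of_not_nil {e f : A} (L : LocIdem k e) (L' : LocIdem k f) {a b : A}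
    (h : ¬ IsNilpotent (e * a * f * b * e)) : Equi e f := by
  rcases L.nil_or_inv (x := e * a * f * b * e)
    (by rw [← mul_assoc, ← mul_assoc, ← mul_assoc, ← mul_assoc, L.idem])
    (by rw [mul_assoc, L.idem]) with h' | ⟨y, hy1, hy2, hy⟩
  · exact absurd h' h
  set p := y * (e * a * f) with hp
  set q := f * b * e with hq
  have hpq : p * q = e := by
    rw [hp, hq]
    calc y * (e * a * f) * (f * b * e) = y * (e * a * (f * f) * b * e) := by
          simp only [mul_assoc]
      _ = e := by rw [L'.idem, hy]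
  have hfq : f * q = q := by rw [hq, ← mul_assoc, ← mul_assoc, L'.idem]
  have hpf : p * f = p := by
    rw [hp]
    calc y * (e * a * f) * f = y * (e * a * (f * f)) := by simp only [mul_assoc]
      _ = _ := by rw [L'.idem]
  have hqe : q * e = q := by rw [hq, mul_assoc, L.idem]
  have hqp : (q * p) * (q * p) = q * p := by
    calc (q * p) * (q * p) = q * (p * q) * p := by simp only [mul_assoc]
      _ = q * p := by rw [hpq, hqe]
  refine ⟨p, q, hpq, ?_⟩
  rcases L'.nil_or_inv (x := q * p) (by rw [← mul_assoc, hfq]) (by rw [mul_assoc, hpf]) with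
    h' | ⟨z, hz1, hz2, hz⟩
  · exfalso
    obtain ⟨n, hn⟩ := h'
    have h9 : ∀ m : ℕ, (q * p) ^ (m + 1) = q * p := by
      intro m
      induction m with
      | zero => simp
      | succ m ih => rw [pow_succ, ih, hqp]
    have h10 : q * p = 0 := by rw [← h9 n, pow_succ, hn, zero_mul]
    have h11 : e = 0 := by
      rw [← L.idem, ← hpq]
      calc p * q * (p * q) = p * (q * p) * q := by simp only [mul_assoc]
        _ = 0 := by rw [h10, mul_zero, zero_mul]
    exact L.ne h11
  · have h12 : f * (q * p) = q * p := by rw [← mul_assoc, hfq]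
    rw [← h12]
    nth_rewrite 1 [← hz]
    rw [mul_assoc, hqp, hz]

/-- idempotent data where the rows of `C` are pairwise different: the condition `nil` is
automatic. -/
def IdemData.ofRows [FiniteDimensional k A] {I : Type*} {C : I → I → ℕ} (e : I → A)
    (idem : ∀ i, e i * e i = e i) (ne : ∀ i, e i ≠ 0)
    (loc : ∀ i x, ∃ c : k, IsNilpotent (e i * x * e i - c • e i))
    (full : (1 : A) ∈ Submodule.span k {y | ∃ a i b, y = a * e i * b})
    (dims : ∀ i j, dm k (e i) (e j) = C i j)
    (rows : ∀ i j, (∀ l, C i l = C j l) → i = j) : IdemData k A I C where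
  e := e
  idem := idem
  ne := ne
  loc := loc
  nil := by
    intro i j hij a b
    by_contra h
    apply hij
    apply rows
    intro l
    rw [← dims, ← dims]
    exact (equi_of_not_nil ⟨idem i, ne i, loc i⟩ ⟨idem j, ne j, loc j⟩ h).dm_left (idem i)
      (idem j) (idem l)
  full := full
  dims := dims

end

end Pool.Cartan73
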