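import Pool.Agent.Cartan73.Borel2
import Pool.Agent.Cartan73.GenDims

/-! # The Borel part of `k[PSL(2,q)]`: dimensions, vanishing (helper73, MP_bea28b_al) -/

set_option linter.unusedSectionVars false

open Matrix Finset Cartan76

namespace Pool.Cartan73
namespace Borel

variable {F k G : Type*} [Field F] [Fintype F] [DecidableEq F] [Field k] [CharP k 2] [Group G]
variable (S : Setup F k G)
variable (X Y : TChar F k)

/-! ### traces -/

lemma tr_mul_comm (x y : MonoidAlgebra k G) : Setup.tr (x * y) = Setup.tr (y * x) :=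
  LinPair.coeff_one_mul_comm x y

lemma not_pm_of_10 {g : SLF F} (h : g.1 1 0 ≠ 0) : ¬ (g.1 = 1 ∨ g.1 = -1) := by
  rintro (h1 | h1)
  · apply h; rw [h1]; simp
  · apply h; rw [h1]; simp

lemma tr_b_10 {g : SLF F} (h : g.1 1 0 ≠ 0) : Setup.tr (S.b g) = 0 := by
  rw [S.tr_b, if_neg (not_pm_of_10 h)]

lemma tr_e (α : F) : Setup.tr (S.e α) = 1 := by
  unfold Setup.e
  rw [Setup.tr_sum, Finset.sum_eq_single (0 : F)]
  · have h : ((1 : SLF F).1 = 1 ∨ (1 : SLF F).1 = -1) := Or.inl rfl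
    rw [Setup.tr_smul, u_zero, S.tr_b, if_pos h]
    simp
  · intro x _ hx
    rw [Setup.tr_smul, S.tr_b, if_neg, mul_zero]
    rintro (h | h)
    · apply hx
      have := congrFun (congrFun h 0) 1
      rw [u01] at this
      simpa using this
    · have := congrFun (congrFun h 0) 0
      rw [u00] at this
      apply S.two_ne
      have h2 : (1 : F) = -1 := by simpa using this
      linear_combination h2
  · intro h; exact absurd (Finset.mem_univ _) h

lemma tr_N (α β : F) (c : Fˣ) : Setup.tr (S.N α β c) = 0 := by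
  rw [Setup.N, mul_assoc, tr_mul_comm]
  unfold Setup.e
  simp only [Finset.mul_sum, Finset.sum_mul, Setup.tr_sum]
  refine Finset.sum_eq_zero (fun x _ => Finset.sum_eq_zero (fun y _ => ?_))
  simp only [mul_smul_comm, smul_mul_assoc, Setup.tr_smul, ← S.b_mul]
  rw [tr_b_10, mul_zero, mul_zero]
  rw [mul10, mul10, mul11, n10, n11, u00, u10, u10, u00]
  simp

lemma tr_D (α β τ : F) : Setup.tr (S.D α β τ) = 0 := by
  unfold Setup.D
  rw [Setup.tr_sum]
  refine Finset.sum_eq_zero (fun x _ => ?_)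
  rw [Setup.tr_smul, tr_N, mul_zero]

lemma tr_z (α : F) : Setup.tr (S.z α) = 1 := by
  rw [Setup.z, Setup.tr_add, tr_e, tr_D, add_zero]

lemma z_ne (α : F) : S.z α ≠ 0 := by
  intro h
  have := tr_z S α
  rw [h, Setup.tr_zero] at this
  exact zero_ne_one this

lemma tr_B : Setup.tr (B S X) = 1 := by
  rw [B, Finset.sum_mul, Setup.tr_sum, Finset.sum_eq_single (1 : Fˣ)]
  · rw [smul_mul_assoc, Setup.tr_smul, t_one, S.b_one, one_mul, tr_e]
    simp
  · intro a ha ha1
    rw [smul_mul_assoc, Setup.tr_smul]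
    have : Setup.tr (S.b (t a) * S.e 0) = 0 := by
      unfold Setup.e
      rw [Finset.mul_sum, Setup.tr_sum]
      refine Finset.sum_eq_zero (fun x _ => ?_)
      rw [mul_smul_comm, Setup.tr_smul, ← S.b_mul, S.tr_b, if_neg, mul_zero]
      rintro (h | h)
      · apply ha1
        have := congrFun (congrFun h 0) 0
        rw [mul00, t00, u00, t01, zero_mul, add_zero, mul_one] at this
        apply Units.ext
        simpa using this
      · have := congrFun (congrFun h 0) 0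
        rw [mul00, t00, u00, t01, zero_mul, add_zero, mul_one] at this
        rw [mem_Sq] at ha
        apply S.hsq
        have h2 : (a : F) = -1 := by simpa using this
        rwa [h2] at ha
    rw [this, mul_zero]
  · intro h; exact absurd one_mem_Sq h

lemma B_ne : B S X ≠ 0 := by
  intro h
  have := tr_B S X
  rw [h, Setup.tr_zero] at this
  exact zero_ne_one this

lemma tr_W : Setup.tr (W S) = 0 := by
  rw [W, mul_assoc, tr_mul_comm, mul_assoc, B_idem, B]
  unfold Setup.e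
  simp only [Finset.mul_sum, Finset.sum_mul, Setup.tr_sum]
  refine Finset.sum_eq_zero (fun x _ => Finset.sum_eq_zero (fun y _ => ?_))
  rw [mul_smul_comm, smul_mul_assoc, mul_smul_comm, Setup.tr_smul]
  rw [mul_smul_comm, Setup.tr_smul, ← S.b_mul, ← S.b_mul, tr_b_10, mul_zero, mul_zero]
  rw [mul10, n10, n11, mul00, t00, t01, u00]
  simp

lemma W_ne : W S ≠ 0 := by
  intro h
  have := W_sq S
  rw [h, mul_zero] at this
  exact B_ne S _ this.symm

/-! ### dimensions in the Borel part -/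

lemma dm_B_ne {X Y : TChar F k} (h : X ≠ Y) (h' : Y ≠ X.inv) : dm k (B S X) (B S Y) = 0 := by
  apply dm_zero_of
  intro x
  have := B_B_mem S X Y x
  rw [B_mul_B_ne S h, B_n_B_ne S h'] at this
  simpa using this

lemma B_corner {X : TChar F k} (h : X ≠ TChar.one) (x : MonoidAlgebra k G) :
    ∃ c : k, B S X * x * B S X = c • B S X := by
  have := B_B_mem S X X x
  rw [B_idem, B_n_B_ne S (TChar.ne_inv h)] at this
  obtain ⟨a, b, hab⟩ := Submodule.mem_span_pair.1 this
  exact ⟨a, by rw [← hab, smul_zero, add_zero]⟩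

lemma B_corner_one (x : MonoidAlgebra k G) :
    ∃ a b : k, B S TChar.one * x * B S TChar.one = a • B S TChar.one + b • W S := by
  have := B_B_mem S TChar.one TChar.one x
  rw [B_idem] at this
  obtain ⟨a, b, hab⟩ := Submodule.mem_span_pair.1 this
  exact ⟨a, b, hab.symm⟩

lemma B_loc {X : TChar F k} (h : X ≠ TChar.one) (x : MonoidAlgebra k G) :
    ∃ c : k, IsNilpotent (B S X * x * B S X - c • B S X) := by
  obtain ⟨c, hc⟩ := B_corner S h x
  exact ⟨c, by rw [hc, sub_self]; exact IsNilpotent.zero⟩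

lemma B_mul_W : B S TChar.one * W S = W S := by
  rw [W, ← mul_assoc, ← mul_assoc, B_idem]

lemma W_mul_B : W S * B S TChar.one = W S := by
  rw [W, mul_assoc, B_idem]

lemma B_loc_one (x : MonoidAlgebra k G) :
    ∃ c : k, IsNilpotent (B S TChar.one * x * B S TChar.one - c • B S TChar.one) := by
  obtain ⟨a, b, hab⟩ := B_corner_one S x
  refine ⟨a + b, ?_⟩
  have h1 : B S TChar.one * x * B S TChar.one - (a + b) • B S TChar.one
      = b • (W S - B S TChar.one) := by
    rw [hab, add_smul, smul_sub]; abel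
  rw [h1]
  refine ⟨2, ?_⟩
  rw [pow_two, smul_mul_smul_comm]
  have h2 : (W S - B S TChar.one) * (W S - B S TChar.one)
      = (B S TChar.one + B S TChar.one) - (W S + W S) := by
    rw [sub_mul, mul_sub, mul_sub, W_sq, W_mul_B, B_mul_W, B_idem]; abel
  rw [h2, Setup.add_self, Setup.add_self, sub_self, smul_zero]

lemma dm_B_self {X : TChar F k} (h : X ≠ TChar.one) : dm k (B S X) (B S X) = 1 := by
  unfold dm
  have : LinearMap.range (sand (k := k) (B S X) (B S X)) = Submodule.span k {B S X} := by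
    apply le_antisymm
    · rintro _ ⟨x, rfl⟩
      rw [sand_apply]
      obtain ⟨c, hc⟩ := B_corner S h x
      rw [hc]
      exact Submodule.smul_mem _ _ (Submodule.subset_span rfl)
    · rw [Submodule.span_le]
      rintro _ rfl
      exact ⟨B S X, by rw [sand_apply, B_idem, B_idem]⟩
  rw [this, finrank_span_singleton (B_ne S X)]

lemma dm_B_one : dm k (B S TChar.one) (B S TChar.one) = 2 := by
  unfold dm
  have h1 : LinearMap.range (sand (k := k) (B S TChar.one) (B S TChar.one))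
      = Submodule.span k (Set.range ![B S TChar.one, W S]) := by
    apply le_antisymm
    · rintro _ ⟨x, rfl⟩
      rw [sand_apply]
      obtain ⟨a, b, hab⟩ := B_corner_one S x
      rw [hab]
      exact Submodule.add_mem _ (Submodule.smul_mem _ _ (Submodule.subset_span ⟨0, rfl⟩))
        (Submodule.smul_mem _ _ (Submodule.subset_span ⟨1, rfl⟩))
    · rw [Submodule.span_le]
      rintro _ ⟨i, rfl⟩
      fin_cases i
      · exact ⟨B S TChar.one, by rw [sand_apply, B_idem, B_idem]; rfl⟩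
      · exact ⟨W S, by rw [sand_apply, B_mul_W, W_mul_B]; rfl⟩
  have h2 : LinearIndependent k ![B S TChar.one, W S] := by
    rw [LinearIndependent.pair_iff]
    intro a b hab
    have h3 : a = 0 := by
      have h4 := congrArg Setup.tr hab
      rw [Setup.tr_add, Setup.tr_smul, Setup.tr_smul, tr_B, tr_W, Setup.tr_zero] at h4
      simpa using h4
    subst h3
    rw [zero_smul, zero_add] at hab
    exact ⟨rfl, (smul_eq_zero.1 hab).resolve_right (W_ne S)⟩
  rw [h1, finrank_span_eq_card h2]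
  simp

/-! ### vanishing of `x D` for nonsplit `D` -/

variable {α β : F} 

lemma alpha_ne {α : F} (hα : α * α = 1) : α ≠ 0 := by rintro rfl; simp at hα

lemma D_mul_z_D (hα : α * α = 1) (hβ : β * β = 1) {σ : F}
    (hσ : ¬ IsSquare (σ ^ 2 - 4 * (α * β))) : S.z α * S.D α β σ = 0 := by
  have hδ : σ ^ 2 - 4 * (α * β) ≠ 0 := fun h => hσ (by rw [h]; exact ⟨0, by simp⟩)
  rw [Setup.z, add_mul, S.D_mul_D α α β 2 σ hα hα hβ hδ]
  have h1 : ¬ (α = β ∧ ((2 : F) = σ ∨ (2 : F) = -σ) ∧ (2 : F) ≠ 0) := by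
    rintro ⟨rfl, h2, _⟩
    apply hδ
    rcases h2 with h2 | h2
    · rw [← h2, hα]; ring
    · have : σ = -2 := by linear_combination h2
      rw [this, hα]; ring
  rw [if_neg h1, zero_add]
  have h2 : Finset.univ.filter
      (fun Z : F => (σ ^ 2 - 4 * (α * β)) * Z ^ 2 = 2 ^ 2 - 4 * (α * α)) = {0} := by
    ext Z
    rw [Finset.mem_filter, Finset.mem_singleton]
    constructor
    · rintro ⟨_, h3⟩
      have h4 : (σ ^ 2 - 4 * (α * β)) * Z ^ 2 = 0 := by rw [h3, hα]; ring
      have h5 := (mul_eq_zero.1 h4).resolve_left hδ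
      exact pow_eq_zero_iff (two_ne_zero) |>.1 h5
    · rintro rfl
      refine ⟨Finset.mem_univ _, ?_⟩
      rw [hα]; ring
  rw [h2, Finset.sum_singleton]
  have h3 : (σ * 2 + (σ ^ 2 - 4 * (α * β)) * 0) * 2⁻¹ = σ := by
    rw [mul_zero, add_zero, mul_assoc, mul_inv_cancel₀ S.two_ne, mul_one]
  rw [h3]
  have h4 : S.e α * S.D α β σ = S.D α β σ := by
    unfold Setup.D
    rw [Finset.mul_sum]
    refine Finset.sum_congr rfl (fun c _ => ?_)
    rw [mul_smul_comm, Setup.N, ← mul_assoc, ← mul_assoc, S.e_idem]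
  rw [h4, Setup.add_self]

lemma D_split_mul_D (hα : α * α = 1) (hβ : β * β = 1) {σ : F}
    (hσ : ¬ IsSquare (σ ^ 2 - 4 * (α * β))) {a : Fˣ} (ha : a ∈ Sq F) (ha1 : a ≠ 1) :
    S.D α α ((a : F)⁻¹ + a) * S.D α β σ = 0 := by
  have hδ : σ ^ 2 - 4 * (α * β) ≠ 0 := fun h => hσ (by rw [h]; exact ⟨0, by simp⟩)
  have ha0 := a.ne_zero
  have hne : (a : F) - (a : F)⁻¹ ≠ 0 := by
    intro h
    apply ha1
    rw [← inv_fixed S ha]
    apply Units.ext
    rw [Units.val_inv_eq_inv_val]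
    linear_combination -h
  rw [S.D_mul_D α α β _ σ hα hα hβ hδ]
  have h1 : ¬ (α = β ∧ ((a : F)⁻¹ + a = σ ∨ (a : F)⁻¹ + a = -σ) ∧ (a : F)⁻¹ + a ≠ 0) := by
    rintro ⟨rfl, h2, _⟩
    apply hσ
    refine ⟨(a : F) - (a : F)⁻¹, ?_⟩
    have h3 : σ ^ 2 = ((a : F)⁻¹ + a) ^ 2 := by
      rcases h2 with h2 | h2
      · rw [h2]
      · rw [h2]; ring
    rw [h3, hα]
    field_simp
    ring
  rw [if_neg h1, zero_add]
  apply Finset.sum_eq_zero
  intro Z hZ
  exfalso
  rw [Finset.mem_filter] at hZ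
  have h2 : (σ ^ 2 - 4 * (α * β)) * Z ^ 2 = ((a : F) - (a : F)⁻¹) ^ 2 := by
    rw [hZ.2, hα]; field_simp; ring
  have hZ0 : Z ≠ 0 := by
    rintro rfl
    apply hne
    have : ((a : F) - (a : F)⁻¹) ^ 2 = 0 := by rw [← h2]; ring
    exact pow_eq_zero_iff (two_ne_zero) |>.1 this
  apply hσ
  refine ⟨((a : F) - (a : F)⁻¹) / Z, ?_⟩
  rw [div_mul_div_comm, eq_div_iff (mul_ne_zero hZ0 hZ0)]
  linear_combination h2

/-- `y x D = 0` -/
lemma yx_D (hα : α * α = 1) (hβ : β * β = 1) {σ : F}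
    (hσ : ¬ IsSquare (σ ^ 2 - 4 * (α * β))) :
    yy S X α * xx S X α * S.D α β σ = 0 := by
  rw [yy_xx S X α α hα hα, if_pos rfl]
  have h1 : S.e α + ∑ a ∈ Sq F, ((X.χ a)⁻¹ : kˣ).val • S.D α α ((a : F)⁻¹ + α * α * a)
      = S.z α + ∑ a ∈ (Sq F).erase 1, ((X.χ a)⁻¹ : kˣ).val • S.D α α ((a : F)⁻¹ + a) := by
    rw [← Finset.add_sum_erase _ _ one_mem_Sq, ← add_assoc, Setup.z]
    congr 1
    · congr 1
      rw [map_one, inv_one, Units.val_one, one_smul, hα]
      congr 1
      simp; norm_num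
    · refine Finset.sum_congr rfl (fun a _ => ?_)
      rw [hα, one_mul]
  rw [h1, add_mul, D_mul_z_D S hα hβ hσ, zero_add, Finset.sum_mul]
  refine Finset.sum_eq_zero (fun a ha => ?_)
  rw [Finset.mem_erase] at ha
  rw [smul_mul_assoc, D_split_mul_D S hα hβ hσ ha.2 ha.1, smul_zero]

lemma D_e (τ : F) : S.D α β τ * S.e β = S.D α β τ := by
  unfold Setup.D
  rw [Finset.sum_mul]
  refine Finset.sum_congr rfl (fun c _ => ?_)
  rw [smul_mul_assoc, Setup.N, mul_assoc (S.e α * S.b (n c)), S.e_idem]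

lemma e_D (τ : F) : S.e α * S.D α β τ = S.D α β τ := by
  unfold Setup.D
  rw [Finset.mul_sum]
  refine Finset.sum_congr rfl (fun c _ => ?_)
  rw [mul_smul_comm, Setup.N, ← mul_assoc, ← mul_assoc, S.e_idem]

/-- `x D = 0` for nonsplit `D` -/
lemma xx_D (hα : α * α = 1) (hβ : β * β = 1) {σ : F}
    (hσ : ¬ IsSquare (σ ^ 2 - 4 * (α * β))) : xx S X α * S.D α β σ = 0 := by
  by_cases hX : X = TChar.one
  · subst hX
    obtain ⟨c, hc⟩ := B_e_mem S TChar.one (alpha_ne hβ) (xx S TChar.one α * S.D α β σ)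
    have h1 : xx S TChar.one α * S.D α β σ = c • xx S TChar.one β := by
      rw [← hc, ← mul_assoc, B_xx, mul_assoc, D_e]
    have h2 : yy S TChar.one β * (xx S TChar.one α * S.D α β σ) = c • S.z β := by
      rw [h1, mul_smul_comm, yy_xx_one S β hβ]
    have h3 : yy S TChar.one β * (xx S TChar.one α * S.D α β σ) = 0 := by
      by_cases hab : α = β
      · subst hab
        rw [← mul_assoc, yx_D S _ hα hβ hσ]
      · rw [← mul_assoc, yy_xx_one_ne S hβ hα (Ne.symm hab), zero_mul]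
    rw [h3] at h2
    have h4 := (smul_eq_zero.1 h2.symm).resolve_right (z_ne S β)
    rw [h1, h4, zero_smul]
  · have h1 : xx S X α * yy S X α * xx S X α = xx S X α := by
      rw [xx_yy_self S hX, B_xx]
    rw [← h1, mul_assoc, mul_assoc, ← mul_assoc (yy S X α), yx_D S X hα hβ hσ, mul_zero]

lemma D_yx (hα : α * α = 1) (hβ : β * β = 1) {σ : F}
    (hσ : ¬ IsSquare (σ ^ 2 - 4 * (β * α))) :
    S.D β α σ * (yy S X α * xx S X α) = 0 := by
  have hσ' : ¬ IsSquare (σ ^ 2 - 4 * (α * β)) := by rwa [mul_comm α β]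
  rw [yy_xx S X α α hα hα, if_pos rfl, mul_add, D_e]
  have key : ∀ τ : F, S.D β α σ * S.D α α τ = S.D β β τ * S.D β α σ := by
    intro τ
    have h1 := S.D_comm β α α σ τ hβ hα hα
    have h2 : β * α * α = β := by linear_combination β * hα
    rw [h2] at h1
    exact h1
  have h3 : ∀ a ∈ Sq F, S.D β α σ * (((X.χ a)⁻¹ : kˣ).val • S.D α α ((a : F)⁻¹ + α * α * a))
      = (((X.χ a)⁻¹ : kˣ).val • S.D β β ((a : F)⁻¹ + β * β * a)) * S.D β α σ := by
    intro a _
    rw [mul_smul_comm, smul_mul_assoc, hα, hβ, key ((a : F)⁻¹ + 1 * a)]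
  have h1 := yx_D S X hβ hα hσ
  rw [yy_xx S X β β hβ hβ, if_pos rfl, add_mul, e_D, Finset.sum_mul] at h1
  rw [Finset.mul_sum, Finset.sum_congr rfl h3]
  exact h1

/-- `D y = 0` for nonsplit `D` -/
lemma D_yy (hα : α * α = 1) (hβ : β * β = 1) {σ : F}
    (hσ : ¬ IsSquare (σ ^ 2 - 4 * (β * α))) : S.D β α σ * yy S X α = 0 := by
  by_cases hX : X = TChar.one
  · subst hX
    obtain ⟨c, hc⟩ := e_B_mem S TChar.one (alpha_ne hβ) (S.D β α σ * yy S TChar.one α)
    have h1 : S.D β α σ * yy S TChar.one α = c • yy S TChar.one β := by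
      rw [← hc, ← mul_assoc, e_D, mul_assoc, yy_B]
    have h2 : (S.D β α σ * yy S TChar.one α) * xx S TChar.one β = c • S.z β := by
      rw [h1, smul_mul_assoc, yy_xx_one S β hβ]
    have h3 : (S.D β α σ * yy S TChar.one α) * xx S TChar.one β = 0 := by
      by_cases hab : α = β
      · subst hab
        rw [mul_assoc, D_yx S _ hα hβ hσ]
      · rw [mul_assoc, yy_xx_one_ne S hα hβ hab, mul_zero]
    rw [h3] at h2
    have h4 := (smul_eq_zero.1 h2.symm).resolve_right (z_ne S β)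
    rw [h1, h4, zero_smul]
  · have h1 : yy S X α * xx S X α * yy S X α = yy S X α := by
      rw [mul_assoc, xx_yy_self S hX, yy_B]
    rw [← h1, ← mul_assoc, D_yx S X hα hβ hσ, zero_mul]

/-! ### vanishing of `x z`, `z y` -/

lemma z_sq (hα : α * α = 1) : S.z α * S.z α = 0 := by
  have h1 : S.z α * S.z α = (S.e α + S.e α) + (S.D α α 2 + S.D α α 2) := by
    rw [Setup.z, add_mul, mul_add, mul_add, S.e_idem, e_D, D_e, S.D_two_mul_D_two α hα]
    abel
  rw [h1, Setup.add_self, Setup.add_self, add_zero]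

lemma D_split_z (hα : α * α = 1) {a : Fˣ} (ha : a ∈ Sq F) (ha1 : a ≠ 1) :
    S.D α α ((a : F)⁻¹ + a) * S.z α = 0 := by
  have ha0 := a.ne_zero
  have hne : (a : F) - (a : F)⁻¹ ≠ 0 := by
    intro h
    apply ha1
    rw [← inv_fixed S ha]
    apply Units.ext
    rw [Units.val_inv_eq_inv_val]
    linear_combination -h
  have hδ : ((a : F)⁻¹ + a) ^ 2 - 4 * (α * α) ≠ 0 := by
    rw [hα]
    have : ((a : F)⁻¹ + a) ^ 2 - 4 * 1 = ((a : F) - (a : F)⁻¹) ^ 2 := by field_simp; ring
    rw [this]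
    exact pow_ne_zero 2 hne
  have hcomm : S.D α α ((a : F)⁻¹ + a) * S.D α α 2 = S.D α α 2 * S.D α α ((a : F)⁻¹ + a) := by
    have h1 := S.D_comm α α α ((a : F)⁻¹ + a) 2 hα hα hα
    have h2 : α * α * α = α := by rw [hα, one_mul]
    rw [h2] at h1
    exact h1
  rw [Setup.z, mul_add, D_e, hcomm, S.D_mul_D α α α 2 _ hα hα hα hδ]
  have h1 : ¬ (α = α ∧ ((2 : F) = (a : F)⁻¹ + a ∨ (2 : F) = -((a : F)⁻¹ + a)) ∧ (2 : F) ≠ 0) := by
    rintro ⟨_, h2, _⟩
    apply hδ
    rw [hα]
    rcases h2 with h2 | h2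
    · rw [← h2]; ring
    · have : (a : F)⁻¹ + a = -2 := by linear_combination h2
      rw [this]; ring
  rw [if_neg h1, zero_add]
  have h2 : Finset.univ.filter
      (fun Z : F => (((a : F)⁻¹ + a) ^ 2 - 4 * (α * α)) * Z ^ 2 = 2 ^ 2 - 4 * (α * α)) = {0} := by
    ext Z
    rw [Finset.mem_filter, Finset.mem_singleton]
    constructor
    · rintro ⟨_, h3⟩
      have h4 : (((a : F)⁻¹ + a) ^ 2 - 4 * (α * α)) * Z ^ 2 = 0 := by rw [h3, hα]; ring
      have h5 := (mul_eq_zero.1 h4).resolve_left hδ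
      exact pow_eq_zero_iff (two_ne_zero) |>.1 h5
    · rintro rfl
      refine ⟨Finset.mem_univ _, ?_⟩
      rw [hα]; ring
  rw [h2, Finset.sum_singleton]
  have h3 : (((a : F)⁻¹ + a) * 2 + (((a : F)⁻¹ + a) ^ 2 - 4 * (α * α)) * 0) * 2⁻¹
      = (a : F)⁻¹ + a := by
    rw [mul_zero, add_zero, mul_assoc, mul_inv_cancel₀ S.two_ne, mul_one]
  rw [h3, Setup.add_self]

lemma z_eq_yx (hα : α * α = 1) : yy S X α * xx S X α
    = S.z α + ∑ a ∈ (Sq F).erase 1, ((X.χ a)⁻¹ : kˣ).val • S.D α α ((a : F)⁻¹ + a) := by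
  rw [yy_xx S X α α hα hα, if_pos rfl, ← Finset.add_sum_erase _ _ one_mem_Sq, ← add_assoc,
    Setup.z]
  congr 1
  · congr 1
    rw [map_one, inv_one, Units.val_one, one_smul, hα]
    congr 1
    simp; norm_num
  · refine Finset.sum_congr rfl (fun a _ => ?_)
    rw [hα, one_mul]

lemma yx_z (hα : α * α = 1) : yy S X α * xx S X α * S.z α = 0 := by
  rw [z_eq_yx S X hα, add_mul, z_sq S hα, zero_add, Finset.sum_mul]
  refine Finset.sum_eq_zero (fun a ha => ?_)
  rw [Finset.mem_erase] at ha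
  rw [smul_mul_assoc, D_split_z S hα ha.2 ha.1, smul_zero]

lemma z_e : S.z α * S.e α = S.z α := by
  rw [Setup.z, add_mul, S.e_idem, D_e]

lemma e_z : S.e α * S.z α = S.z α := by
  rw [Setup.z, mul_add, S.e_idem, e_D]

lemma xx_z (hα : α * α = 1) : xx S X α * S.z α = 0 := by
  by_cases hX : X = TChar.one
  · subst hX
    obtain ⟨c, hc⟩ := B_e_mem S TChar.one (alpha_ne hα) (xx S TChar.one α * S.z α)
    have h1 : xx S TChar.one α * S.z α = c • xx S TChar.one α := by
      rw [← hc, ← mul_assoc, B_xx, mul_assoc, z_e]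
    have h2 : yy S TChar.one α * (xx S TChar.one α * S.z α) = c • S.z α := by
      rw [h1, mul_smul_comm, yy_xx_one S α hα]
    rw [← mul_assoc, yx_z S _ hα] at h2
    have h4 := (smul_eq_zero.1 h2.symm).resolve_right (z_ne S α)
    rw [h1, h4, zero_smul]
  · have h1 : xx S X α * yy S X α * xx S X α = xx S X α := by
      rw [xx_yy_self S hX, B_xx]
    rw [← h1, mul_assoc, mul_assoc, ← mul_assoc (yy S X α), yx_z S X hα, mul_zero]

lemma z_D_split (hα : α * α = 1) {a : Fˣ} (ha : a ∈ Sq F) (ha1 : a ≠ 1) :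
    S.z α * S.D α α ((a : F)⁻¹ + a) = 0 := by
  rw [← D_split_z S hα ha ha1]
  have h1 := S.D_comm α α α ((a : F)⁻¹ + a) 2 hα hα hα
  have h2 : α * α * α = α := by rw [hα, one_mul]
  rw [h2] at h1
  rw [Setup.z, add_mul, mul_add, e_D, D_e, h1]

lemma z_yx (hα : α * α = 1) : S.z α * (yy S X α * xx S X α) = 0 := by
  rw [z_eq_yx S X hα, mul_add, z_sq S hα, zero_add, Finset.mul_sum]
  refine Finset.sum_eq_zero (fun a ha => ?_)
  rw [Finset.mem_erase] at ha
  rw [mul_smul_comm, z_D_split S hα ha.2 ha.1, smul_zero]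

lemma z_yy (hα : α * α = 1) : S.z α * yy S X α = 0 := by
  by_cases hX : X = TChar.one
  · subst hX
    obtain ⟨c, hc⟩ := e_B_mem S TChar.one (alpha_ne hα) (S.z α * yy S TChar.one α)
    have h1 : S.z α * yy S TChar.one α = c • yy S TChar.one α := by
      rw [← hc, ← mul_assoc, e_z, mul_assoc, yy_B]
    have h2 : (S.z α * yy S TChar.one α) * xx S TChar.one α = c • S.z α := by
      rw [h1, smul_mul_assoc, yy_xx_one S α hα]
    rw [mul_assoc, z_yx S _ hα] at h2
    have h4 := (smul_eq_zero.1 h2.symm).resolve_right (z_ne S α)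
    rw [h1, h4, zero_smul]
  · have h1 : yy S X α * xx S X α * yy S X α = yy S X α := by
      rw [mul_assoc, xx_yy_self S hX, yy_B]
    rw [← h1, ← mul_assoc, z_yx S X hα, zero_mul]

end Borel
end Pool.Cartan73
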