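import Pool.Agent.Cartan73.Borel3

/-! # The Borel part of `k[PSL(2,q)]`: the family of characters, the element `s`
(helper73, MP_bea28b_al) -/

set_option linter.unusedSectionVars false

open Matrix Finset Cartan76

namespace Pool.Cartan73
namespace Borel

variable {F k G : Type*} [Field F] [Fintype F] [DecidableEq F] [Field k] [CharP k 2] [Group G]
variable (S : Setup F k G)

/-- a generating character of the torus modulo `±1` -/
structure GenChar (F k : Type*) [Field F] [Fintype F] [DecidableEq F] [Field k] (N : ℕ) where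
  g : Fˣ
  gen : ∀ a : Fˣ, ∃ i : ℕ, a = g ^ i
  pow : g ^ N = -1
  ch : Fˣ →* kˣ
  ord : orderOf (ch g) = N

namespace GenChar
variable {N : ℕ} (Γ : GenChar F k N)

lemma ch_g_pow : Γ.ch Γ.g ^ N = 1 := by
  have := pow_orderOf_eq_one (Γ.ch Γ.g)
  rwa [Γ.ord] at this

lemma ch_neg : Γ.ch (-1) = 1 := by
  rw [← Γ.pow, map_pow, ch_g_pow]

/-- the characters -/
def tc (j : ℕ) : TChar F k := ⟨Γ.ch ^ j, by rw [MonoidHom.pow_apply, Γ.ch_neg, one_pow]⟩

lemma tc_apply (j : ℕ) (a : Fˣ) : (Γ.tc j).χ a = Γ.ch a ^ j := rfl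

lemma tc_zero : Γ.tc 0 = TChar.one := by
  apply TChar.ext'
  exact (pow_zero Γ.ch : Γ.ch ^ 0 = 1)

lemma ch_pow_N (a : Fˣ) : Γ.ch a ^ N = 1 := by
  obtain ⟨i, rfl⟩ := Γ.gen a
  rw [map_pow, ← pow_mul, mul_comm, pow_mul, ch_g_pow, one_pow]

lemma tc_eq_iff {i j : ℕ} : Γ.tc i = Γ.tc j ↔ i ≡ j [MOD N] := by
  constructor
  · intro h
    have h1 : Γ.ch Γ.g ^ i = Γ.ch Γ.g ^ j := by
      rw [← Γ.tc_apply, ← Γ.tc_apply, h]
    rw [pow_eq_pow_iff_modEq, Γ.ord] at h1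
    exact h1
  · intro h
    apply TChar.ext'
    apply MonoidHom.ext
    intro a
    rw [tc_apply, tc_apply]
    obtain ⟨l, rfl⟩ := Γ.gen a
    rw [map_pow, ← pow_mul, ← pow_mul, pow_eq_pow_iff_modEq, Γ.ord]
    exact h.mul_left l

lemma tc_inv {i j : ℕ} (h : i + j = N) : (Γ.tc i).inv = Γ.tc j := by
  apply TChar.ext'
  apply MonoidHom.ext
  intro a
  rw [TChar.inv_apply, tc_apply, tc_apply, inv_eq_iff_mul_eq_one, ← pow_add, h, ch_pow_N]

lemma ch_eq_one_iff (hsq : ¬ IsSquare (-1 : F)) {a : Fˣ} (ha : a ∈ Sq F) :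
    Γ.ch a = 1 ↔ a = 1 := by
  constructor
  · intro h
    obtain ⟨i, rfl⟩ := Γ.gen a
    rw [map_pow, ← orderOf_dvd_iff_pow_eq_one, Γ.ord] at h
    obtain ⟨m, rfl⟩ := h
    rw [pow_mul, Γ.pow] at ha ⊢
    rcases Nat.even_or_odd m with hm | hm
    · rw [hm.neg_one_pow]
    · exfalso
      rw [hm.neg_one_pow, mem_Sq] at ha
      exact hsq (by simpa using ha)
  · rintro rfl; exact map_one _

/-- orthogonality -/
lemma sum_ch (hsq : ¬ IsSquare (-1 : F)) (hN : N % 2 = 1) {a : Fˣ} (ha : a ∈ Sq F) :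
    ∑ j ∈ Finset.range N, ((Γ.ch a ^ j : kˣ) : k) = if a = 1 then 1 else 0 := by
  by_cases h : a = 1
  · subst h
    rw [if_pos rfl]
    simp only [map_one, one_pow, Units.val_one, Finset.sum_const, Finset.card_range, nsmul_one]
    exact Setup.cast_odd hN
  · rw [if_neg h]
    have h1 : ((Γ.ch a : kˣ) : k) ≠ 1 := by
      intro h2
      apply h
      rw [← Γ.ch_eq_one_iff hsq ha]
      exact Units.ext h2
    have h2 : ((Γ.ch a : kˣ) : k) ^ N = 1 := by
      rw [← Units.val_pow_eq_pow_val, ch_pow_N, Units.val_one]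
    have h3 := mul_geom_sum ((Γ.ch a : kˣ) : k) N
    rw [h2, sub_self] at h3
    have h4 := (mul_eq_zero.1 h3).resolve_left (sub_ne_zero.2 h1)
    rw [← h4]
    refine Finset.sum_congr rfl (fun j _ => ?_)
    rw [Units.val_pow_eq_pow_val]

end GenChar

variable {N : ℕ} (Γ : GenChar F k N)

/-- Fourier inversion of the key formula -/
lemma D_eq_sum (hN : N % 2 = 1) {α β : F} (hα : α * α = 1) (hβ : β * β = 1) {b : Fˣ}
    (hb : b ∈ Sq F) (h : ¬ (α = β ∧ b = 1)) :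
    S.D α β ((b : F)⁻¹ + α * β * b) = ∑ j ∈ Finset.range N,
      (((Γ.tc j).χ b : kˣ) : k) • (yy S (Γ.tc j) α * xx S (Γ.tc j) β) := by
  have h1 : ∀ j ∈ Finset.range N,
      (((Γ.tc j).χ b : kˣ) : k) • (yy S (Γ.tc j) α * xx S (Γ.tc j) β)
      = ((Γ.ch b ^ j : kˣ) : k) • (if α = β then S.e α else 0) +
        ∑ a ∈ Sq F, ((Γ.ch (b * a⁻¹) ^ j : kˣ) : k) • S.D α β ((a : F)⁻¹ + α * β * a) := by
    intro j _
    rw [yy_xx S _ α β hα hβ, smul_add, Finset.smul_sum]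
    congr 1
    refine Finset.sum_congr rfl (fun a _ => ?_)
    rw [smul_smul, GenChar.tc_apply, GenChar.tc_apply, ← Units.val_mul, map_mul, map_inv, mul_pow,
      inv_pow]
  rw [Finset.sum_congr rfl h1, Finset.sum_add_distrib, ← Finset.sum_smul, Finset.sum_comm,
    Γ.sum_ch S.hsq hN hb]
  have h2 : ∀ a ∈ Sq F, ∑ j ∈ Finset.range N, ((Γ.ch (b * a⁻¹) ^ j : kˣ) : k) •
      S.D α β ((a : F)⁻¹ + α * β * a) = if a = b then S.D α β ((a : F)⁻¹ + α * β * a) else 0 := by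
    intro a ha
    rw [← Finset.sum_smul, Γ.sum_ch S.hsq hN (mul_mem_Sq hb (inv_mem_Sq ha))]
    by_cases hab : a = b
    · subst hab; simp
    · rw [if_neg hab, if_neg, zero_smul]
      rw [mul_inv_eq_one]; exact fun h' => hab h'.symm
  rw [Finset.sum_congr rfl h2, Finset.sum_ite_eq' (Sq F) b, if_pos hb]
  by_cases hab : α = β
  · have hb1 : b ≠ 1 := fun h' => h ⟨hab, h'⟩
    rw [if_neg hb1, zero_smul, zero_add]
  · rw [if_neg hab, smul_zero, zero_add]

/-- the representatives of the pairs of nontrivial characters -/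
def lam (r : ℕ) (i : Fin r) : TChar F k := Γ.tc ((i : ℕ) + 1)

section reps
variable {r : ℕ} (hr : N = 2 * r + 1)
include hr

lemma lam_ne_one (i : Fin r) : lam Γ r i ≠ TChar.one := by
  rw [← Γ.tc_zero, lam, Ne, Γ.tc_eq_iff]
  intro h
  have h1 : (i : ℕ) + 1 < N := by have := i.2; omega
  have := Nat.ModEq.eq_of_lt_of_lt h h1 (by omega)
  omega

lemma lam_inj {i j : Fin r} (h : lam Γ r i = lam Γ r j) : i = j := by
  rw [lam, lam, Γ.tc_eq_iff] at h
  have h1 : (i : ℕ) + 1 < N := by have := i.2; omega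
  have h2 : (j : ℕ) + 1 < N := by have := j.2; omega
  have := Nat.ModEq.eq_of_lt_of_lt h h1 h2
  apply Fin.ext; omega

lemma lam_ne_inv (i j : Fin r) : lam Γ r i ≠ (lam Γ r j).inv := by
  have h1 := i.2
  have h2 := j.2
  rw [lam, lam, Γ.tc_inv (i := (j : ℕ) + 1) (j := N - ((j : ℕ) + 1)) (by omega), Ne, Γ.tc_eq_iff]
  intro h
  have := Nat.ModEq.eq_of_lt_of_lt h (by omega) (by omega)
  omega

lemma tc_cases {j : ℕ} (hj : j ∈ Finset.range N) (hj0 : j ≠ 0) :
    ∃ i : Fin r, Γ.tc j = lam Γ r i ∨ Γ.tc j = (lam Γ r i).inv := by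
  rw [Finset.mem_range] at hj
  by_cases h : j ≤ r
  · exact ⟨⟨j - 1, by omega⟩, Or.inl (by rw [lam]; congr 1; simp; omega)⟩
  · refine ⟨⟨N - j - 1, by omega⟩, Or.inr ?_⟩
    rw [lam, Γ.tc_inv (j := j)]
    simp; omega

end reps

/-- the element `s_α` -/
noncomputable def ss (r : ℕ) (α : F) : MonoidAlgebra k G :=
  ∑ i : Fin r, yy S (lam Γ r i) α * xx S (lam Γ r i) α

section reps2
variable {r : ℕ} (hr : N = 2 * r + 1)
include hr

lemma yx_yx (i j : Fin r) (α : F) :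
    (yy S (lam Γ r i) α * xx S (lam Γ r i) α) * (yy S (lam Γ r j) α * xx S (lam Γ r j) α)
      = if i = j then yy S (lam Γ r i) α * xx S (lam Γ r i) α else 0 := by
  have h1 : (yy S (lam Γ r i) α * xx S (lam Γ r i) α) * (yy S (lam Γ r j) α * xx S (lam Γ r j) α)
      = yy S (lam Γ r i) α * (xx S (lam Γ r i) α * yy S (lam Γ r j) α) * xx S (lam Γ r j) α := by
    simp only [mul_assoc]
  rw [h1]
  by_cases h : i = j
  · subst h
    rw [if_pos rfl, xx_yy_self S (lam_ne_one Γ hr i), mul_assoc, B_xx]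
  · rw [if_neg h, xx_yy_ne S (fun h' => h (lam_inj Γ hr h')) (lam_ne_inv Γ hr j i), mul_zero,
      zero_mul]

lemma ss_idem (α : F) : ss S Γ r α * ss S Γ r α = ss S Γ r α := by
  unfold ss
  rw [Finset.sum_mul]
  refine Finset.sum_congr rfl (fun i _ => ?_)
  rw [Finset.mul_sum, Finset.sum_congr rfl (fun j _ => yx_yx S Γ hr i j α)]
  simp

omit hr in
lemma e_ss (α : F) : S.e α * ss S Γ r α = ss S Γ r α := by
  unfold ss
  rw [Finset.mul_sum]
  refine Finset.sum_congr rfl (fun i _ => ?_)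
  rw [← mul_assoc, e_yy]

omit hr in
lemma ss_e (α : F) : ss S Γ r α * S.e α = ss S Γ r α := by
  unfold ss
  rw [Finset.sum_mul]
  refine Finset.sum_congr rfl (fun i _ => ?_)
  rw [mul_assoc, xx_e]

lemma ss_yy_lam (α : F) (i : Fin r) : ss S Γ r α * yy S (lam Γ r i) α = yy S (lam Γ r i) α := by
  unfold ss
  rw [Finset.sum_mul, Finset.sum_eq_single i]
  · rw [mul_assoc, xx_yy_self S (lam_ne_one Γ hr i), yy_B]
  · intro j _ hji
    rw [mul_assoc, xx_yy_ne S (fun h' => hji (lam_inj Γ hr h')) (lam_ne_inv Γ hr i j), mul_zero]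
  · intro h; exact absurd (Finset.mem_univ _) h

lemma xx_lam_ss (α : F) (i : Fin r) : xx S (lam Γ r i) α * ss S Γ r α = xx S (lam Γ r i) α := by
  unfold ss
  rw [Finset.mul_sum, Finset.sum_eq_single i]
  · rw [← mul_assoc, xx_yy_self S (lam_ne_one Γ hr i), B_xx]
  · intro j _ hji
    rw [← mul_assoc, xx_yy_ne S (fun h' => hji (lam_inj Γ hr h').symm) (lam_ne_inv Γ hr j i),
      zero_mul]
  · intro h; exact absurd (Finset.mem_univ _) h

lemma one_ne_inv_lam (i : Fin r) : (TChar.one : TChar F k) ≠ (lam Γ r i).inv := by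
  intro h
  apply lam_ne_one Γ hr i
  rw [← TChar.inv_inv (lam Γ r i), ← h, TChar.one_inv]

lemma ss_yy_one (α : F) : ss S Γ r α * yy S TChar.one α = 0 := by
  unfold ss
  rw [Finset.sum_mul]
  refine Finset.sum_eq_zero (fun j _ => ?_)
  rw [mul_assoc, xx_yy_ne S (lam_ne_one Γ hr j) (one_ne_inv_lam Γ hr j), mul_zero]

lemma xx_one_ss (α : F) : xx S TChar.one α * ss S Γ r α = 0 := by
  unfold ss
  rw [Finset.mul_sum]
  refine Finset.sum_eq_zero (fun j _ => ?_)
  rw [← mul_assoc, xx_yy_ne S (Ne.symm (lam_ne_one Γ hr j)) (by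
    rw [TChar.one_inv]; exact lam_ne_one Γ hr j), zero_mul]

lemma ss_yx (hN : N % 2 = 1) {α β : F} (hα : α * α = 1) (hβ : β * β = 1) {j : ℕ}
    (hj : j ∈ Finset.range N) (hj0 : j ≠ 0) :
    ss S Γ r α * (yy S (Γ.tc j) α * xx S (Γ.tc j) β) = yy S (Γ.tc j) α * xx S (Γ.tc j) β := by
  obtain ⟨i, h | h⟩ := tc_cases Γ hr hj hj0
  · rw [h, ← mul_assoc, ss_yy_lam S Γ hr]
  · rw [h, yy_xx_inv S _ α β hα hβ, ← mul_assoc, ss_yy_lam S Γ hr]

lemma ss_yx_zero (α β : F) :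
    ss S Γ r α * (yy S (Γ.tc 0) α * xx S (Γ.tc 0) β) = 0 := by
  rw [Γ.tc_zero, ← mul_assoc, ss_yy_one S Γ hr, zero_mul]

lemma ss_sum (hN : N % 2 = 1) {α β : F} (hα : α * α = 1) (hβ : β * β = 1) (c : ℕ → k) :
    ∑ j ∈ Finset.range N, c j • (yy S (Γ.tc j) α * xx S (Γ.tc j) β)
      = ss S Γ r α * (∑ j ∈ Finset.range N, c j • (yy S (Γ.tc j) α * xx S (Γ.tc j) β))
        + c 0 • (yy S TChar.one α * xx S TChar.one β) := by
  have h0 : 0 ∈ Finset.range N := by rw [Finset.mem_range]; omega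
  rw [← Finset.add_sum_erase _ _ h0, mul_add, mul_smul_comm, ss_yx_zero S Γ hr, smul_zero,
    zero_add, Γ.tc_zero, add_comm, Finset.mul_sum]
  congr 1
  refine Finset.sum_congr rfl (fun j hj => ?_)
  rw [Finset.mem_erase] at hj
  rw [mul_smul_comm, ss_yx S Γ hr hN hα hβ hj.2 hj.1]

end reps2

include S in
/-- the parametrisation of split traces -/
lemma split_param {ε τ r : F} (hr : r ≠ 0) (h : r ^ 2 = τ ^ 2 - 4 * ε) (hε : ε * ε = 1) :
    ∃ b : Fˣ, b ∈ Sq F ∧ (τ = (b : F)⁻¹ + ε * b ∨ τ = -((b : F)⁻¹ + ε * b)) ∧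
      (ε = 1 → b ≠ 1) := by
  have h2 := S.two_ne
  have hε0 : ε ≠ 0 := by rintro rfl; simp at hε
  -- a = (τ + r) / 2, a * ((τ - r)/2) = ε
  have ha0 : (τ + r) / 2 ≠ 0 := by
    intro h3
    have h4 : τ + r = 0 := by
      have := (div_eq_zero_iff.1 h3).resolve_right h2
      exact this
    have h5 : (4 : F) * ε = 0 := by
      have : r = -τ := by linear_combination h4
      rw [this] at h
      linear_combination h
    have h6 : (4 : F) = 2 * 2 := by norm_num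
    rw [h6] at h5
    exact (mul_ne_zero (mul_ne_zero h2 h2) hε0) h5
  set a : Fˣ := Units.mk0 ((τ + r) / 2) ha0 with ha
  have hav : (a : F) = (τ + r) / 2 := rfl
  have hinv : (a : F)⁻¹ = ε * ((τ - r) / 2) := by
    rw [hav]
    symm
    apply eq_inv_of_mul_eq_one_left
    field_simp
    linear_combination (-ε) * h + 4 * hε
  have hτ : τ = ε * (a : F)⁻¹ + a := by
    rw [hinv, hav]
    field_simp
    linear_combination (-(τ - r)) * hε
  -- b = ε a
  have hb : τ = ((a : F))⁻¹ * ε + a := by rw [hτ]; ring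
  have hεε : ε = 1 ∨ ε = -1 := by
    have : (ε - 1) * (ε + 1) = 0 := by linear_combination hε
    rcases mul_eq_zero.1 this with h' | h'
    · left; linear_combination h'
    · right; linear_combination h'
  -- τ = ± (a⁻¹ + ε a)
  have key : τ = (a : F)⁻¹ + ε * a ∨ τ = -((a : F)⁻¹ + ε * a) := by
    rcases hεε with rfl | rfl
    · left; rw [hτ]; ring
    · right; rw [hτ]; ring
  have hne : ε = 1 → a ≠ 1 ∧ a ≠ -1 := by
    rintro rfl
    have h7 : r = (a : F) - (a : F)⁻¹ := by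
      rw [hinv, hav]; field_simp; ring
    constructor
    · intro h8
      apply hr
      rw [h7, h8]; simp
    · intro h8
      apply hr
      rw [h7, h8]; simp
  rcases mem_or_neg_mem S a with h9 | h9
  · exact ⟨a, h9, key, fun h' => (hne h').1⟩
  · refine ⟨-a, h9, ?_, fun h' h10 => (hne h').2 (by rw [← h10]; simp)⟩
    rw [Units.val_neg, inv_neg]
    rcases key with h' | h'
    · right; linear_combination h'
    · left; linear_combination h'

/-- (H3) -/
lemma H3 {r : ℕ} (hr : N = 2 * r + 1) (hN : N % 2 = 1) {α : F} (hα : α * α = 1) {τ ρ : F}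
    (hρ : ρ ≠ 0) (h : ρ ^ 2 = τ ^ 2 - 4) :
    ∃ c : k, S.D α α τ - ss S Γ r α * S.D α α τ = c • S.z α := by
  obtain ⟨b, hb, hτ, hb1⟩ := split_param S (ε := 1) (τ := τ) hρ (by rw [h]; ring) (by ring)
  have hD : S.D α α τ = S.D α α ((b : F)⁻¹ + α * α * b) := by
    rw [hα]
    rcases hτ with h' | h'
    · rw [h']
    · rw [h', S.D_neg]
  have h1 := D_eq_sum S Γ hN hα hα hb (fun h' => hb1 rfl h'.2)
  rw [hD, h1]
  have h2 := ss_sum S Γ hr hN hα hα (fun j => (((Γ.tc j).χ b : kˣ) : k))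
  refine ⟨(((Γ.tc 0).χ b : kˣ) : k), ?_⟩
  rw [yy_xx_one S α hα] at h2
  nth_rewrite 1 [h2]
  abel

/-- (H4) -/
lemma H4 {r : ℕ} (hr : N = 2 * r + 1) (hN : N % 2 = 1) {α β : F} (hα : α * α = 1)
    (hβ : β = -α) {τ ρ : F} (hρ : ρ ≠ 0) (h : ρ ^ 2 = τ ^ 2 + 4) :
    S.D α β τ = ss S Γ r α * S.D α β τ := by
  have hββ : β * β = 1 := by rw [hβ]; linear_combination hα
  have hab : α ≠ β := by
    intro h'
    rw [hβ] at h'
    have : 2 * α = 0 := by linear_combination h'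
    exact (mul_ne_zero S.two_ne (alpha_ne hα)) this
  obtain ⟨b, hb, hτ, hb1⟩ := split_param S (ε := -1) (τ := τ) hρ (by rw [h]; ring) (by ring)
  have hαβ : α * β = -1 := by rw [hβ]; linear_combination -hα
  have hD : S.D α β τ = S.D α β ((b : F)⁻¹ + α * β * b) := by
    rw [hαβ]
    rcases hτ with h' | h'
    · rw [h']
    · rw [h', S.D_neg]
  have h1 := D_eq_sum S Γ hN hα hββ hb (fun h' => hab h'.1)
  rw [hD, h1]
  have h2 := ss_sum S Γ hr hN hα hββ (fun j => (((Γ.tc j).χ b : kˣ) : k))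
  rw [yy_xx_one_ne S hα hββ hab, smul_zero, add_zero] at h2
  exact h2

end Borel
end Pool.Cartan73
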