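import Pool.Agent.Cartan73.Hecke

/-! # Corners `f k[G] f` of Hecke idempotents with cyclic inertia (helper73, MP_bea28b_al) -/

namespace Pool.Cartan73

open MonoidAlgebra

namespace LinPair

variable {k G Λ : Type*} [Field k] [Group G] [Finite G] [Group Λ]

/-- The corner of `P.f` is graded by the cyclic group generated by `π g`. -/
structure CornerData (P : LinPair k G) (π : G →* Λ) (g : G) (m : ℕ) : Prop where
  hm : 0 < m
  sub : ∀ a : P.A, π a = 1
  order : orderOf (π g) = m
  comp : ∀ (h : G) (j : ℕ), π h = π g ^ j →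
    ∃ c : k, P.f * single h (1 : k) * P.f = c • (P.f * single (g ^ j) (1 : k) * P.f)
  vanish : ∀ h : G, (∀ j : ℕ, π h ≠ π g ^ j) → P.f * single h (1 : k) * P.f = 0
  compat : ∀ (j : ℕ) (a b : P.A), (a : G) * g ^ j = g ^ j * b → P.lam a = P.lam b

omit [Finite G] in
/-- trace property -/
lemma coeff_one_mul_comm (x y : MonoidAlgebra k G) : (x * y).coeff 1 = (y * x).coeff 1 := by
  induction x using MonoidAlgebra.induction_linear with
  | zero => simp
  | add a b ha hb => simp [add_mul, mul_add, ha, hb]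
  | single g r =>
    induction y using MonoidAlgebra.induction_linear with
    | zero => simp
    | add a b ha hb => simp [add_mul, mul_add, ha, hb]
    | single h s =>
      classical
      rw [single_mul_single, single_mul_single, coeff_single, coeff_single, Finsupp.single_apply,
        Finsupp.single_apply, mul_comm r s]
      have : (g * h = 1) ↔ (h * g = 1) := by
        constructor <;> intro h1
        · exact (mul_eq_one_iff_eq_inv.mp h1) ▸ by simp
        · exact (mul_eq_one_iff_eq_inv.mp h1) ▸ by simp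
      by_cases h1 : g * h = 1
      · rw [if_pos h1, if_pos (this.mp h1)]
      · rw [if_neg h1, if_neg (fun h2 => h1 (this.mpr h2))]

attribute [local instance 10000] Fintype.ofFinite

section
variable {P : LinPair k G} {π : G →* Λ} {g : G} {m : ℕ}

/-- expand the middle idempotent -/
lemma f_mul_single_mul_f_mul (P : LinPair k G) (x y : G) :
    P.f * single x (1 : k) * P.f * single y (1 : k) * P.f
      = ∑ a : P.A, P.lam a⁻¹ • (P.f * single (x * a * y) (1 : k) * P.f) := by
  conv_lhs => rw [mul_assoc (P.f * single x (1 : k)) P.f, mul_assoc (P.f * single x (1 : k))]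
  have h0 : P.f * single y (1 : k) * P.f
      = ∑ a : P.A, P.lam a⁻¹ • (single (a * y) (1 : k) * P.f) := by
    conv_lhs => rw [mul_assoc]
    have : P.f * (single y (1 : k) * P.f)
        = (∑ a : P.A, single (a : G) (P.lam a⁻¹)) * (single y (1 : k) * P.f) := rfl
    rw [this, Finset.sum_mul]
    refine Finset.sum_congr rfl (fun a _ => ?_)
    rw [← mul_assoc, single_mul_single, mul_one, ← smul_mul_assoc, smul_single, smul_eq_mul,
      mul_one]
  rw [h0, Finset.mul_sum]
  refine Finset.sum_congr rfl (fun a _ => ?_)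
  rw [mul_smul_comm, mul_assoc, ← mul_assoc (single x (1 : k)), single_mul_single, one_mul,
    mul_assoc x, ← mul_assoc]

lemma CornerData.mul_pow (D : CornerData P π g m) (j l : ℕ) :
    ∃ c : k, P.f * single (g ^ j) (1 : k) * P.f * single (g ^ l) (1 : k) * P.f
      = c • (P.f * single (g ^ (j + l)) (1 : k) * P.f) := by
  rw [f_mul_single_mul_f_mul]
  have : ∀ a : P.A, ∃ c : k, P.f * single (g ^ j * a * g ^ l) (1 : k) * P.f
      = c • (P.f * single (g ^ (j + l)) (1 : k) * P.f) := by
    intro a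
    apply D.comp
    rw [map_mul, map_mul, D.sub a, mul_one, map_pow, map_pow, pow_add]
  choose c hc using this
  refine ⟨∑ a : P.A, P.lam a⁻¹ * c a, ?_⟩
  rw [Finset.sum_smul]
  refine Finset.sum_congr rfl (fun a _ => ?_)
  rw [hc a, smul_smul]

variable [CharP k 2]

lemma CornerData.mul_inv (D : CornerData P π g m) (j : ℕ) :
    P.f * single (g ^ j) (1 : k) * P.f * single ((g ^ j)⁻¹) (1 : k) * P.f = P.f := by
  have h1 : ∃ c : k, P.f * single (g ^ j) (1 : k) * P.f * single ((g ^ j)⁻¹) (1 : k) * P.f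
      = c • P.f := by
    rw [f_mul_single_mul_f_mul]
    have : ∀ a : P.A, ∃ c : k, P.f * single (g ^ j * a * (g ^ j)⁻¹) (1 : k) * P.f
        = c • P.f := by
      intro a
      obtain ⟨c, hc⟩ := D.comp (g ^ j * a * (g ^ j)⁻¹) 0 (by
        rw [map_mul, map_mul, D.sub a, mul_one, map_inv, mul_inv_cancel, pow_zero])
      refine ⟨c, ?_⟩
      rw [hc, pow_zero, ← one_def, mul_one, P.f_mul_f]
    choose c hc using this
    refine ⟨∑ a : P.A, P.lam a⁻¹ * c a, ?_⟩
    rw [Finset.sum_smul]
    refine Finset.sum_congr rfl (fun a _ => ?_)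
    rw [hc a, smul_smul]
  obtain ⟨c, hc⟩ := h1
  have h2 : (P.f * single (g ^ j) (1 : k) * P.f * single ((g ^ j)⁻¹) (1 : k) * P.f).coeff 1 = c := by
    rw [hc, coeff_smul_apply, P.f_coeff_one]; simp
  have h3 : (P.f * single (g ^ j) (1 : k) * P.f * single ((g ^ j)⁻¹) (1 : k) * P.f).coeff 1
      = 1 := by
    have h4 : P.f * (P.f * single (g ^ j) (1 : k) * P.f) = P.f * single (g ^ j) (1 : k) * P.f := by
      rw [← mul_assoc, ← mul_assoc, P.f_mul_f]
    rw [coeff_one_mul_comm, ← mul_assoc, h4, coeff_mul_single_apply, inv_inv, one_mul, mul_one]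
    exact coeff_f_mul_single_mul_f P P _ (fun a b hab => D.compat j a b hab)
  rw [hc, ← h2, h3, one_smul]

lemma CornerData.inv_mul (D : CornerData P π g m) (j : ℕ) :
    P.f * single ((g ^ j)⁻¹) (1 : k) * P.f * single (g ^ j) (1 : k) * P.f = P.f := by
  have h1 : ∃ c : k, P.f * single ((g ^ j)⁻¹) (1 : k) * P.f * single (g ^ j) (1 : k) * P.f
      = c • P.f := by
    rw [f_mul_single_mul_f_mul]
    have : ∀ a : P.A, ∃ c : k, P.f * single ((g ^ j)⁻¹ * a * (g ^ j)) (1 : k) * P.f
        = c • P.f := by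
      intro a
      obtain ⟨c, hc⟩ := D.comp ((g ^ j)⁻¹ * a * g ^ j) 0 (by
        rw [map_mul, map_mul, D.sub a, mul_one, map_inv, inv_mul_cancel, pow_zero])
      refine ⟨c, ?_⟩
      rw [hc, pow_zero, ← one_def, mul_one, P.f_mul_f]
    choose c hc using this
    refine ⟨∑ a : P.A, P.lam a⁻¹ * c a, ?_⟩
    rw [Finset.sum_smul]
    refine Finset.sum_congr rfl (fun a _ => ?_)
    rw [hc a, smul_smul]
  obtain ⟨c, hc⟩ := h1
  have h2 : (P.f * single ((g ^ j)⁻¹) (1 : k) * P.f * single (g ^ j) (1 : k) * P.f).coeff 1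
      = c := by
    rw [hc, coeff_smul_apply, P.f_coeff_one]; simp
  have h3 : (P.f * single ((g ^ j)⁻¹) (1 : k) * P.f * single (g ^ j) (1 : k) * P.f).coeff 1
      = 1 := by
    rw [mul_assoc (P.f * single ((g ^ j)⁻¹) (1 : k)), mul_assoc (P.f * single ((g ^ j)⁻¹) (1 : k)),
      coeff_one_mul_comm, ← mul_assoc (P.f * single (g ^ j) (1 : k) * P.f),
      mul_assoc (P.f * single (g ^ j) (1 : k)), P.f_mul_f, coeff_mul_single_apply, inv_inv, one_mul,
      mul_one]
    exact coeff_f_mul_single_mul_f P P _ (fun a b hab => D.compat j a b hab)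
  rw [hc, ← h2, h3, one_smul]

/-- the graded pieces of the corner -/
noncomputable def U (P : LinPair k G) (g : G) (j : ℕ) : MonoidAlgebra k G :=
  P.f * single (g ^ j) (1 : k) * P.f

omit [CharP k 2] in
lemma U_def (P : LinPair k G) (g : G) (j : ℕ) :
    P.U g j = P.f * single (g ^ j) (1 : k) * P.f := rfl

lemma U_zero (P : LinPair k G) (g : G) : P.U g 0 = P.f := by
  rw [U_def, pow_zero, ← one_def, mul_one, P.f_mul_f]

lemma f_mul_U (P : LinPair k G) (g : G) (j : ℕ) : P.f * P.U g j = P.U g j := by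
  rw [U_def, ← mul_assoc, ← mul_assoc, P.f_mul_f]

lemma U_mul_f (P : LinPair k G) (g : G) (j : ℕ) : P.U g j * P.f = P.U g j := by
  rw [U_def, mul_assoc _ P.f P.f, P.f_mul_f]

lemma CornerData.U_coeff (D : CornerData P π g m) (j : ℕ) : (P.U g j).coeff (g ^ j) = 1 :=
  coeff_f_mul_single_mul_f P P _ (fun a b hab => D.compat j a b hab)

lemma CornerData.U_ne_zero (D : CornerData P π g m) (j : ℕ) : P.U g j ≠ 0 := by
  intro h
  have := D.U_coeff j
  rw [h] at this; simp at this

lemma CornerData.U_mul_U (D : CornerData P π g m) (j l : ℕ) :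
    ∃ c : k, c ≠ 0 ∧ P.U g j * P.U g l = c • P.U g (j + l) := by
  obtain ⟨c, hc⟩ := D.mul_pow j l
  have h1 : P.U g j * P.U g l = c • P.U g (j + l) := by
    rw [U_def P g (j + l), ← hc, U_def, U_def]
    rw [← mul_assoc, ← mul_assoc, mul_assoc _ P.f P.f, P.f_mul_f]
  refine ⟨c, ?_, h1⟩
  rintro rfl
  rw [zero_smul] at h1
  have h2 : P.f * single ((g ^ j)⁻¹) (1 : k) * (P.U g j * P.U g l) = P.U g l := by
    rw [← mul_assoc, U_def P g j, ← mul_assoc, ← mul_assoc, D.inv_mul j, P.f_mul_U]
  rw [h1, mul_zero] at h2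
  exact D.U_ne_zero l h2.symm

/-- the generator of the corner -/
noncomputable def u (P : LinPair k G) (g : G) : MonoidAlgebra k G := P.U g 1

lemma f_mul_u (P : LinPair k G) (g : G) : P.f * P.u g = P.u g := P.f_mul_U g 1

lemma u_mul_f (P : LinPair k G) (g : G) : P.u g * P.f = P.u g := P.U_mul_f g 1

lemma CornerData.f_mul_u_pow (D : CornerData P π g m) (j : ℕ) :
    ∃ c : k, c ≠ 0 ∧ P.f * P.u g ^ j = c • P.U g j := by
  induction j with
  | zero => exact ⟨1, one_ne_zero, by rw [pow_zero, mul_one, one_smul, U_zero]⟩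
  | succ j ih =>
    obtain ⟨c, hc, h⟩ := ih
    obtain ⟨c', hc', h'⟩ := D.U_mul_U j 1
    refine ⟨c * c', mul_ne_zero hc hc', ?_⟩
    rw [pow_succ, ← mul_assoc, h, smul_mul_assoc, u, h', smul_smul]

lemma CornerData.U_eq (D : CornerData P π g m) (j : ℕ) :
    ∃ c : k, P.U g j = c • (P.f * P.u g ^ j) := by
  obtain ⟨c, hc, h⟩ := D.f_mul_u_pow j
  exact ⟨c⁻¹, by rw [h, smul_smul, inv_mul_cancel₀ hc, one_smul]⟩

lemma CornerData.u_pow_m (D : CornerData P π g m) :
    ∃ c : k, c ≠ 0 ∧ P.f * P.u g ^ m = c • P.f := by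
  obtain ⟨c, hc, h⟩ := D.f_mul_u_pow m
  obtain ⟨d, hd⟩ := D.comp (g ^ m) 0 (by
    rw [map_pow, pow_zero, ← D.order, pow_orderOf_eq_one])
  have h1 : P.U g m = d • P.f := by
    rw [U_def, hd, pow_zero, ← one_def, mul_one, P.f_mul_f]
  refine ⟨c * d, mul_ne_zero hc ?_, by rw [h, h1, smul_smul]⟩
  rintro rfl
  rw [zero_smul] at h1
  exact D.U_ne_zero m h1

/-- every element of the corner is a combination of powers of `u` -/
lemma CornerData.corner_single (D : CornerData P π g m) (h : G) :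
    ∃ a : Fin m → k, P.f * single h (1 : k) * P.f = ∑ j, a j • (P.f * P.u g ^ (j : ℕ)) := by
  classical
  by_cases hj : ∃ j : ℕ, π h = π g ^ j
  · obtain ⟨j, hj⟩ := hj
    have hj' : π h = π g ^ (j % m) := by
      rw [hj, ← D.order, pow_mod_orderOf]
    obtain ⟨c, hc⟩ := D.comp h (j % m) hj'
    obtain ⟨d, hd⟩ := D.U_eq (j % m)
    refine ⟨Pi.single (⟨j % m, Nat.mod_lt _ D.hm⟩ : Fin m) (c * d), ?_⟩
    rw [Finset.sum_eq_single (⟨j % m, Nat.mod_lt _ D.hm⟩ : Fin m)]
    · rw [Pi.single_eq_same, hc, ← U_def, hd, smul_smul]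
    · intro b _ hb
      rw [Pi.single_eq_of_ne hb, zero_smul]
    · intro h1; exact absurd (Finset.mem_univ _) h1
  · push Not at hj
    exact ⟨0, by rw [D.vanish h hj]; simp⟩

lemma CornerData.corner (D : CornerData P π g m) (x : MonoidAlgebra k G) :
    ∃ a : Fin m → k, P.f * x * P.f = ∑ j, a j • (P.f * P.u g ^ (j : ℕ)) := by
  induction x using MonoidAlgebra.induction_linear with
  | zero => exact ⟨0, by simp⟩
  | add x y hx hy =>
    obtain ⟨a, ha⟩ := hx
    obtain ⟨b, hb⟩ := hy
    refine ⟨a + b, ?_⟩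
    rw [mul_add, add_mul, ha, hb, ← Finset.sum_add_distrib]
    simp [add_smul]
  | single h r =>
    obtain ⟨a, ha⟩ := D.corner_single h
    refine ⟨r • a, ?_⟩
    have : single h r = r • single h (1 : k) := by rw [smul_single]; simp
    rw [this, mul_smul_comm, smul_mul_assoc, ha, Finset.smul_sum]
    simp [smul_smul]

omit [CharP k 2] in
/-- support of `U g j` -/
lemma CornerData.U_coeff_ne (D : CornerData P π g m) (j : ℕ) (h : G) (hne : π h ≠ π g ^ j) :
    (P.U g j).coeff h = 0 := by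
  classical
  have h1 : P.U g j = ∑ a : P.A, ∑ b : P.A,
      single ((a : G) * g ^ j * b) (P.lam a⁻¹ * P.lam b⁻¹) := by
    rw [U_def]
    unfold f
    rw [Finset.sum_mul, Finset.sum_mul]
    refine Finset.sum_congr rfl (fun a _ => ?_)
    rw [Finset.mul_sum]
    refine Finset.sum_congr rfl (fun b _ => ?_)
    simp [single_mul_single]
  rw [h1, coeff_sum, Finsupp.finsetSum_apply]
  refine Finset.sum_eq_zero (fun a _ => ?_)
  rw [coeff_sum, Finsupp.finsetSum_apply]
  refine Finset.sum_eq_zero (fun b _ => ?_)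
  rw [coeff_single, Finsupp.single_apply, if_neg]
  rintro rfl
  apply hne
  rw [map_mul, map_mul, D.sub a, D.sub b, one_mul, mul_one, map_pow]

lemma CornerData.linInd (D : CornerData P π g m) :
    LinearIndependent k (fun j : Fin m => P.f * P.u g ^ (j : ℕ)) := by
  have h1 : LinearIndependent k (fun j : Fin m => P.U g (j : ℕ)) := by
    rw [Fintype.linearIndependent_iff]
    intro a ha i
    have h2 := congrArg (fun x => x.coeff (g ^ (i : ℕ))) ha
    simp only [coeff_sum, Finsupp.finsetSum_apply, coeff_smul_apply] at h2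
    rw [Finset.sum_eq_single i] at h2
    · rw [D.U_coeff] at h2; simpa using h2
    · intro b _ hb
      rw [D.U_coeff_ne, smul_zero]
      rw [map_pow]
      intro h3
      apply hb
      have h4 := pow_injOn_Iio_orderOf (x := π g) (by
        rw [Set.mem_Iio, D.order]; exact i.2) (by rw [Set.mem_Iio, D.order]; exact b.2) h3
      exact (Fin.ext h4).symm
    · intro h3; exact absurd (Finset.mem_univ _) h3
  have h2 : ∀ j : Fin m, ∃ c : kˣ, P.f * P.u g ^ (j : ℕ) = c • P.U g (j : ℕ) := by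
    intro j
    obtain ⟨c, hc, h⟩ := D.f_mul_u_pow (j : ℕ)
    exact ⟨Units.mk0 c hc, by rw [h]; rfl⟩
  choose c hc using h2
  have h3 := h1.units_smul c
  convert h3 using 1
  funext j
  rw [hc j]; rfl

end

end LinPair

end Pool.Cartan73
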