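import Mathlib

/-! # Cartan matrices of finite dimensional algebras: definitions (helper73, MP_bea28b_al) -/

namespace Pool.Cartan73

universe u v

/-- `π : P → S` is a projective cover of `S`: the module `P` is projective, `π` is surjective, and
the kernel of `π` is superfluous. -/
structure IsProjectiveCover {A : Type u} [Ring A] {P S : Type u} [AddCommGroup P] [Module A P]
    [AddCommGroup S] [Module A S] (π : P →ₗ[A] S) : Prop where
  projective : Module.Projective A P
  surjective : Function.Surjective π
  superfluous : ∀ N : Submodule A P, N ⊔ LinearMap.ker π = ⊤ → N = ⊤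

/-- The factor `s (t + 1) / s t` of a composition series `s` of submodules of `M`. -/
abbrev factor {A : Type u} [Ring A] {M : Type u} [AddCommGroup M] [Module A M]
    (s : CompositionSeries (Submodule A M)) (t : Fin s.length) : Type u :=
  ↥(s t.succ) ⧸ (s t.castSucc).submoduleOf (s t.succ)

/-- `n` is the multiplicity of `S` as a composition factor of `M`: the module `M` has a composition
series from `0` to `M`, and in every composition series from `0` to `M` exactly `n` factors are
isomorphic to `S`. -/
def IsCompMult (A : Type u) [Ring A] (M S : Type u) [AddCommGroup M] [Module A M]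
    [AddCommGroup S] [Module A S] (n : ℕ) : Prop :=
  (∃ s : CompositionSeries (Submodule A M), s.head = ⊥ ∧ s.last = ⊤) ∧
  ∀ s : CompositionSeries (Submodule A M), s.head = ⊥ → s.last = ⊤ →
    Nat.card {t : Fin s.length // Nonempty (factor s t ≃ₗ[A] S)} = n

/-- `C` is a Cartan matrix of the ring `A`, with rows and columns indexed by `ι`: there are
representatives `S i` of the isomorphism classes of simple `A`-modules and projective covers
`P i → S i`, such that `C i j` is the multiplicity of `S j` as a composition factor of `P i`. -/
def IsCartanMatrix (A : Type u) [Ring A] {ι : Type v} (C : ι → ι → ℕ) : Prop :=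
  ∃ S P : ι → ModuleCat.{u} A,
    (∀ i, IsSimpleModule A (S i)) ∧
    (∀ i j, Nonempty (S i ≃ₗ[A] S j) → i = j) ∧
    (∀ M : ModuleCat.{u} A, IsSimpleModule A M → ∃ i, Nonempty (M ≃ₗ[A] S i)) ∧
    (∀ i, ∃ π : P i →ₗ[A] S i, IsProjectiveCover π) ∧
    ∀ i j, IsCompMult A (P i) (S j) (C i j)

/-- The finite groups `G` and `H` have the same Cartan matrix over the field `k`: there are Cartan
matrices of `k[G]` and `k[H]` which are equal after a simultaneous permutation of the rows and
columns. -/
def SameCartan (k : Type u) [Field k] (G H : Type) [Group G] [Group H] : Prop :=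
  ∃ (r s : ℕ) (CG : Fin r → Fin r → ℕ) (CH : Fin s → Fin s → ℕ),
    IsCartanMatrix (MonoidAlgebra k G) CG ∧ IsCartanMatrix (MonoidAlgebra k H) CH ∧
    ∃ σ : Fin r ≃ Fin s, ∀ i j, CG i j = CH (σ i) (σ j)

end Pool.Cartan73
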