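import Pool.Agent.Cartan73.Stab

/-! # The family of linear pairs of `H` (helper73, MP_bea28b_al) -/

namespace Pool.Cartan73

open Matrix MonoidAlgebra

/-- adapted bases -/
def pU : Fin 3 → V3 := ![![0,1,0], ![0,1,0], ![1,0,0]]
def qU : Fin 3 → V3 := ![![0,0,1], ![0,0,1], ![0,0,1]]
def xU : Fin 3 → V3 := ![![1,0,0], ![1,0,0], ![0,1,0]]
def yU : Fin 3 → V3 := ![![0,1,0], ![10,1,0], ![1,0,0]]
def wU : Fin 3 → V3 := ![![0,0,1], ![10,0,1], ![0,9,1]]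

lemma wU_vU : ∀ a, wU a ⬝ᵥ vU a = 0 := by decide +kernel
lemma wU_pU : ∀ a, wU a ⬝ᵥ pU a = 0 := by decide +kernel
lemma xU_vU : ∀ a, xU a ⬝ᵥ vU a = 1 := by decide +kernel
lemma xU_pU : ∀ a, xU a ⬝ᵥ pU a = 0 := by decide +kernel
lemma wU_ne : ∀ a, ∃ i, wU a i ≠ 0 := by decide +kernel

/-- expansion in the adapted basis -/
lemma expand (a : Fin 3) (u : V3) :
    u = (xU a ⬝ᵥ u) • vU a + (yU a ⬝ᵥ u) • pU a + (wU a ⬝ᵥ u) • qU a := by
  have h10 : (10 : ZMod 11) = -1 := by decide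
  have h9 : (9 : ZMod 11) = -2 := by decide
  fin_cases a <;> ext i <;> fin_cases i <;>
    simp [xU, yU, wU, vU, pU, qU, dotProduct, Fin.sum_univ_three, h10, h9] <;> ring

/-- the triple product of vectors in a plane vanishes -/
lemma plane_triple (w s u u' : V3) (hw : ∃ i, w i ≠ 0) (hs : w ⬝ᵥ s = 0) (hu : w ⬝ᵥ u = 0)
    (hu' : w ⬝ᵥ u' = 0) : s ⬝ᵥ (u ⨯₃ u') = 0 := by
  obtain ⟨i, hi⟩ := hw
  simp only [dotProduct, Fin.sum_univ_three] at hs hu hu'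
  have h : w i * (s ⬝ᵥ (u ⨯₃ u')) = 0 := by
    simp only [dotProduct, Fin.sum_univ_three, cross_apply]
    fin_cases i
    · simp only [Fin.zero_eta, cons_val_zero, cons_val_one, cons_val_two, Nat.succ_eq_add_one,
        Nat.reduceAdd, tail_cons, head_cons, cons_val]
      linear_combination (u 1 * u' 2 - u 2 * u' 1) * hs + (s 2 * u' 1 - s 1 * u' 2) * hu
        + (s 1 * u 2 - s 2 * u 1) * hu'
    · simp only [Fin.mk_one, cons_val_zero, cons_val_one, cons_val_two, Nat.succ_eq_add_one,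
        Nat.reduceAdd, tail_cons, head_cons, cons_val]
      linear_combination (u 2 * u' 0 - u 0 * u' 2) * hs + (s 0 * u' 2 - s 2 * u' 0) * hu
        + (s 2 * u 0 - s 0 * u 2) * hu'
    · simp only [Fin.reduceFinMk, cons_val_zero, cons_val_one, cons_val_two, Nat.succ_eq_add_one,
        Nat.reduceAdd, tail_cons, head_cons, cons_val]
      linear_combination (u 0 * u' 1 - u 1 * u' 0) * hs + (s 1 * u' 0 - s 0 * u' 1) * hu
        + (s 0 * u 1 - s 1 * u 0) * hu'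
  exact (mul_eq_zero.mp h).resolve_left hi

/-- index set -/
abbrev KK := Fin 5 × Option (ZMod 11)

/-- plane -/
def wF (κ : KK) (a : Fin 3) : V3 := match κ.2 with
  | none => 0
  | some _ => wU a
/-- character on `u` -/
def aF (κ : KK) (a : Fin 3) : V3 := match κ.2 with
  | none => tt κ.1 • vD a
  | some c => c • xU a
/-- character on `z` -/
def sF (κ : KK) (a : Fin 3) : V3 := match κ.2 with
  | none => 0
  | some _ => tt κ.1 • vU a

lemma hF (κ : KK) (a : Fin 3) (u u' : V3) (hu : wF κ a ⬝ᵥ u = 0) (hu' : wF κ a ⬝ᵥ u' = 0) :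
    sF κ a ⬝ᵥ (u ⨯₃ u') = 0 := by
  obtain ⟨t, c⟩ := κ
  cases c with
  | none => simp [sF]
  | some c =>
    simp only [wF, sF] at *
    rw [smul_dotProduct, plane_triple (wU a) (vU a) u u' (wU_ne a) (wU_vU a) hu hu', smul_zero]

variable {k : Type*} [Field k]

/-- the family of pairs -/
def PF (ψ : AddChar (ZMod 11) k) (κ : KK) (a : Fin 3) : LinPair k HH :=
  mkPair ψ (wF κ a) (aF κ a) (sF κ a) (hF κ a)

/-- generators -/
def gF (_ : KK) (a : Fin 3) : HH := SemidirectProduct.inr (gL a)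

lemma L1 (l : LL) (α α' : V3) (h : ∀ u, α ⬝ᵥ (mt l *ᵥ u) = α' ⬝ᵥ u) :
    dual (mt l) *ᵥ α' = α := by
  apply dotProduct_eq
  intro x
  have hx : x = mt l *ᵥ (mt l⁻¹ *ᵥ x) := by
    rw [mulVec_mulVec, ← mt_mul, mul_inv_cancel, mt_one, one_mulVec]
  rw [hx, h, dotProduct_comm, dot_dual, det_mt, one_mul, dotProduct_comm]

lemma L1' (l : LL) (α α' : V3) (h : dual (mt l) *ᵥ α' = α) (u : V3) :
    α ⬝ᵥ (mt l *ᵥ u) = α' ⬝ᵥ u := by
  rw [← h, dotProduct_comm, dot_dual, det_mt, one_mul, dotProduct_comm]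

lemma L2 (l : LL) (σ σ' : V3) (h : ∀ z, σ ⬝ᵥ (dual (mt l) *ᵥ z) = σ' ⬝ᵥ z) :
    mt l *ᵥ σ' = σ := by
  apply dotProduct_eq
  intro x
  have hx : x = dual (mt l) *ᵥ (dual (mt l⁻¹) *ᵥ x) := by
    rw [mulVec_mulVec, ← dual_mul, ← mt_mul, mul_inv_cancel, mt_one, dual_one, one_mulVec]
  rw [hx, h, dot_dual, det_mt, one_mul]

lemma L2' (l : LL) (σ σ' : V3) (h : mt l *ᵥ σ' = σ) (z : V3) :
    σ ⬝ᵥ (dual (mt l) *ᵥ z) = σ' ⬝ᵥ z := by
  rw [← h, dot_dual, det_mt, one_mul]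

/-- the generator fixes the representatives -/
lemma mt_gL_vU : ∀ a, mt (gL a) *ᵥ vU a = vU a := by
  intro a
  fin_cases a
  · change mt (gL 0) *ᵥ vU 0 = vU 0; rw [mt_gL0]; decide +kernel
  · change mt (gL 1) *ᵥ vU 1 = vU 1; rw [mt_gL1]; decide +kernel
  · change mt (gL 2) *ᵥ vU 2 = vU 2; rw [gL2, mt_one, one_mulVec]

lemma mt_gL_vD : ∀ a, dual (mt (gL a)) *ᵥ vD a = vD a := by
  intro a
  rw [dual_mt_gL]
  fin_cases a
  · change mt (gL 0) *ᵥ vD 0 = vD 0; rw [mt_gL0]; decide +kernel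
  · change mt (gL 1) *ᵥ vD 1 = vD 1; rw [mt_gL1]; decide +kernel
  · change mt (gL 2) *ᵥ vD 2 = vD 2; rw [gL2, mt_one, one_mulVec]

lemma mt_gL_pow_vU (a : Fin 3) (j : ℕ) : mt (gL a ^ j) *ᵥ vU a = vU a := by
  induction j with
  | zero => rw [pow_zero, mt_one, one_mulVec]
  | succ j ih => rw [pow_succ, mt_mul, ← mulVec_mulVec, mt_gL_vU, ih]

lemma mt_gL_pow_vD (a : Fin 3) (j : ℕ) : dual (mt (gL a ^ j)) *ᵥ vD a = vD a := by
  induction j with
  | zero => rw [pow_zero, mt_one, dual_one, one_mulVec]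
  | succ j ih => rw [pow_succ, mt_mul, dual_mul, ← mulVec_mulVec, mt_gL_vD, ih]

/-- behaviour of the vectors `p` -/
lemma mt_gL_pU (a : Fin 3) (j : ℕ) : wU a ⬝ᵥ (mt (gL a ^ j) *ᵥ pU a) ≠ 0 ∨
    ∃ e : ZMod 11, mt (gL a ^ j) *ᵥ pU a = e • pU a := by
  have h : gL a ^ j = gL a ^ (j % mm a) := by rw [← orderOf_gL, pow_mod_orderOf]
  rw [h]
  fin_cases a
  · change wU 0 ⬝ᵥ (mt (gL 0 ^ (j % 4)) *ᵥ pU 0) ≠ 0 ∨
      ∃ e : ZMod 11, mt (gL 0 ^ (j % 4)) *ᵥ pU 0 = e • pU 0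
    have hj : j % 4 < 4 := Nat.mod_lt _ (by norm_num)
    rw [mt_pow, mt_gL0]
    generalize j % 4 = i at hj
    interval_cases i
    · right; exact ⟨1, by decide +kernel⟩
    · left; decide +kernel
    · right; exact ⟨-1, by decide +kernel⟩
    · left; decide +kernel
  · change wU 1 ⬝ᵥ (mt (gL 1 ^ (j % 3)) *ᵥ pU 1) ≠ 0 ∨
      ∃ e : ZMod 11, mt (gL 1 ^ (j % 3)) *ᵥ pU 1 = e • pU 1
    have hj : j % 3 < 3 := Nat.mod_lt _ (by norm_num)
    rw [mt_pow, mt_gL1]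
    generalize j % 3 = i at hj
    interval_cases i
    · right; exact ⟨1, by decide +kernel⟩
    · left; decide +kernel
    · left; decide +kernel
  · right
    exact ⟨1, by change mt (gL 2 ^ _) *ᵥ pU 2 = (1 : ZMod 11) • pU 2
                 rw [gL2, one_pow, mt_one, one_mulVec, one_smul]⟩

end Pool.Cartan73
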