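import Pool.Agent.Cartan73.Family

/-! # Corner data and orthogonality for the family of pairs of `H` (helper73, MP_bea28b_al) -/

namespace Pool.Cartan73

open Matrix MonoidAlgebra

attribute [local instance 10000] Fintype.ofFinite

variable {k : Type*} [Field k]

/-- the fixed vector property of generators for all types -/
lemma aF_sF_fix (κ : KK) (a : Fin 3) (j : ℕ) (u z : V3) (hu : wF κ a ⬝ᵥ u = 0)
    (hu' : wF κ a ⬝ᵥ (mt (gL a ^ j) *ᵥ u) = 0) :
    aF κ a ⬝ᵥ (mt (gL a ^ j) *ᵥ u) + sF κ a ⬝ᵥ (dual (mt (gL a ^ j)) *ᵥ z)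
      = aF κ a ⬝ᵥ u + sF κ a ⬝ᵥ z := by
  obtain ⟨t, c⟩ := κ
  cases c with
  | none =>
    simp only [aF, sF, zero_dotProduct, add_zero]
    apply L1'
    rw [mulVec_smul, mt_gL_pow_vD]
  | some c =>
    simp only [aF, sF, wF] at *
    have h1 := L2' (gL a ^ j) (tt t • vU a) (tt t • vU a) (by rw [mulVec_smul, mt_gL_pow_vU]) z
    rw [h1]
    congr 1
    rw [smul_dotProduct, smul_dotProduct]
    congr 1
    have hexp := expand a u
    rw [hu, zero_smul, add_zero] at hexp
    have hM : mt (gL a ^ j) *ᵥ u = (xU a ⬝ᵥ u) • vU a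
        + (yU a ⬝ᵥ u) • (mt (gL a ^ j) *ᵥ pU a) := by
      conv_lhs => rw [hexp]
      rw [mulVec_add, mulVec_smul, mulVec_smul, mt_gL_pow_vU]
    rw [hM] at hu' ⊢
    rw [dotProduct_add, dotProduct_smul, dotProduct_smul, xU_vU, smul_eq_mul, mul_one]
    rw [dotProduct_add, dotProduct_smul, dotProduct_smul, wU_vU, smul_zero, zero_add,
      smul_eq_mul] at hu'
    rcases mt_gL_pU a j with h2 | ⟨e, he⟩
    · rw [(mul_eq_zero.mp hu').resolve_right h2, zero_smul, add_zero]
    · rw [he, dotProduct_smul, xU_pU, smul_zero, smul_zero, add_zero]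

lemma vU_cross_pU (a : Fin 3) (y : V3) :
    vU a ⬝ᵥ (y ⨯₃ pU a) = - (wU a ⬝ᵥ y) * (vU a ⬝ᵥ (pU a ⨯₃ qU a)) := by
  have h10 : (10 : ZMod 11) = -1 := by decide
  have h9 : (9 : ZMod 11) = -2 := by decide
  fin_cases a <;>
    simp [wU, vU, pU, qU, dotProduct, Fin.sum_univ_three, cross_apply, h10, h9] <;> ring

lemma vol_ne : ∀ a, vU a ⬝ᵥ (pU a ⨯₃ qU a) ≠ 0 := by decide +kernel

/-- decomposition of elements of `H` over a power of the generator -/
lemma comp_aux (ψ : AddChar (ZMod 11) k) (hψ : ∀ x, ψ x = 1 → x = 0) (κ : KK) (a : Fin 3)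
    (h : HH) (j : ℕ) (hj : piH h = piH (gF κ a) ^ j) :
    ∃ c : k, (PF ψ κ a).f * single h (1 : k) * (PF ψ κ a).f
      = c • ((PF ψ κ a).f * single (gF κ a ^ j) (1 : k) * (PF ψ κ a).f) := by
  have hr : h.right = gL a ^ j := hj
  have hg : gF κ a ^ j = SemidirectProduct.inr (gL a ^ j) := by
    rw [gF, ← map_pow]
  -- a factorisation suffices
  have fac : ∀ (x y : (PF ψ κ a).A), h = (x : HH) * SemidirectProduct.inr (gL a ^ j) * (y : HH) →
      ∃ c : k, (PF ψ κ a).f * single h (1 : k) * (PF ψ κ a).f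
      = c • ((PF ψ κ a).f * single (gF κ a ^ j) (1 : k) * (PF ψ κ a).f) := by
    intro x y hxy
    refine ⟨(PF ψ κ a).lam x * (PF ψ κ a).lam y, ?_⟩
    rw [hxy, hg]
    have e : single ((x : HH) * SemidirectProduct.inr (gL a ^ j) * (y : HH)) (1 : k)
        = single (x : HH) (1 : k) * single (SemidirectProduct.inr (gL a ^ j) : HH) (1 : k)
          * single (y : HH) (1 : k) := by
      rw [single_mul_single, single_mul_single, one_mul, one_mul]
    rw [e, ← mul_assoc, ← mul_assoc, LinPair.f_mul_single, mul_assoc _ (single (y : HH) (1 : k)),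
      LinPair.single_mul_f, smul_mul_assoc, smul_mul_assoc, mul_smul_comm, smul_smul]
  obtain ⟨t, c⟩ := κ
  cases c with
  | none =>
    refine fac ⟨⟨h.left, 1⟩, rfl, by simp [wF]⟩ 1 ?_
    apply SemidirectProduct.ext
    · rw [Subgroup.coe_one, mul_one, mul_left_one _ _ rfl]
      ext1
      · change _ = h.left.u + 0; rw [add_zero]
      · change _ = h.left.z + 0 + h.left.u ⨯₃ (0 : V3)
        rw [map_zero, add_zero, add_zero]
    · change h.right = 1 * gL a ^ j * 1
      rw [one_mul, mul_one, hr]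
  | some c =>
    set y := h.left.u with hy
    rcases mt_gL_pU a j with h1 | ⟨e, he⟩
    · -- `P + lP = U`
      set M := mt (gL a ^ j) with hM
      let s := (wU a ⬝ᵥ y) * (wU a ⬝ᵥ (M *ᵥ pU a))⁻¹
      have hp : wU a ⬝ᵥ (y - s • (M *ᵥ pU a)) = 0 := by
        rw [dotProduct_sub, dotProduct_smul, smul_eq_mul]
        simp only [s]
        field_simp
        ring
      have hp' : wU a ⬝ᵥ (s • pU a) = 0 := by rw [dotProduct_smul, wU_pU, smul_zero]
      refine fac ⟨⟨⟨y - s • (M *ᵥ pU a), h.left.z - (y - s • (M *ᵥ pU a)) ⨯₃ (s • (M *ᵥ pU a))⟩, 1⟩,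
        rfl, hp⟩ ⟨⟨⟨s • pU a, 0⟩, 1⟩, rfl, hp'⟩ ?_
      apply SemidirectProduct.ext
      · rw [mul_assoc, mul_left_one _ _ rfl]
        have e1 : ((SemidirectProduct.inr (gL a ^ j) : HH) * (⟨⟨s • pU a, 0⟩, 1⟩ : HH)).left
            = ⟨s • (M *ᵥ pU a), 0⟩ := by
          rw [mul_left' _ _ _ rfl]
          ext1
          · change (0 : V3) + M *ᵥ (s • pU a) = _
            rw [zero_add, mulVec_smul]
          · change (0 : V3) + dual M *ᵥ 0 + (0 : V3) ⨯₃ (M *ᵥ (s • pU a)) = 0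
            rw [mulVec_zero, map_zero]; simp
        rw [e1]
        ext1
        · change y = (y - s • (M *ᵥ pU a)) + s • (M *ᵥ pU a)
          rw [sub_add_cancel]
        · change h.left.z = (h.left.z - (y - s • (M *ᵥ pU a)) ⨯₃ (s • (M *ᵥ pU a))) + 0
            + (y - s • (M *ᵥ pU a)) ⨯₃ (s • (M *ᵥ pU a))
          rw [add_zero, sub_add_cancel]
      · change h.right = 1 * gL a ^ j * 1
        rw [one_mul, mul_one, hr]
    · by_cases hw : wU a ⬝ᵥ y = 0
      · refine fac ⟨⟨h.left, 1⟩, rfl, hw⟩ 1 ?_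
        apply SemidirectProduct.ext
        · rw [Subgroup.coe_one, mul_one, mul_left_one _ _ rfl]
          ext1
          · change _ = h.left.u + 0; rw [add_zero]
          · change _ = h.left.z + 0 + h.left.u ⨯₃ (0 : V3)
            rw [map_zero, add_zero, add_zero]
        · change h.right = 1 * gL a ^ j * 1
          rw [one_mul, mul_one, hr]
      · refine ⟨0, ?_⟩
        rw [zero_smul]
        have he0 : e ≠ 0 := by
          rintro rfl
          rw [zero_smul] at he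
          have h2 : pU a = mt (gL a ^ j)⁻¹ *ᵥ (mt (gL a ^ j) *ᵥ pU a) := by
            rw [mulVec_mulVec, ← mt_mul, inv_mul_cancel, mt_one, one_mulVec]
          rw [he, mulVec_zero] at h2
          have h3 := vol_ne a
          rw [h2] at h3; simp at h3
        refine incompat ψ _ _ hψ h (pU a) 0 (wU_pU a) ?_ ?_
        · rw [hr, he]; change wU a ⬝ᵥ (e • pU a) = 0
          rw [dotProduct_smul, wU_pU, smul_zero]
        · rw [hr, he]
          change (c • xU a) ⬝ᵥ (e • pU a) + (tt t • vU a) ⬝ᵥ (dual (mt (gL a ^ j)) *ᵥ 0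
            + (2 : ZMod 11) • (y ⨯₃ (e • pU a))) ≠ (c • xU a) ⬝ᵥ pU a + (tt t • vU a) ⬝ᵥ 0
          rw [mulVec_zero, zero_add, map_smul, smul_dotProduct, dotProduct_smul, xU_pU,
            smul_dotProduct, dotProduct_smul, dotProduct_smul, vU_cross_pU, smul_dotProduct, xU_pU,
            dotProduct_zero]
          simp only [smul_eq_mul, mul_zero, zero_add, add_zero]
          have h2 : (2 : ZMod 11) ≠ 0 := by decide
          have := vol_ne a
          have := tt_ne t
          intro h3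
          simp only [mul_eq_zero, neg_eq_zero, neg_mul] at h3
          tauto

lemma vanish_aux (ψ : AddChar (ZMod 11) k) (hψ : ∀ x, ψ x = 1 → x = 0) (κ : KK) (a : Fin 3)
    (h : HH) (hj : ∀ j : ℕ, piH h ≠ piH (gF κ a) ^ j) :
    (PF ψ κ a).f * single h (1 : k) * (PF ψ κ a).f = 0 := by
  have hj' : ∀ j : ℕ, h.right ≠ gL a ^ j := hj
  obtain ⟨t, c⟩ := κ
  cases c with
  | none =>
    have : ∃ u, (tt t • vD a) ⬝ᵥ (mt h.right *ᵥ u) ≠ (tt t • vD a) ⬝ᵥ u := by
      by_contra hcon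
      push Not at hcon
      obtain ⟨j, hj⟩ := (stabD' _ _ _ _ _ (L1 _ _ _ hcon)).2.2
      exact hj' j hj
    obtain ⟨u, hu⟩ := this
    refine incompat ψ _ _ hψ h u 0 (by simp [wF]) (by simp [wF]) ?_
    change (tt t • vD a) ⬝ᵥ (mt h.right *ᵥ u) + (0 : V3) ⬝ᵥ _ ≠ (tt t • vD a) ⬝ᵥ u + (0 : V3) ⬝ᵥ _
    rw [zero_dotProduct, zero_dotProduct, add_zero, add_zero]
    exact hu
  | some c =>
    have : ∃ z, (tt t • vU a) ⬝ᵥ (dual (mt h.right) *ᵥ z) ≠ (tt t • vU a) ⬝ᵥ z := by
      by_contra hcon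
      push Not at hcon
      obtain ⟨j, hj⟩ := (stabU' _ _ _ _ _ (L2 _ _ _ hcon)).2.2
      exact hj' j hj
    obtain ⟨z, hz⟩ := this
    refine incompat ψ _ _ hψ h 0 z (by simp) (by simp) ?_
    rw [mulVec_zero, map_zero, smul_zero, add_zero, dotProduct_zero, zero_add, zero_add]
    exact hz

lemma cornerData (ψ : AddChar (ZMod 11) k) (hψ : ∀ x, ψ x = 1 → x = 0) (κ : KK) (a : Fin 3) :
    (PF ψ κ a).CornerData piH (gF κ a) (mm a) where
  hm := by fin_cases a <;> decide
  sub := fun x => x.2.1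
  order := by
    change orderOf (gL a) = mm a
    exact orderOf_gL a
  comp := fun h j hj => comp_aux ψ hψ κ a h j hj
  vanish := fun h hj => vanish_aux ψ hψ κ a h hj
  compat := by
    rintro j ⟨⟨⟨u', z'⟩, x⟩, hx, hu'⟩ ⟨⟨⟨u, z⟩, y⟩, hy, hu⟩ hab
    simp only at hx hy hu hu'
    subst hx; subst hy
    have hg : gF κ a ^ j = SemidirectProduct.inr (gL a ^ j) := by
      rw [gF, ← map_pow]
    rw [hg] at hab
    have h1 := conj_eq (SemidirectProduct.inr (gL a ^ j) : HH) u z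
    have h2 := mul_right_cancel (hab.trans h1.symm)
    have hu1 : u' = mt (gL a ^ j) *ᵥ u := by
      have := congrArg (fun q : HH => q.left.u) h2
      exact this
    have hz1 : z' = dual (mt (gL a ^ j)) *ᵥ z := by
      have := congrArg (fun q : HH => q.left.z) h2
      change z' = dual (mt (gL a ^ j)) *ᵥ z + (2 : ZMod 11) • ((0 : V3) ⨯₃ (mt (gL a ^ j) *ᵥ u)) at this
      rw [this]; simp
    change ψ (aF κ a ⬝ᵥ u' + sF κ a ⬝ᵥ z') = ψ (aF κ a ⬝ᵥ u + sF κ a ⬝ᵥ z)
    subst hu1; subst hz1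
    rw [aF_sF_fix κ a j u z hu hu']

end Pool.Cartan73
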