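import Pool.Agent.Cartan73.Family2

/-! # Orthogonality and non-triviality for the family of pairs of `H` (helper73, MP_bea28b_al) -/

namespace Pool.Cartan73

open Matrix MonoidAlgebra

attribute [local instance 10000] Fintype.ofFinite

variable {k : Type*} [Field k]

/-- different central characters are incompatible -/
lemma orth_sigma (ψ : AddChar (ZMod 11) k) (hψ : ∀ x, ψ x = 1 → x = 0) (κ κ' : KK) (a b : Fin 3)
    (h : HH) (hne : mt h.right *ᵥ sF κ' b ≠ sF κ a) :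
    (PF ψ κ a).f * single h (1 : k) * (PF ψ κ' b).f = 0 := by
  have : ∃ z, sF κ a ⬝ᵥ (dual (mt h.right) *ᵥ z) ≠ sF κ' b ⬝ᵥ z := by
    by_contra hcon
    push Not at hcon
    exact hne (L2 _ _ _ hcon)
  obtain ⟨z, hz⟩ := this
  refine incompat ψ _ _ hψ h 0 z (by simp) (by simp) ?_
  rw [mulVec_zero, map_zero, smul_zero, add_zero, dotProduct_zero, dotProduct_zero, zero_add,
    zero_add]
  exact hz

lemma vU_ne (t : Fin 5) (a : Fin 3) : tt t • vU a ≠ 0 := by
  revert t a; decide +kernel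

lemma orth_all (ψ : AddChar (ZMod 11) k) (hψ : ∀ x, ψ x = 1 → x = 0) (x y : KK × Fin 3)
    (hxy : x ≠ y) (h : HH) :
    (PF ψ x.1 x.2).f * single h (1 : k) * (PF ψ y.1 y.2).f = 0 := by
  obtain ⟨⟨t, c⟩, a⟩ := x
  obtain ⟨⟨t', c'⟩, b⟩ := y
  cases c with
  | none =>
    cases c' with
    | none =>
      have : ∃ u, (tt t • vD a) ⬝ᵥ (mt h.right *ᵥ u) ≠ (tt t' • vD b) ⬝ᵥ u := by
        by_contra hcon
        push Not at hcon
        obtain ⟨rfl, rfl, -⟩ := stabD' _ _ _ _ _ (L1 _ _ _ hcon)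
        exact hxy rfl
      obtain ⟨u, hu⟩ := this
      refine incompat ψ _ _ hψ h u 0 (by simp [wF]) (by simp [wF]) ?_
      change (tt t • vD a) ⬝ᵥ (mt h.right *ᵥ u) + (0 : V3) ⬝ᵥ _
        ≠ (tt t' • vD b) ⬝ᵥ u + (0 : V3) ⬝ᵥ _
      rw [zero_dotProduct, zero_dotProduct, add_zero, add_zero]
      exact hu
    | some c' =>
      apply orth_sigma ψ hψ
      change mt h.right *ᵥ (tt t' • vU b) ≠ 0
      intro h0
      have h2 : tt t' • vU b = mt h.right⁻¹ *ᵥ (mt h.right *ᵥ (tt t' • vU b)) := by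
        rw [mulVec_mulVec, ← mt_mul, inv_mul_cancel, mt_one, one_mulVec]
      rw [h0, mulVec_zero] at h2
      exact vU_ne t' b h2
  | some c =>
    cases c' with
    | none =>
      apply orth_sigma ψ hψ
      change mt h.right *ᵥ (0 : V3) ≠ tt t • vU a
      rw [mulVec_zero]
      exact (vU_ne t a).symm
    | some c' =>
      by_cases hs : mt h.right *ᵥ (tt t' • vU b) = tt t • vU a
      · obtain ⟨rfl, rfl, j, hj⟩ := stabU' _ _ _ _ _ hs
        have hc : c ≠ c' := by rintro rfl; exact hxy rfl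
        have hM : mt h.right *ᵥ vU b = vU b := by rw [hj, mt_gL_pow_vU]
        refine incompat ψ _ _ hψ h (vU b) 0 (wU_vU b) ?_ ?_
        · rw [hM]; exact wU_vU b
        · rw [hM]
          change (c • xU b) ⬝ᵥ vU b + (tt t' • vU b) ⬝ᵥ (dual (mt h.right) *ᵥ 0
            + (2 : ZMod 11) • (h.left.u ⨯₃ vU b)) ≠ (c' • xU b) ⬝ᵥ vU b + (tt t' • vU b) ⬝ᵥ 0
          rw [mulVec_zero, zero_add, smul_dotProduct, smul_dotProduct, smul_dotProduct, xU_vU,
            dotProduct_smul, dot_cross_self, dotProduct_zero]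
          simpa using hc
      · exact orth_sigma ψ hψ _ _ _ _ h hs

lemma exists_dot_ne {α : V3} (h : α ≠ 0) : ∃ u, α ⬝ᵥ u ≠ 0 := by
  by_contra hcon
  push Not at hcon
  exact h (dotProduct_eq_zero α hcon)

lemma vD_ne (t : Fin 5) (a : Fin 3) : tt t • vD a ≠ 0 := by
  revert t a; decide +kernel

lemma ntriv_all (ψ : AddChar (ZMod 11) k) (hψ : ∀ x, ψ x = 1 → x = 0) (κ : KK) (a : Fin 3) :
    ∃ b : (PF ψ κ a).A, (PF ψ κ a).lam b ≠ 1 := by
  obtain ⟨t, c⟩ := κ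
  cases c with
  | none =>
    obtain ⟨u, hu⟩ := exists_dot_ne (vD_ne t a)
    refine ⟨⟨⟨⟨u, 0⟩, 1⟩, rfl, by simp [wF]⟩, ?_⟩
    change ψ ((tt t • vD a) ⬝ᵥ u + (0 : V3) ⬝ᵥ (0 : V3)) ≠ 1
    intro h
    have := hψ _ h
    simp only [dotProduct_zero, add_zero] at this
    exact hu this
  | some c =>
    obtain ⟨u, hu⟩ := exists_dot_ne (vU_ne t a)
    refine ⟨⟨⟨⟨0, u⟩, 1⟩, rfl, by simp⟩, ?_⟩
    change ψ ((c • xU a) ⬝ᵥ (0 : V3) + (tt t • vU a) ⬝ᵥ u) ≠ 1
    intro h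
    have := hψ _ h
    simp only [dotProduct_zero, zero_add] at this
    exact hu this

end Pool.Cartan73
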