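import Pool.Agent.Cartan73.General

/-! # Idempotent data give the Cartan matrix, part 2 (helper73, MP_bea28b_al) -/

namespace Pool.Cartan73

universe u

section
variable {k : Type*} {A : Type u} [Field k] [Ring A] [Algebra k A] {e : A}
variable {M : Type u} [AddCommGroup M] [Module A M] [Module k M] [IsScalarTower k A M]

instance finite_sub [FiniteDimensional k M] (N : Submodule A M) : FiniteDimensional k N :=
  inferInstanceAs (FiniteDimensional k (N.restrictScalars k))

lemma finrank_Fx_step [FiniteDimensional k M] (he : e * e = e) (s : CompositionSeries (Submodule A M))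
    (t : Fin s.length) :
    Module.finrank k (Fx k e (s t.succ)) =
      Module.finrank k (Fx k e (factor s t)) + Module.finrank k (Fx k e (s t.castSucc)) := by
  rw [finrank_Fx_quot (k := k) ((s t.castSucc).submoduleOf (s t.succ)) he]
  congr 1
  exact finrank_Fx_congr (Submodule.submoduleOfEquivOfLe (s.step t).le)

lemma telescope (n : ℕ) (f : Fin (n + 1) → ℕ) (g : Fin n → ℕ)
    (h : ∀ t : Fin n, f t.succ = g t + f t.castSucc) :
    f (Fin.last n) = (∑ t, g t) + f 0 := by
  induction n with
  | zero => simp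
  | succ n ih =>
    rw [Fin.sum_univ_castSucc]
    have h1 := ih (fun t => f t.castSucc) (fun t => g t.castSucc) (fun t => by
      have := h t.castSucc
      rw [Fin.succ_castSucc] at this
      exact this)
    have h2 := h (Fin.last n)
    rw [Fin.succ_last] at h2
    rw [h2, h1]
    simp only [Fin.castSucc_zero]
    ring

lemma factor_simple (s : CompositionSeries (Submodule A M)) (t : Fin s.length) :
    IsSimpleModule A (factor s t) :=
  (covBy_iff_quot_is_simple (s.step t).le).mp (s.step t)

/-- multiplicities are computed by a function `F` with the right values on simple factors -/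
lemma isCompMult_of [FiniteDimensional k M] (he : e * e = e) (S : Type u) [AddCommGroup S]
    [Module A S] 
    (h1 : ∀ (s : CompositionSeries (Submodule A M)) (t : Fin s.length),
      Nonempty (factor s t ≃ₗ[A] S) → Module.finrank k (Fx k e (factor s t)) = 1)
    (h0 : ∀ (s : CompositionSeries (Submodule A M)) (t : Fin s.length),
      ¬ Nonempty (factor s t ≃ₗ[A] S) → Module.finrank k (Fx k e (factor s t)) = 0) :
    IsCompMult A M S (Module.finrank k (Fx k e M)) := by
  classical
  refine ⟨?_, ?_⟩
  · have h2 : IsNoetherian k M := inferInstance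
    have h3 : IsArtinian k M := inferInstance
    have : IsNoetherian A M := isNoetherian_of_tower k h2
    have : IsArtinian A M := isArtinian_of_tower k h3
    exact exists_compositionSeries_of_isNoetherian_isArtinian A M
  · intro s hs1 hs2
    have h4 := telescope s.length (fun t => Module.finrank k (Fx k e (s t)))
      (fun t => Module.finrank k (Fx k e (factor s t))) (fun t => finrank_Fx_step he s t)
    have h5 : Module.finrank k (Fx k e (s (Fin.last s.length))) = Module.finrank k (Fx k e M) := by
      have : s (Fin.last s.length) = ⊤ := hs2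
      rw [this]
      exact finrank_Fx_congr Submodule.topEquiv
    have h6 : Module.finrank k (Fx k e (s 0)) = 0 := by
      have : s 0 = ⊥ := hs1
      rw [this]
      have : Subsingleton (Fx k e (⊥ : Submodule A M)) := inferInstance
      exact Module.finrank_zero_of_subsingleton
    rw [h5, h6, add_zero] at h4
    rw [h4, Nat.card_eq_fintype_card, Fintype.card_subtype, Finset.card_filter]
    refine Finset.sum_congr rfl (fun t _ => ?_)
    by_cases h7 : Nonempty (factor s t ≃ₗ[A] S)
    · rw [if_pos h7, h1 s t h7]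
    · rw [if_neg h7, h0 s t h7]

end

section
variable {k : Type*} {A : Type u} [Field k] [Ring A] [Algebra k A] {I : Type*} {C : I → I → ℕ}

lemma IdemData.locIdem (D : IdemData k A I C) (i : I) : LocIdem k (D.e i) :=
  ⟨D.idem i, D.ne i, D.loc i⟩

lemma finrank_Fx_SS_self {e : A} (L : LocIdem k e) : Module.finrank k (Fx k e (SS L)) = 1 := by
  have hg : (JJ L).mkQ (gen e L.idem) ∈ Fx k e (SS L) := by
    rw [mem_Fx, ← map_smul]
    congr 1
    apply Subtype.ext
    exact L.idem
  have hg0 : (JJ L).mkQ (gen e L.idem) ≠ 0 := by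
    intro h
    rw [Submodule.mkQ_apply, Submodule.Quotient.mk_eq_zero] at h
    exact gen_notMem L h
  rw [finrank_eq_one_iff_of_nonzero' (⟨_, hg⟩ : Fx k e (SS L))
    (fun h => hg0 (congrArg Subtype.val h))]
  rintro ⟨q, hq⟩
  obtain ⟨x, rfl⟩ := (JJ L).mkQ_surjective q
  have hq' : e • (JJ L).mkQ x = (JJ L).mkQ x := hq
  obtain ⟨c, hc⟩ := L.loc (x : A)
  refine ⟨c, ?_⟩
  apply Subtype.ext
  change c • (JJ L).mkQ (gen e L.idem) = (JJ L).mkQ x
  rw [← hq', ← LinearMap.map_smul (JJ L).mkQ e x]
  have h1 : c • (JJ L).mkQ (gen e L.idem) = (JJ L).mkQ (c • gen e L.idem) := rfl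
  rw [h1, ← sub_eq_zero, ← map_sub, Submodule.mkQ_apply, Submodule.Quotient.mk_eq_zero, mem_JJ]
  intro a
  have hxe : (x : A) * e = x := x.2
  have h2 : ((c • gen e L.idem - e • x : PP e L.idem) : A) = -(e * (x : A) * e - c • e) := by
    change c • e - e * (x : A) = _
    rw [mul_assoc, hxe]; abel
  rw [h2]
  apply L.mul_nil
  · rw [mul_neg, mul_sub, ← mul_assoc, ← mul_assoc, L.idem, mul_smul_comm, L.idem]
  · rw [neg_mul, sub_mul, mul_assoc, mul_assoc, L.idem, smul_mul_assoc, L.idem, mul_assoc]
  · exact hc.neg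

lemma finrank_Fx_SS_ne (D : IdemData k A I C) {i j : I} (hij : i ≠ j) :
    Module.finrank k (Fx k (D.e j) (SS (D.locIdem i))) = 0 := by
  have : Subsingleton (Fx k (D.e j) (SS (D.locIdem i))) := by
    constructor
    suffices h : ∀ q : Fx k (D.e j) (SS (D.locIdem i)), q = 0 by
      intro a b; rw [h a, h b]
    rintro ⟨q, hq⟩
    obtain ⟨x, rfl⟩ := (JJ (D.locIdem i)).mkQ_surjective q
    have hq' : D.e j • (JJ (D.locIdem i)).mkQ x = (JJ (D.locIdem i)).mkQ x := hq
    apply Subtype.ext
    change (JJ (D.locIdem i)).mkQ x = 0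
    rw [← hq', ← map_smul, Submodule.mkQ_apply, Submodule.Quotient.mk_eq_zero, mem_JJ]
    intro a
    have hxe : (x : A) * D.e i = x := x.2
    have h2 : ((D.e j • x : PP (D.e i) (D.idem i)) : A) = D.e j * (x : A) := rfl
    rw [h2, ← mul_assoc]
    have := D.nil i j hij a (x : A)
    rw [mul_assoc (D.e i * a * D.e j), hxe] at this
    exact this
  exact Module.finrank_zero_of_subsingleton

lemma finrank_Fx_PP (D : IdemData k A I C) (i j : I) :
    Module.finrank k (Fx k (D.e j) (PP (D.e i) (D.idem i))) = C j i := by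
  rw [← D.dims j i]
  let ψ : Fx k (D.e j) (PP (D.e i) (D.idem i)) →ₗ[k] A :=
    ((PP (D.e i) (D.idem i)).subtype.restrictScalars k).comp
      (Fx k (D.e j) (PP (D.e i) (D.idem i))).subtype
  have hψ : ∀ x, ψ x = ((x : PP (D.e i) (D.idem i)) : A) := fun x => rfl
  have h1 : LinearMap.range ψ = LinearMap.range (sand (k := k) (D.e j) (D.e i)) := by
    ext a
    constructor
    · rintro ⟨x, rfl⟩
      have hx : D.e j • (x : PP (D.e i) (D.idem i)) = x := x.2
      have hx1 : D.e j * ((x : PP (D.e i) (D.idem i)) : A) = ((x : PP (D.e i) (D.idem i)) : A) := by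
        conv_rhs => rw [← hx]
        rfl
      have hx2 : ((x : PP (D.e i) (D.idem i)) : A) * D.e i = ((x : PP (D.e i) (D.idem i)) : A) :=
        (x : PP (D.e i) (D.idem i)).2
      refine ⟨((x : PP (D.e i) (D.idem i)) : A), ?_⟩
      rw [sand_apply, hψ, hx1, hx2]
    · rintro ⟨b, rfl⟩
      refine ⟨⟨⟨D.e j * b * D.e i, ?_⟩, ?_⟩, rfl⟩
      · rw [mem_PP, mul_assoc, D.idem]
      · rw [mem_Fx]
        apply Subtype.ext
        change D.e j * (D.e j * b * D.e i) = D.e j * b * D.e i
        rw [← mul_assoc, ← mul_assoc, D.idem]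
  rw [← h1]
  symm
  apply LinearMap.finrank_range_of_inj
  intro x y hxy
  rw [hψ, hψ] at hxy
  exact Subtype.ext (Subtype.ext hxy)

lemma exists_act (D : IdemData k A I C) {M : Type u} [AddCommGroup M] [Module A M]
    [Nontrivial M] : ∃ i, ∃ m : M, D.e i • m ≠ 0 := by
  by_contra hcon
  push Not at hcon
  have h1 : ∀ x ∈ Submodule.span k {y | ∃ a i b, y = a * D.e i * b}, ∀ m : M, x • m = 0 := by
    intro x hx
    induction hx using Submodule.span_induction with
    | mem y hy =>
      obtain ⟨a, i, b, rfl⟩ := hy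
      intro m
      rw [mul_assoc, mul_smul, mul_smul, hcon, smul_zero]
    | zero => intro m; rw [zero_smul]
    | add x y _ _ hx hy => intro m; rw [add_smul, hx, hy, add_zero]
    | smul c x _ hx =>
      intro m
      rw [Algebra.smul_def, mul_smul, hx, smul_zero]
  obtain ⟨m, hm⟩ := exists_ne (0 : M)
  exact hm (by have := h1 1 D.full m; rwa [one_smul] at this)

lemma exists_iso_SS (D : IdemData k A I C) (M : Type u) [AddCommGroup M] [Module A M]
    [hM : IsSimpleModule A M] : ∃ i, Nonempty (M ≃ₗ[A] SS (D.locIdem i)) := by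
  have := IsSimpleModule.nontrivial A M
  obtain ⟨i, m, hm⟩ := exists_act D (M := M)
  exact ⟨i, iso_of_act (D.locIdem i) hm⟩

lemma SS_inj (D : IdemData k A I C) {i j : I}
    (h : Nonempty (SS (D.locIdem i) ≃ₗ[A] SS (D.locIdem j))) : i = j := by
  by_contra hij
  obtain ⟨f⟩ := h
  have h1 := finrank_Fx_congr (k := k) (e := D.e j) f
  rw [finrank_Fx_SS_self (D.locIdem j), finrank_Fx_SS_ne D hij] at h1
  exact absurd h1 (by norm_num)

/-- **Main lemma**: idempotent data give the Cartan matrix. -/
theorem IdemData.isCartanMatrix [FiniteDimensional k A] (D : IdemData k A I C) :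
    IsCartanMatrix A (fun i j => C j i) := by
  refine ⟨fun i => ModuleCat.of A (SS (D.locIdem i)),
    fun i => ModuleCat.of A (PP (D.e i) (D.idem i)), fun i => SS_simple _,
    fun i j h => SS_inj D h, ?_, ?_, ?_⟩
  · intro M hM
    exact exists_iso_SS D M
  · intro i
    exact ⟨_, PP_cover (D.locIdem i)⟩
  · intro i j
    change IsCompMult A (PP (D.e i) (D.idem i)) (SS (D.locIdem j)) (C j i)
    rw [← finrank_Fx_PP D i j]
    apply isCompMult_of (D.idem j)
    · rintro s t ⟨f⟩
      rw [finrank_Fx_congr (k := k) f, finrank_Fx_SS_self]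
    · intro s t hst
      have := factor_simple s t
      obtain ⟨l, ⟨f⟩⟩ := exists_iso_SS D (factor s t)
      have hlj : l ≠ j := by
        rintro rfl
        exact hst ⟨f⟩
      rw [finrank_Fx_congr (k := k) f, finrank_Fx_SS_ne D hlj]

end

end Pool.Cartan73
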