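import Pool.Agent.Cartan73.Inst2
import Pool.Agent.Cartan73.General2

/-! # The final theorem (helper73 and helper76, MP_bea28b_al) -/

set_option linter.unusedSectionVars false

open Matrix Cartan76

namespace Pool.Cartan73

universe u

section reindex
variable {A : Type u} [Ring A] {ι ι' : Type*} {C : ι → ι → ℕ}

lemma IsCartanMatrix.reindex (σ : ι' ≃ ι) (h : IsCartanMatrix A C) :
    IsCartanMatrix A (fun i j => C (σ i) (σ j)) := by
  obtain ⟨S, P, h1, h2, h3, h4, h5⟩ := h
  refine ⟨fun i => S (σ i), fun i => P (σ i), fun i => h1 _, ?_, ?_, fun i => h4 _,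
    fun i j => h5 _ _⟩
  · intro i j h
    exact σ.injective (h2 _ _ h)
  · intro M hM
    obtain ⟨i, hi⟩ := h3 M hM
    refine ⟨σ.symm i, ?_⟩
    change Nonempty (M ≃ₗ[A] S (σ (σ.symm i)))
    rw [Equiv.apply_symm_apply]
    exact hi

end reindex

open Borel

lemma C3_symm (a b : Fin 3) : C3 a b = C3 b a := by
  fin_cases a <;> fin_cases b <;> rfl

lemma CC_symm {J : Type*} [DecidableEq J] (w : J → ℕ) (i j : Fin 3 ⊕ J) : CC w i j = CC w j i := by
  rcases i with i | i <;> rcases j with j | j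
  · exact C3_symm i j
  · rfl
  · rfl
  · simp only [CC]
    by_cases h : i = j
    · subst h; rfl
    · rw [if_neg h, if_neg (Ne.symm h)]

/-- change of the index set of the diagonal part -/
lemma CC_congr {J J' : Type*} [DecidableEq J] [DecidableEq J'] (w : J → ℕ) (w' : J' → ℕ)
    (σ : J ≃ J') (h : ∀ j, w' (σ j) = w j) (i j : Fin 3 ⊕ J) :
    CC w i j = CC w' (Equiv.sumCongr (Equiv.refl _) σ i) (Equiv.sumCongr (Equiv.refl _) σ j) := by
  rcases i with i | i <;> rcases j with j | j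
  · rfl
  · rfl
  · rfl
  · simp only [CC, Equiv.sumCongr_apply, Sum.map_inr]
    by_cases h' : i = j
    · subst h'
      rw [if_pos rfl, if_pos rfl, h]
    · rw [if_neg h', if_neg (fun h'' => h' (σ.injective h''))]

lemma CC_inst {J : Type*} (i1 i2 : DecidableEq J) (w : J → ℕ) (a b : Fin 3 ⊕ J) :
    @CC J i1 w a b = @CC J i2 w a b := by
  have h : i1 = i2 := Subsingleton.elim i1 i2
  subst h
  rfl

/-- the weights of `bigC` -/
def wH {K : Type*} : K ⊕ (K × Fin 3) ⊕ K → ℕ
  | Sum.inl _ => 4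
  | Sum.inr (Sum.inl _) => 1
  | Sum.inr (Sum.inr _) => 1

lemma bigC_CC {J K : Type*} [DecidableEq J] [DecidableEq K] (w : J → ℕ)
    (i j : (Fin 3 ⊕ J) ⊕ (K ⊕ (K × Fin 3) ⊕ K)) :
    bigC (CC w) i j = CC (Sum.elim w wH) (Equiv.sumAssoc _ _ _ i) (Equiv.sumAssoc _ _ _ j) := by
  rcases i with (i | i) | i <;> rcases j with (j | j) | j
  · rfl
  · rfl
  · rfl
  · rfl
  · simp only [bigC, CC, Equiv.sumAssoc_apply_inl_inr]
    by_cases h : i = j
    · subst h; rw [if_pos rfl, if_pos rfl]; rfl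
    · rw [if_neg h, if_neg (fun h' => h (Sum.inl_injective h'))]
  · simp [bigC, CC]
  · rfl
  · simp [bigC, CC]
  · simp only [bigC, CC, Equiv.sumAssoc_apply_inr]
    by_cases h : i = j
    · subst h
      rw [if_pos rfl]
      rcases i with i | i | i <;> simp [cK, wH]
    · rw [if_neg (fun h' => h (Sum.inr_injective h'))]
      rcases i with i | i | i <;> rcases j with j | j | j <;> simp [cK] <;>
        exact fun h' => h (by rw [h'])

/-! ### the index sets -/

/-- matching the two index sets -/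
def matchEquiv {R60 R0 L Q K : Type*} [IsEmpty R0] (e1 : R60 ≃ K) (e2 : L ≃ Fin 1 ⊕ Q) :
    (R60 ⊕ L) ≃ ((R0 ⊕ Fin 1) ⊕ (K ⊕ Q)) where
  toFun
    | Sum.inl m => Sum.inr (Sum.inl (e1 m))
    | Sum.inr i => match e2 i with
      | Sum.inl a => Sum.inl (Sum.inr a)
      | Sum.inr q => Sum.inr (Sum.inr q)
  invFun
    | Sum.inl (Sum.inl x) => isEmptyElim x
    | Sum.inl (Sum.inr a) => Sum.inr (e2.symm (Sum.inl a))
    | Sum.inr (Sum.inl κ) => Sum.inl (e1.symm κ)
    | Sum.inr (Sum.inr q) => Sum.inr (e2.symm (Sum.inr q))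
  left_inv := by
    rintro (m | i)
    · simp
    · rcases h : e2 i with a | q
      · simp only [h]
        rw [← h, Equiv.symm_apply_apply]
      · simp only [h]
        rw [← h, Equiv.symm_apply_apply]
  right_inv := by
    rintro ((x | a) | (κ | q))
    · exact isEmptyElim x
    · simp
    · simp
    · simp

/-- the trivial character data are irrelevant: index sets for `p = 967` -/
noncomputable abbrev setupG (k : Type*) [Field k] (ψ : AddChar (ZMod 967) k) (hψ : ψ ≠ 1) :
    Setup (ZMod 967) k (Matrix.ProjectiveSpecialLinearGroup (Fin 2) (ZMod 967)) :=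
  setupPSL k 967 121 rfl rfl ψ hψ

lemma card_reps_G (k : Type*) [Field k] [CharP k 2] (ψ : AddChar (ZMod 967) k) (hψ : ψ ≠ 1) :
    Fintype.card (setupG k ψ hψ).reps = 60 := by
  rw [Fintype.card_coe]
  change (Finset.univ.filter fun m : ZMod 121 => m ≠ 0 ∧ 2 * m.val < 121).card = 60
  decide +kernel

lemma isEmpty_reps_L (k : Type*) [Field k] [CharP k 2] (ψ : AddChar (ZMod 7) k) (hψ : ψ ≠ 1) :
    IsEmpty (setupLL k ψ hψ).reps := by
  rw [← Fintype.card_eq_zero_iff, Fintype.card_coe]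
  change (Finset.univ.filter fun m : ZMod 1 => m ≠ 0 ∧ 2 * m.val < 1).card = 0
  decide +kernel

instance finPSL : Finite (Matrix.ProjectiveSpecialLinearGroup (Fin 2) (ZMod 967)) :=
  Quotient.finite _

lemma exists_match {R60 R0 : Type*} [Fintype R60] [IsEmpty R0] (h : Fintype.card R60 = 60) :
    ∃ σ : (R60 ⊕ Fin 241) ≃ ((R0 ⊕ Fin 1) ⊕ (KK ⊕ (KK × Fin 3) ⊕ KK)),
      ∀ j, Sum.elim wt wH (σ j) = wt j := by
  have e1 : R60 ≃ KK := Fintype.equivOfCardEq (by rw [h]; rfl)
  have e2 : Fin 241 ≃ Fin 1 ⊕ ((KK × Fin 3) ⊕ KK) := Fintype.equivOfCardEq (by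
    simp [ZMod.card])
  refine ⟨matchEquiv e1 e2, ?_⟩
  rintro (m | i)
  · rfl
  · rcases h : e2 i with a | (q | q)
    · simp only [matchEquiv, Equiv.coe_fn_mk, h, Sum.elim_inl, wt]
    · simp only [matchEquiv, Equiv.coe_fn_mk, h, Sum.elim_inr, wH, wt]
    · simp only [matchEquiv, Equiv.coe_fn_mk, h, Sum.elim_inr, wH, wt]

lemma sameCartan_of {k : Type u} [Field k] {G H : Type} [Group G] [Group H] {I I' : Type*}
    [Fintype I] [Fintype I'] {C : I → I → ℕ} {C' : I' → I' → ℕ}
    (h : IsCartanMatrix (MonoidAlgebra k G) C) (h' : IsCartanMatrix (MonoidAlgebra k H) C')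
    (σ : I ≃ I') (hσ : ∀ i j, C i j = C' (σ i) (σ j)) : SameCartan k G H := by
  refine ⟨Fintype.card I, Fintype.card I', _, _, h.reindex (Fintype.equivFin I).symm,
    h'.reindex (Fintype.equivFin I').symm,
    ((Fintype.equivFin I).symm.trans σ).trans (Fintype.equivFin I'), ?_⟩
  intro i j
  simp only [Equiv.trans_apply, Equiv.symm_apply_apply]
  exact hσ _ _

/-- **The two groups have the same Cartan matrix.** -/
theorem sameCartan (k : Type u) [Field k] [IsAlgClosed k] [CharP k 2] :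
    SameCartan k (Matrix.ProjectiveSpecialLinearGroup (Fin 2) (ZMod 967)) HH := by
  obtain ⟨ψ, hψ⟩ := exists_addChar (k := k) 967 (by decide)
  obtain ⟨ψ', hψ'⟩ := exists_addChar (k := k) 7 (by decide)
  obtain ⟨DG⟩ := G_data (setupG k ψ hψ) 241 rfl
  obtain ⟨DL⟩ := G_data (setupLL k ψ' hψ') 1 rfl
  obtain ⟨DH⟩ := H_data DL
  have hG := DG.isCartanMatrix
  have hH := DH.isCartanMatrix
  have h0 := isEmpty_reps_L k ψ' hψ'
  obtain ⟨m, hm⟩ := exists_match (R0 := (setupLL k ψ' hψ').reps) (card_reps_G k ψ hψ)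
  refine sameCartan_of hG hH ((Equiv.sumCongr (Equiv.refl _) m).trans
    (Equiv.sumAssoc _ _ _).symm) ?_
  intro i j
  rw [bigC_CC, Equiv.trans_apply, Equiv.trans_apply, Equiv.apply_symm_apply,
    Equiv.apply_symm_apply]
  classical
  exact (CC_congr wt (Sum.elim wt wH) m hm j i).trans (CC_inst _ _ _ _ _)

/-! ### the groups -/

lemma simple_PSL : IsSimpleGroup (Matrix.ProjectiveSpecialLinearGroup (Fin 2) (ZMod 967)) :=
  Matrix.ProjectiveSpecialLinearGroup.rank_two_simple (by rw [Nat.card_zmod]; norm_num)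

lemma nonabelian_PSL : ∃ a b : Matrix.ProjectiveSpecialLinearGroup (Fin 2) (ZMod 967),
    a * b ≠ b * a := by
  refine ⟨QuotientGroup.mk (u (1 : ZMod 967)), QuotientGroup.mk (n (1 : (ZMod 967)ˣ)), ?_⟩
  intro h
  rw [← QuotientGroup.mk_mul, ← QuotientGroup.mk_mul, QuotientGroup.eq, mem_center_SL2] at h
  have h2 : ∀ ε : Matrix (Fin 2) (Fin 2) (ZMod 967),
      ((u (1 : ZMod 967) * n (1 : (ZMod 967)ˣ))⁻¹ * (n (1 : (ZMod 967)ˣ) * u (1 : ZMod 967))).1 = ε →
      (n (1 : (ZMod 967)ˣ) * u (1 : ZMod 967)).1 = (u (1 : ZMod 967) * n (1 : (ZMod 967)ˣ)).1 * ε := by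
    intro ε hε
    rw [← hε, ← Matrix.SpecialLinearGroup.coe_mul, mul_inv_cancel_left]
  rcases h with h | h
  · have h3 := congrFun (congrFun (h2 _ h) 0) 0
    rw [mul_one, mul00, mul00, n00, u00, n01, u10, u01, n10] at h3
    simp at h3
  · have h3 := congrFun (congrFun (h2 _ h) 1) 0
    rw [mul_neg, mul_one, Matrix.neg_apply, mul10, mul10, n10, u00, n11, u10, n00, u11] at h3
    have h4 : (2 : ZMod 967) = 0 := by
      simp at h3
      linear_combination h3
    exact absurd h4 (by decide)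

lemma NN_nontrivial : Nontrivial NN := ⟨⟨⟨![1, 0, 0], 0⟩, 1, fun h => by
  have := congrArg NN.u h
  have h2 := congrFun this 0
  simp at h2⟩⟩

lemma not_simple_HH : ¬ IsSimpleGroup HH := by
  intro hs
  have h1 : (SemidirectProduct.rightHom (φ := phi.comp LL.subtype)).ker.Normal :=
    MonoidHom.normal_ker _
  have := NN_nontrivial
  rcases hs.eq_bot_or_eq_top_of_normal _ h1 with h | h
  · obtain ⟨x, hx⟩ := exists_ne (1 : NN)
    have h2 : (SemidirectProduct.inl x : HH) ∈
        (SemidirectProduct.rightHom (φ := phi.comp LL.subtype)).ker := by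
      rw [MonoidHom.mem_ker, SemidirectProduct.rightHom_inl]
    rw [h, Subgroup.mem_bot] at h2
    apply hx
    apply SemidirectProduct.inl_injective (φ := phi.comp LL.subtype)
    rw [h2, map_one]
  · have h2 : (SemidirectProduct.inr (⟨rho wS, wS, rfl⟩ : LL) : HH) ∈
        (SemidirectProduct.rightHom (φ := phi.comp LL.subtype)).ker := by
      rw [h]; exact Subgroup.mem_top _
    rw [MonoidHom.mem_ker, SemidirectProduct.rightHom_inr] at h2
    have h3 : rho wS = 1 := congrArg Subtype.val h2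
    rw [rho_ker] at h3
    rcases h3 with h3 | h3
    · have := congrArg (fun g : SL27 => g.1 1 0) h3
      simp [wS] at this
    · have := congrArg (fun g : SL27 => g.1 1 0) h3
      simp [wS] at this

lemma not_iso : IsEmpty (Matrix.ProjectiveSpecialLinearGroup (Fin 2) (ZMod 967) ≃* HH) := by
  refine ⟨fun f => not_simple_HH ?_⟩
  have := simple_PSL
  exact f.symm.isSimpleGroup

end Pool.Cartan73
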