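import Pool.Agent.Cartan73.Family3

/-! # Fullness: the unit lies in the ideal generated by the idempotents (helper73, MP_bea28b_al) -/

namespace Pool.Cartan73

open Matrix MonoidAlgebra

attribute [local instance 10000] Fintype.ofFinite

variable {k : Type*} [Field k]

/-- elements of `k[N]` inside `k[H]` -/
noncomputable def Sf (φ : NN → k) : MonoidAlgebra k HH :=
  ∑ n : NN, single (SemidirectProduct.inl n : HH) (φ n)

lemma Sf_sum {ι : Type*} (s : Finset ι) (φ : ι → NN → k) :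
    ∑ i ∈ s, Sf (φ i) = Sf (fun n => ∑ i ∈ s, φ i n) := by
  unfold Sf
  rw [Finset.sum_comm]
  refine Finset.sum_congr rfl (fun n _ => ?_)
  exact (map_sum (singleAddHom (R := k) (SemidirectProduct.inl n : HH)) (fun i => φ i n) s).symm

lemma Sf_one_point : Sf (k := k) (fun n => if n = 1 then 1 else 0) = 1 := by
  unfold Sf
  rw [Finset.sum_eq_single (1 : NN)]
  · simp only [if_true, map_one]; rfl
  · intro n _ hn
    simp only [if_neg hn, MonoidAlgebra.single_zero]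
  · intro h; exact absurd (Finset.mem_univ _) h

lemma Sf_conj (h : HH) (e : NN ≃ NN)
    (he : ∀ n : NN, h * SemidirectProduct.inl n * h⁻¹ = SemidirectProduct.inl (e n)) (φ : NN → k) :
    single h (1 : k) * Sf φ * single h⁻¹ (1 : k) = Sf (fun n => φ (e.symm n)) := by
  unfold Sf
  rw [Finset.mul_sum, Finset.sum_mul]
  refine Fintype.sum_equiv e _ _ ?_
  intro n
  simp only [single_mul_single, he, Equiv.symm_apply_apply, one_mul, mul_one]

/-- the idempotent of a pair as a sum over `N` -/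
lemma mkPair_f (ψ : AddChar (ZMod 11) k) (w α σ : V3)
    (hσ : ∀ u u' : V3, w ⬝ᵥ u = 0 → w ⬝ᵥ u' = 0 → σ ⬝ᵥ (u ⨯₃ u') = 0) :
    (mkPair ψ w α σ hσ).f
      = Sf (fun n => if w ⬝ᵥ n.u = 0 then ψ (-(α ⬝ᵥ n.u + σ ⬝ᵥ n.z)) else 0) := by
  unfold LinPair.f Sf
  have h1 : (∑ n : NN, single (SemidirectProduct.inl n : HH)
        (if w ⬝ᵥ n.u = 0 then ψ (-(α ⬝ᵥ n.u + σ ⬝ᵥ n.z)) else 0))
      = ∑ n : {n : NN // w ⬝ᵥ n.u = 0}, single (SemidirectProduct.inl n.1 : HH)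
        (ψ (-(α ⬝ᵥ n.1.u + σ ⬝ᵥ n.1.z))) := by
    symm
    have h2 : ∀ n : NN, single (SemidirectProduct.inl n : HH)
        (if w ⬝ᵥ n.u = 0 then ψ (-(α ⬝ᵥ n.u + σ ⬝ᵥ n.z)) else 0)
        = if w ⬝ᵥ n.u = 0 then single (SemidirectProduct.inl n : HH)
          (ψ (-(α ⬝ᵥ n.u + σ ⬝ᵥ n.z))) else 0 := by
      intro n; split_ifs
      · rfl
      · exact MonoidAlgebra.single_zero _
    rw [Finset.sum_congr rfl (fun n _ => h2 n), ← Finset.sum_filter]
    refine (Finset.sum_subtype (Finset.univ.filter (fun n : NN => w ⬝ᵥ n.u = 0)) ?_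
      (fun n => single (SemidirectProduct.inl n : HH) (ψ (-(α ⬝ᵥ n.u + σ ⬝ᵥ n.z))))).symm
    intro n; simp
  rw [h1]
  let e : (mkPair ψ w α σ hσ).A ≃ {n : NN // w ⬝ᵥ n.u = 0} :=
    { toFun := fun a => ⟨a.1.left, a.2.2⟩
      invFun := fun n => ⟨⟨n.1, 1⟩, rfl, n.2⟩
      left_inv := by
        rintro ⟨⟨n, l⟩, hl, hn⟩
        apply Subtype.ext
        apply SemidirectProduct.ext
        · rfl
        · exact hl.symm
      right_inv := fun n => rfl }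
  refine Fintype.sum_equiv e _ _ ?_
  rintro ⟨⟨n, l⟩, hl, hn⟩
  simp only at hl hn
  subst hl
  have e1 : (mkPair ψ w α σ hσ).lam (⟨⟨n, 1⟩, rfl, hn⟩ : (mkPair ψ w α σ hσ).A)⁻¹
      = ψ (-(α ⬝ᵥ n.u + σ ⬝ᵥ n.z)) := by
    have : ((⟨⟨n, 1⟩, rfl, hn⟩ : (mkPair ψ w α σ hσ).A)⁻¹ : HH).left = n⁻¹ := by
      change ((⟨n, 1⟩ : HH)⁻¹).left = n⁻¹
      rw [SemidirectProduct.inv_left]
      change phi.comp LL.subtype (1 : LL)⁻¹ n⁻¹ = n⁻¹
      rw [inv_one, map_one, MulAut.one_apply]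
    change ψ (α ⬝ᵥ (((⟨⟨n, 1⟩, rfl, hn⟩ : (mkPair ψ w α σ hσ).A)⁻¹ : HH).left).u
      + σ ⬝ᵥ (((⟨⟨n, 1⟩, rfl, hn⟩ : (mkPair ψ w α σ hσ).A)⁻¹ : HH).left).z) = _
    rw [this, NN.inv_u, NN.inv_z, dotProduct_neg, dotProduct_neg, ← neg_add]
  rw [e1]
  rfl

/-- sum of a character over vectors -/
lemma sum_char [CharP k 2] (ψ : AddChar (ZMod 11) k) (hψ : ∀ x, ψ x = 1 → x = 0) (z : V3) :
    ∑ σ : V3, ψ (-(σ ⬝ᵥ z)) = if z = 0 then 1 else 0 := by
  split_ifs with hz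
  · subst hz
    have : ∀ σ : V3, ψ (-(σ ⬝ᵥ (0 : V3))) = 1 := by intro σ; simp
    rw [Finset.sum_congr rfl (fun σ _ => this σ), Finset.sum_const, Finset.card_univ,
      nsmul_eq_mul, mul_one]
    apply LinPair.cast_odd
    rw [← Nat.card_eq_fintype_card, Nat.card_fun, Nat.card_zmod, Nat.card_fin]; decide
  · obtain ⟨u, hu⟩ := exists_dot_ne hz
    have h1 : ∑ σ : V3, ψ (-(σ ⬝ᵥ z)) = ψ (-(u ⬝ᵥ z)) * ∑ σ : V3, ψ (-(σ ⬝ᵥ z)) := by
      rw [Finset.mul_sum]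
      refine Fintype.sum_equiv (Equiv.subRight u) _ _ ?_
      intro σ
      rw [← AddChar.map_add_eq_mul, Equiv.subRight_apply, sub_dotProduct]
      congr 1; ring
    have h2 : ψ (-(u ⬝ᵥ z)) ≠ 1 := by
      intro h
      have h3 := hψ _ h
      rw [neg_eq_zero, dotProduct_comm] at h3
      exact hu h3
    have h4 : (1 - ψ (-(u ⬝ᵥ z))) * ∑ σ : V3, ψ (-(σ ⬝ᵥ z)) = 0 := by
      rw [sub_mul, one_mul, ← h1, sub_self]
    exact (mul_eq_zero.mp h4).resolve_left (sub_ne_zero.mpr h2.symm)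

/-- sum of a character over scalars -/
lemma sum_char1 [CharP k 2] (ψ : AddChar (ZMod 11) k) (hψ : ∀ x, ψ x = 1 → x = 0) (z : ZMod 11) :
    ∑ c : ZMod 11, ψ (-(c * z)) = if z = 0 then 1 else 0 := by
  split_ifs with hz
  · subst hz
    have : ∀ c : ZMod 11, ψ (-(c * 0)) = 1 := by intro σ; simp
    rw [Finset.sum_congr rfl (fun σ _ => this σ), Finset.sum_const, Finset.card_univ,
      nsmul_eq_mul, mul_one]
    apply LinPair.cast_odd
    rw [ZMod.card]; decide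
  · have h1 : ∑ c : ZMod 11, ψ (-(c * z)) = ψ (-z) * ∑ c : ZMod 11, ψ (-(c * z)) := by
      rw [Finset.mul_sum]
      refine Fintype.sum_equiv (Equiv.subRight (1 : ZMod 11)) _ _ ?_
      intro σ
      rw [← AddChar.map_add_eq_mul, Equiv.subRight_apply]
      congr 1; ring
    have h2 : ψ (-z) ≠ 1 := by
      intro h
      have h3 := hψ _ h
      exact hz (neg_eq_zero.mp h3)
    have h4 : (1 - ψ (-z)) * ∑ c : ZMod 11, ψ (-(c * z)) = 0 := by
      rw [sub_mul, one_mul, ← h1, sub_self]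
    exact (mul_eq_zero.mp h4).resolve_left (sub_ne_zero.mpr h2.symm)

/-- idempotents of central characters -/
noncomputable def eS (ψ : AddChar (ZMod 11) k) (σ : V3) : MonoidAlgebra k HH :=
  Sf (fun n => if n.u = 0 then ψ (-(σ ⬝ᵥ n.z)) else 0)

lemma sum_eS [CharP k 2] (ψ : AddChar (ZMod 11) k) (hψ : ∀ x, ψ x = 1 → x = 0) :
    ∑ σ : V3, eS ψ σ = 1 := by
  unfold eS
  rw [Sf_sum, ← Sf_one_point]
  congr 1
  funext n
  by_cases hu : n.u = 0
  · simp only [if_pos hu]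
    rw [sum_char ψ hψ]
    by_cases hz : n.z = 0
    · rw [if_pos hz, if_pos]
      ext1
      · exact hu
      · exact hz
    · rw [if_neg hz, if_neg]
      rintro rfl; exact hz rfl
  · simp only [if_neg hu, Finset.sum_const_zero]
    rw [if_neg]
    rintro rfl; exact hu rfl

/-- action of `L` on `N` as an equivalence -/
def eL (l : LL) : NN ≃ NN := (phi (l : SL3)).toEquiv

lemma eL_spec (l : LL) (n : NN) : (SemidirectProduct.inr l : HH) * SemidirectProduct.inl n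
    * (SemidirectProduct.inr l : HH)⁻¹ = SemidirectProduct.inl (eL l n) := by
  have h := SemidirectProduct.inl_aut (φ := phi.comp LL.subtype) l n
  rw [map_inv] at h
  exact h.symm

lemma eL_symm_u (l : LL) (n : NN) : ((eL l).symm n).u = mt l⁻¹ *ᵥ n.u := rfl
lemma eL_symm_z (l : LL) (n : NN) : ((eL l).symm n).z = dual (mt l⁻¹) *ᵥ n.z := rfl

lemma mt_inv_eq_zero (l : LL) (u : V3) : mt l *ᵥ u = 0 ↔ u = 0 := by
  constructor
  · intro h
    have h2 : u = mt l⁻¹ *ᵥ (mt l *ᵥ u) := by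
      rw [mulVec_mulVec, ← mt_mul, inv_mul_cancel, mt_one, one_mulVec]
    rw [h2, h, mulVec_zero]
  · rintro rfl; rw [mulVec_zero]

lemma eS_conj (ψ : AddChar (ZMod 11) k) (σ : V3) (l : LL) :
    single (SemidirectProduct.inr l : HH) (1 : k) * eS ψ σ
      * single (SemidirectProduct.inr l : HH)⁻¹ (1 : k) = eS ψ (mt l *ᵥ σ) := by
  rw [eS, Sf_conj _ (eL l) (eL_spec l), eS]
  congr 1
  funext n
  rw [eL_symm_u, eL_symm_z]
  by_cases hu : n.u = 0
  · rw [if_pos ((mt_inv_eq_zero _ _).mpr hu), if_pos hu]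
    congr 2
    -- σ · (dual (M⁻¹) z) = (M σ) · z
    have h := L2' l⁻¹ σ (mt l *ᵥ σ) (by
      rw [mulVec_mulVec, ← mt_mul, inv_mul_cancel, mt_one, one_mulVec]) n.z
    exact h
  · rw [if_neg (fun h => hu ((mt_inv_eq_zero _ _).mp h)), if_neg hu]

/-- the linear idempotents -/
noncomputable def fL (ψ : AddChar (ZMod 11) k) (α : V3) : MonoidAlgebra k HH :=
  Sf (fun n => ψ (-(α ⬝ᵥ n.u)))

lemma fL_conj (ψ : AddChar (ZMod 11) k) (α : V3) (l : LL) :
    single (SemidirectProduct.inr l : HH) (1 : k) * fL ψ α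
      * single (SemidirectProduct.inr l : HH)⁻¹ (1 : k) = fL ψ (dual (mt l) *ᵥ α) := by
  rw [fL, Sf_conj _ (eL l) (eL_spec l), fL]
  congr 1
  funext n
  rw [eL_symm_u]
  congr 2
  have h := L1' l⁻¹ α (dual (mt l) *ᵥ α) (by
      rw [mulVec_mulVec, ← dual_mul, ← mt_mul, inv_mul_cancel, mt_one, dual_one, one_mulVec]) n.u
  exact h

lemma sum_fL [CharP k 2] (ψ : AddChar (ZMod 11) k) (hψ : ∀ x, ψ x = 1 → x = 0) :
    ∑ α : V3, fL ψ α = eS ψ 0 := by
  unfold fL eS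
  rw [Sf_sum]
  congr 1
  funext n
  rw [sum_char ψ hψ]
  simp

/-- the non-linear idempotents -/
noncomputable def fN (ψ : AddChar (ZMod 11) k) (a : Fin 3) (α σ : V3) : MonoidAlgebra k HH :=
  Sf (fun n => if wU a ⬝ᵥ n.u = 0 then ψ (-(α ⬝ᵥ n.u + σ ⬝ᵥ n.z)) else 0)

lemma sum_fN [CharP k 2] (ψ : AddChar (ZMod 11) k) (hψ : ∀ x, ψ x = 1 → x = 0) (a : Fin 3)
    (σ : V3) : ∑ c : ZMod 11, ∑ d : ZMod 11, fN ψ a (c • xU a + d • yU a) σ = eS ψ σ := by
  unfold fN eS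
  have h0 : ∀ c : ZMod 11, ∑ d : ZMod 11, Sf (fun n => if wU a ⬝ᵥ n.u = 0 then
      ψ (-((c • xU a + d • yU a) ⬝ᵥ n.u + σ ⬝ᵥ n.z)) else 0)
      = Sf (fun n => ∑ d : ZMod 11, if wU a ⬝ᵥ n.u = 0 then
      ψ (-((c • xU a + d • yU a) ⬝ᵥ n.u + σ ⬝ᵥ n.z)) else 0) := fun c => Sf_sum _ _
  rw [Finset.sum_congr rfl (fun c _ => h0 c), Sf_sum]
  congr 1
  funext n
  by_cases hw : wU a ⬝ᵥ n.u = 0
  · simp only [if_pos hw]
    have h1 : ∀ c d : ZMod 11, ψ (-((c • xU a + d • yU a) ⬝ᵥ n.u + σ ⬝ᵥ n.z))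
        = ψ (-(σ ⬝ᵥ n.z)) * (ψ (-(c * (xU a ⬝ᵥ n.u))) * ψ (-(d * (yU a ⬝ᵥ n.u)))) := by
      intro c d
      rw [← AddChar.map_add_eq_mul, ← AddChar.map_add_eq_mul, add_dotProduct, smul_dotProduct,
        smul_dotProduct]
      congr 1
      simp only [smul_eq_mul]; ring
    simp only [h1, ← Finset.mul_sum, ← Finset.sum_mul]
    rw [sum_char1 ψ hψ, sum_char1 ψ hψ]
    by_cases hu : n.u = 0
    · rw [if_pos hu, hu, dotProduct_zero, dotProduct_zero, if_pos rfl]; ring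
    · rw [if_neg hu]
      by_cases hx : xU a ⬝ᵥ n.u = 0
      · by_cases hy : yU a ⬝ᵥ n.u = 0
        · exfalso; apply hu
          have := expand a n.u
          rw [hx, hy, hw, zero_smul, zero_smul, zero_smul, add_zero, add_zero] at this
          exact this
        · rw [if_neg hy]; ring
      · rw [if_neg hx]; ring
  · simp only [if_neg hw, Finset.sum_const_zero]
    rw [if_neg]
    intro h; apply hw; rw [h, dotProduct_zero]

end Pool.Cartan73
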