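import Pool.Agent.Cartan73.Full

/-! # Fullness, conclusion (helper73, MP_bea28b_al) -/

namespace Pool.Cartan73

open Matrix MonoidAlgebra

attribute [local instance 10000] Fintype.ofFinite

variable {k : Type*} [Field k]

lemma eN_eq [CharP k 2] (ψ : AddChar (ZMod 11) k) : eN k splitOdd = fL ψ 0 := by
  rw [eN_def, fL, Sf]
  let e : (trivPair k splitOdd).A ≃ NN :=
    { toFun := fun a => a.1.left
      invFun := fun n => ⟨SemidirectProduct.inl n, by
        change piH (SemidirectProduct.inl n) = 1; simp⟩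
      left_inv := by
        rintro ⟨⟨n, l⟩, hl⟩
        have hl' : l = 1 := hl
        subst hl'
        rfl
      right_inv := fun n => rfl }
  refine Fintype.sum_equiv e _ _ ?_
  rintro ⟨⟨n, l⟩, hl⟩
  have hl' : l = 1 := hl
  subst hl'
  simp only [zero_dotProduct, neg_zero, AddChar.map_zero_eq_one]
  rfl

lemma PF_none (ψ : AddChar (ZMod 11) k) (t : Fin 5) (a : Fin 3) :
    (PF ψ (t, none) a).f = fL ψ (tt t • vD a) := by
  rw [PF, mkPair_f, fL]
  congr 1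
  funext n
  simp [wF, sF, aF]

lemma PF_some (ψ : AddChar (ZMod 11) k) (t : Fin 5) (c : ZMod 11) (a : Fin 3) :
    (PF ψ (t, some c) a).f = fN ψ a (c • xU a) (tt t • vU a) := by
  rw [PF, mkPair_f, fN]
  rfl

/-- conjugation by elements of `N` -/
def eM (y : V3) : NN ≃ NN where
  toFun n := ⟨n.u, n.z + (2 : ZMod 11) • (y ⨯₃ n.u)⟩
  invFun n := ⟨n.u, n.z - (2 : ZMod 11) • (y ⨯₃ n.u)⟩
  left_inv := by
    rintro ⟨u, z⟩
    ext1
    · rfl
    · change z + (2 : ZMod 11) • (y ⨯₃ u) - (2 : ZMod 11) • (y ⨯₃ u) = z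
      rw [add_sub_cancel_right]
  right_inv := by
    rintro ⟨u, z⟩
    ext1
    · rfl
    · change z - (2 : ZMod 11) • (y ⨯₃ u) + (2 : ZMod 11) • (y ⨯₃ u) = z
      rw [sub_add_cancel]

lemma eM_spec (y : V3) (n : NN) : (⟨⟨y, 0⟩, 1⟩ : HH) * SemidirectProduct.inl n
    * (⟨⟨y, 0⟩, 1⟩ : HH)⁻¹ = SemidirectProduct.inl (eM y n) := by
  rw [mul_inv_eq_iff_eq_mul]
  have h := conj_eq (⟨⟨y, 0⟩, 1⟩ : HH) n.u n.z
  simp only [mt_one, dual_one, one_mulVec] at h
  exact h.symm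

lemma cross_q (a : Fin 3) (u : V3) (hu : wU a ⬝ᵥ u = 0) :
    vU a ⬝ᵥ (qU a ⨯₃ u) = - ((yU a ⬝ᵥ u) * (vU a ⬝ᵥ (pU a ⨯₃ qU a))) := by
  have h10 : (10 : ZMod 11) = -1 := by decide
  have h9 : (9 : ZMod 11) = -2 := by decide
  fin_cases a
  · simp only [wU, vU, pU, qU, yU, dotProduct, Fin.sum_univ_three, cross_apply] at *
    simp at *
  · simp only [wU, vU, pU, qU, yU, dotProduct, Fin.sum_univ_three, cross_apply, h10] at *
    simp at *
    try linear_combination hu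
  · simp only [wU, vU, pU, qU, yU, dotProduct, Fin.sum_univ_three, cross_apply, h9] at *
    simp at *
    try linear_combination hu

lemma fN_conj (ψ : AddChar (ZMod 11) k) (a : Fin 3) (t : Fin 5) (c d : ZMod 11) :
    ∃ h : HH, single h (1 : k) * fN ψ a (c • xU a) (tt t • vU a) * single h⁻¹ (1 : k)
      = fN ψ a (c • xU a + d • yU a) (tt t • vU a) := by
  let s : ZMod 11 := d * (2 * tt t * (vU a ⬝ᵥ (pU a ⨯₃ qU a)))⁻¹
  refine ⟨⟨⟨s • qU a, 0⟩, 1⟩, ?_⟩
  rw [fN, Sf_conj _ (eM (s • qU a)) (eM_spec _), fN]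
  congr 1
  funext n
  change (if wU a ⬝ᵥ n.u = 0 then ψ (-((c • xU a) ⬝ᵥ n.u + (tt t • vU a) ⬝ᵥ
    (n.z - (2 : ZMod 11) • ((s • qU a) ⨯₃ n.u)))) else 0) = _
  by_cases hw : wU a ⬝ᵥ n.u = 0
  · rw [if_pos hw, if_pos hw]
    congr 2
    have h1 := cross_q a n.u hw
    have h2 : (tt t • vU a) ⬝ᵥ ((2 : ZMod 11) • ((s • qU a) ⨯₃ n.u)) = - (d * (yU a ⬝ᵥ n.u)) := by
      rw [map_smul, LinearMap.smul_apply, dotProduct_smul, dotProduct_smul, smul_dotProduct, h1]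
      simp only [smul_eq_mul, s]
      have e1 := vol_ne a
      have e2 := tt_ne t
      have e3 : (2 : ZMod 11) ≠ 0 := by decide
      field_simp
    rw [dotProduct_sub, h2, add_dotProduct, smul_dotProduct d, smul_eq_mul]
    ring
  · rw [if_neg hw, if_neg hw]

theorem full_all [CharP k 2] (ψ : AddChar (ZMod 11) k) (hψ : ∀ x, ψ x = 1 → x = 0)
    (J : Submodule k (MonoidAlgebra k HH)) (hJ : ∀ x ∈ J, ∀ c d, c * x * d ∈ J)
    (h0 : eN k splitOdd ∈ J) (hP : ∀ κ a, (PF ψ κ a).f ∈ J) : (1 : MonoidAlgebra k HH) ∈ J := by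
  have hL : ∀ α, fL ψ α ∈ J := by
    intro α
    by_cases hα : α = 0
    · rw [hα, ← eN_eq]; exact h0
    · obtain ⟨a, t, l, rfl⟩ := coverD α hα
      rw [← fL_conj]
      apply hJ
      rw [← PF_none]
      exact hP _ _
  have hS0 : eS ψ 0 ∈ J := by
    rw [← sum_fL ψ hψ]
    exact Submodule.sum_mem _ (fun α _ => hL α)
  have hN : ∀ (a : Fin 3) (t : Fin 5) (c d : ZMod 11), fN ψ a (c • xU a + d • yU a) (tt t • vU a) ∈ J := by
    intro a t c d
    obtain ⟨h, hh⟩ := fN_conj ψ a t c d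
    rw [← hh]
    apply hJ
    rw [← PF_some]
    exact hP _ _
  have hS1 : ∀ a t, eS ψ (tt t • vU a) ∈ J := by
    intro a t
    rw [← sum_fN ψ hψ a]
    exact Submodule.sum_mem _ (fun c _ => Submodule.sum_mem _ (fun d _ => hN a t c d))
  have hS : ∀ σ, eS ψ σ ∈ J := by
    intro σ
    by_cases hσ : σ = 0
    · rw [hσ]; exact hS0
    · obtain ⟨a, t, l, rfl⟩ := coverU σ hσ
      rw [← eS_conj]
      exact hJ _ (hS1 a t) _ _
  rw [← sum_eS ψ hψ]
  exact Submodule.sum_mem _ (fun σ _ => hS σ)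

/-- the additive character -/
lemma exists_psi [IsAlgClosed k] [CharP k 2] :
    ∃ ψ : AddChar (ZMod 11) k, ∀ x, ψ x = 1 → x = 0 := by
  have : NeZero ((11 : ℕ) : k) := by
    refine ⟨?_⟩
    have h : ((11 : ℕ) : k) = 1 := LinPair.cast_odd (by decide)
    rw [h]; exact one_ne_zero
  obtain ⟨z, hz⟩ := HasEnoughRootsOfUnity.exists_primitiveRoot k 11
  refine ⟨AddChar.zmodChar 11 hz.pow_eq_one, ?_⟩
  intro x hx
  rw [AddChar.zmodChar_apply] at hx
  have h2 := hz.dvd_of_pow_eq_one _ hx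
  have h3 := Nat.eq_zero_of_dvd_of_lt h2 (ZMod.val_lt x)
  exact (ZMod.val_eq_zero x).mp h3

/-- **The H side**: idempotent data for `k[H]` from idempotent data for `k[L]`. -/
theorem H_data [IsAlgClosed k] [CharP k 2] {I : Type*} {C : I → I → ℕ}
    (D7 : IdemData k (MonoidAlgebra k LL) I C) :
    Nonempty (IdemData k (MonoidAlgebra k HH) (I ⊕ (KK ⊕ (KK × Fin 3) ⊕ KK)) (bigC C)) := by
  obtain ⟨ψ, hψ⟩ := exists_psi (k := k)
  exact assemble splitOdd D7 (PF ψ) gF (cornerData ψ hψ) (orth_all ψ hψ) (ntriv_all ψ hψ)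
    (full_all ψ hψ)

end Pool.Cartan73
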