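import Pool.Agent.Cartan73.Borel4

/-! # The G side: assembling the idempotent data of `k[PSL(2,q)]` (helper73, MP_bea28b_al) -/

set_option linter.unusedSectionVars false

open Matrix Finset Cartan76

namespace Pool.Cartan73
namespace Borel

variable {F k G : Type*} [Field F] [Fintype F] [DecidableEq F] [Field k] [CharP k 2] [Group G]

/-- the `3 × 3` block -/
def C3 : Fin 3 → Fin 3 → ℕ := ![![2, 1, 1], ![1, 3, 2], ![1, 2, 3]]

/-- the Cartan matrix: the `3 × 3` block and a diagonal block with entries `w` -/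
def CC {J : Type*} [DecidableEq J] (w : J → ℕ) : Fin 3 ⊕ J → Fin 3 ⊕ J → ℕ
  | Sum.inl a, Sum.inl b => C3 a b
  | Sum.inr a, Sum.inr b => if a = b then w a else 0
  | _, _ => 0

lemma CC_rows {J : Type*} [DecidableEq J] (w : J → ℕ) (hw : ∀ j, w j ≠ 0) (i j : Fin 3 ⊕ J)
    (h : ∀ l, CC w i l = CC w j l) : i = j := by
  rcases i with i | i <;> rcases j with j | j
  · congr 1
    have h0 := h (Sum.inl 0)
    have h1 := h (Sum.inl 1)
    have h2 := h (Sum.inl 2)
    simp only [CC] at h0 h1 h2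
    fin_cases i <;> fin_cases j <;> first | rfl | (simp [C3] at h0 h1 h2)
  · have h1 := h (Sum.inr j)
    simp only [CC, if_true] at h1
    exact absurd h1.symm (hw j)
  · have h1 := h (Sum.inr i)
    simp only [CC, if_true] at h1
    exact absurd h1 (hw i)
  · have h1 := h (Sum.inr i)
    simp only [CC, if_true] at h1
    by_cases hij : j = i
    · rw [hij]
    · rw [if_neg hij] at h1
      exact absurd h1 (hw i)

/-- the weights -/
def wt {T L : Type*} : T ⊕ L → ℕ
  | Sum.inl _ => 4
  | Sum.inr _ => 1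

/-- The facts about the Gelfand–Graev corner that are needed. -/
structure EPart (S : Setup F k G) {N : ℕ} (Γ : GenChar F k N) (r : ℕ) (T : Type*)
    [Fintype T] where
  ε : T → F → MonoidAlgebra k G
  e_ε : ∀ m α, α * α = 1 → S.e α * ε m α = ε m α
  ε_e : ∀ m α, α * α = 1 → ε m α * S.e α = ε m α
  idem : ∀ m, ε m 1 * ε m 1 = ε m 1
  ne : ∀ m, ε m 1 ≠ 0
  loc : ∀ m x, ∃ c : k, IsNilpotent (ε m 1 * x * ε m 1 - c • ε m 1)
  dim : ∀ m, dm k (ε m 1) (ε m 1) = 4
  orth : ∀ m m', m ≠ m' → dm k (ε m 1) (ε m' 1) = 0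
  x_ε : ∀ (X : TChar F k) m α, α * α = 1 → xx S X α * ε m α = 0
  ε_y : ∀ (X : TChar F k) m α, α * α = 1 → ε m α * yy S X α = 0
  equi : ∀ m, ∃ u v, ε m (-1) = u * ε m 1 * v
  om_idem : ∀ α, α * α = 1 → (S.e α - ∑ m, ε m α - ss S Γ r α) * (S.e α - ∑ m, ε m α - ss S Γ r α)
    = (S.e α - ∑ m, ε m α - ss S Γ r α)
  om_ne : ∀ α, α * α = 1 → (S.e α - ∑ m, ε m α - ss S Γ r α) ≠ 0
  om_loc : ∀ α, α * α = 1 → ∀ x, ∃ c : k,
    IsNilpotent ((S.e α - ∑ m, ε m α - ss S Γ r α) * x * (S.e α - ∑ m, ε m α - ss S Γ r α)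
      - c • (S.e α - ∑ m, ε m α - ss S Γ r α))
  om_dim : ∀ α, α * α = 1 →
    dm k (S.e α - ∑ m, ε m α - ss S Γ r α) (S.e α - ∑ m, ε m α - ss S Γ r α) = 3
  om_dim' : ∀ α, α * α = 1 →
    dm k (S.e α - ∑ m, ε m α - ss S Γ r α) (S.e (-α) - ∑ m, ε m (-α) - ss S Γ r (-α)) = 2
  om_ε : ∀ α, α * α = 1 → ∀ m, dm k (S.e α - ∑ m, ε m α - ss S Γ r α) (ε m 1) = 0
  ε_om : ∀ α, α * α = 1 → ∀ m, dm k (ε m 1) (S.e α - ∑ m, ε m α - ss S Γ r α) = 0

variable {S : Setup F k G} {N : ℕ} {Γ : GenChar F k N} {r : ℕ} {T : Type*} [Fintype T]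
variable (E : EPart S Γ r T)

/-- the principal idempotents -/
noncomputable def EPart.om (α : F) : MonoidAlgebra k G := S.e α - ∑ m, E.ε m α - ss S Γ r α

/-- the complete family of idempotents -/
noncomputable def EPart.fam : Fin 3 ⊕ (T ⊕ Fin r) → MonoidAlgebra k G
  | Sum.inl 0 => B S TChar.one
  | Sum.inl 1 => E.om 1
  | Sum.inl 2 => E.om (-1)
  | Sum.inr (Sum.inl m) => E.ε m 1
  | Sum.inr (Sum.inr i) => B S (lam Γ r i)

lemma EPart.e_om {α : F} (hα : α * α = 1) : S.e α * E.om α = E.om α := by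
  rw [om, mul_sub, mul_sub, S.e_idem, e_ss, Finset.mul_sum]
  congr 2
  exact Finset.sum_congr rfl (fun m _ => E.e_ε m α hα)

lemma EPart.om_e {α : F} (hα : α * α = 1) : E.om α * S.e α = E.om α := by
  rw [om, sub_mul, sub_mul, S.e_idem, ss_e, Finset.sum_mul]
  congr 2
  exact Finset.sum_congr rfl (fun m _ => E.ε_e m α hα)

section
variable (hr : N = 2 * r + 1)
include hr

lemma EPart.xx_one_om {α : F} (hα : α * α = 1) : xx S TChar.one α * E.om α = xx S TChar.one α := by
  rw [om, mul_sub, mul_sub, xx_e, xx_one_ss S Γ hr, Finset.mul_sum,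
    Finset.sum_eq_zero (fun m _ => E.x_ε _ m α hα), sub_zero, sub_zero]

lemma EPart.om_yy_one {α : F} (hα : α * α = 1) : E.om α * yy S TChar.one α = yy S TChar.one α := by
  rw [om, sub_mul, sub_mul, e_yy, ss_yy_one S Γ hr, Finset.sum_mul,
    Finset.sum_eq_zero (fun m _ => E.ε_y _ m α hα), sub_zero, sub_zero]

lemma EPart.xx_lam_om {α : F} (hα : α * α = 1) (i : Fin r) :
    xx S (lam Γ r i) α * E.om α = 0 := by
  rw [om, mul_sub, mul_sub, xx_e, xx_lam_ss S Γ hr, Finset.mul_sum,
    Finset.sum_eq_zero (fun m _ => E.x_ε _ m α hα), sub_zero, sub_self]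

lemma EPart.om_yy_lam {α : F} (hα : α * α = 1) (i : Fin r) :
    E.om α * yy S (lam Γ r i) α = 0 := by
  rw [om, sub_mul, sub_mul, e_yy, ss_yy_lam S Γ hr, Finset.sum_mul,
    Finset.sum_eq_zero (fun m _ => E.ε_y _ m α hα), sub_zero, sub_self]

end

omit [Fintype T] in
lemma xx_one_ne {α : F} (hα : α * α = 1) : xx S TChar.one α ≠ 0 := by
  intro h
  have := yy_xx_one S α hα
  rw [h, mul_zero] at this
  exact z_ne S α this.symm

omit [Fintype T] in
lemma yy_one_ne {α : F} (hα : α * α = 1) : yy S TChar.one α ≠ 0 := by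
  intro h
  have := yy_xx_one S α hα
  rw [h, zero_mul] at this
  exact z_ne S α this.symm

section
variable (hr : N = 2 * r + 1)
include hr

lemma EPart.dm_B_om {α : F} (hα : α * α = 1) : dm k (B S TChar.one) (E.om α) = 1 := by
  unfold dm
  have : LinearMap.range (sand (k := k) (B S TChar.one) (E.om α))
      = Submodule.span k {xx S TChar.one α} := by
    apply le_antisymm
    · rintro _ ⟨x, rfl⟩
      rw [sand_apply, ← E.e_om hα, ← mul_assoc]
      obtain ⟨c, hc⟩ := B_e_mem S TChar.one (alpha_ne hα) x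
      rw [hc, smul_mul_assoc, E.xx_one_om hr hα]
      exact Submodule.smul_mem _ _ (Submodule.subset_span rfl)
    · rw [Submodule.span_le]
      rintro _ rfl
      exact ⟨xx S TChar.one α, by rw [sand_apply, B_xx, E.xx_one_om hr hα]⟩
  rw [this, finrank_span_singleton (xx_one_ne hα)]

lemma EPart.dm_om_B {α : F} (hα : α * α = 1) : dm k (E.om α) (B S TChar.one) = 1 := by
  unfold dm
  have : LinearMap.range (sand (k := k) (E.om α) (B S TChar.one))
      = Submodule.span k {yy S TChar.one α} := by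
    apply le_antisymm
    · rintro _ ⟨x, rfl⟩
      rw [sand_apply, ← E.om_e hα]
      obtain ⟨c, hc⟩ := e_B_mem S TChar.one (alpha_ne hα) x
      rw [mul_assoc, mul_assoc, ← mul_assoc (S.e α), hc, mul_smul_comm, E.om_yy_one hr hα]
      exact Submodule.smul_mem _ _ (Submodule.subset_span rfl)
    · rw [Submodule.span_le]
      rintro _ rfl
      exact ⟨yy S TChar.one α, by rw [sand_apply, mul_assoc, yy_B, E.om_yy_one hr hα]⟩
  rw [this, finrank_span_singleton (yy_one_ne hα)]

lemma EPart.dm_lam_om {α : F} (hα : α * α = 1) (i : Fin r) :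
    dm k (B S (lam Γ r i)) (E.om α) = 0 := by
  apply dm_zero_of
  intro x
  rw [← E.e_om hα, ← mul_assoc]
  obtain ⟨c, hc⟩ := B_e_mem S (lam Γ r i) (alpha_ne hα) x
  rw [hc, smul_mul_assoc, E.xx_lam_om hr hα, smul_zero]

lemma EPart.dm_om_lam {α : F} (hα : α * α = 1) (i : Fin r) :
    dm k (E.om α) (B S (lam Γ r i)) = 0 := by
  apply dm_zero_of
  intro x
  rw [← E.om_e hα]
  obtain ⟨c, hc⟩ := e_B_mem S (lam Γ r i) (alpha_ne hα) x
  rw [mul_assoc, mul_assoc, ← mul_assoc (S.e α), hc, mul_smul_comm, E.om_yy_lam hr hα, smul_zero]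

end

lemma EPart.dm_B_ε (X : TChar F k) (m : T) : dm k (B S X) (E.ε m 1) = 0 := by
  apply dm_zero_of
  intro x
  rw [← E.e_ε m 1 (by ring), ← mul_assoc]
  obtain ⟨c, hc⟩ := B_e_mem S X (alpha_ne (F := F) (α := 1) (by ring)) x
  rw [hc, smul_mul_assoc, E.x_ε X m 1 (by ring), smul_zero]

lemma EPart.dm_ε_B (X : TChar F k) (m : T) : dm k (E.ε m 1) (B S X) = 0 := by
  apply dm_zero_of
  intro x
  rw [← E.ε_e m 1 (by ring)]
  obtain ⟨c, hc⟩ := e_B_mem S X (alpha_ne (F := F) (α := 1) (by ring)) x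
  rw [mul_assoc, mul_assoc, ← mul_assoc (S.e 1), hc, mul_smul_comm, E.ε_y X m 1 (by ring),
    smul_zero]

/-! ### fullness -/

/-- a two sided ideal, as a subspace -/
lemma span_left {A : Type*} [Ring A] [Algebra k A] {I : Type*} (f : I → A) (x y : A)
    (hx : x ∈ Submodule.span k {y | ∃ a i b, y = a * f i * b}) :
    y * x ∈ Submodule.span k {y | ∃ a i b, y = a * f i * b} := by
  induction hx using Submodule.span_induction with
  | mem z hz =>
    obtain ⟨a, i, b, rfl⟩ := hz
    exact Submodule.subset_span ⟨y * a, i, b, by simp only [mul_assoc]⟩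
  | zero => rw [mul_zero]; exact Submodule.zero_mem _
  | add u v _ _ hu hv => rw [mul_add]; exact Submodule.add_mem _ hu hv
  | smul c u _ hu => rw [mul_smul_comm]; exact Submodule.smul_mem _ _ hu

lemma span_right {A : Type*} [Ring A] [Algebra k A] {I : Type*} (f : I → A) (x y : A)
    (hx : x ∈ Submodule.span k {y | ∃ a i b, y = a * f i * b}) :
    x * y ∈ Submodule.span k {y | ∃ a i b, y = a * f i * b} := by
  induction hx using Submodule.span_induction with
  | mem z hz =>
    obtain ⟨a, i, b, rfl⟩ := hz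
    exact Submodule.subset_span ⟨a, i, b * y, by simp only [mul_assoc]⟩
  | zero => rw [zero_mul]; exact Submodule.zero_mem _
  | add u v _ _ hu hv => rw [add_mul]; exact Submodule.add_mem _ hu hv
  | smul c u _ hu => rw [smul_mul_assoc]; exact Submodule.smul_mem _ _ hu

lemma span_self {A : Type*} [Ring A] [Algebra k A] {I : Type*} (f : I → A) (i : I) :
    f i ∈ Submodule.span k {y | ∃ a i b, y = a * f i * b} :=
  Submodule.subset_span ⟨1, i, 1, by rw [one_mul, mul_one]⟩

/-- `e 0` is the sum of all the `B` -/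
lemma sum_B (S : Setup F k G) (Γ : GenChar F k N) (hN : N % 2 = 1) :
    ∑ j ∈ Finset.range N, B S (Γ.tc j) = S.e 0 := by
  unfold B
  rw [← Finset.sum_mul, Finset.sum_comm]
  have h1 : ∀ a ∈ Sq F, ∑ j ∈ Finset.range N, (((Γ.tc j).χ a)⁻¹ : kˣ).val • S.b (t a)
      = if a = 1 then S.b (t a) else 0 := by
    intro a ha
    rw [← Finset.sum_smul]
    have h2 : ∀ j ∈ Finset.range N, (((Γ.tc j).χ a)⁻¹ : kˣ).val
        = ((Γ.ch a⁻¹ ^ j : kˣ) : k) := by
      intro j _
      rw [GenChar.tc_apply, map_inv, inv_pow]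
    rw [Finset.sum_congr rfl h2, Γ.sum_ch S.hsq hN (inv_mem_Sq ha)]
    by_cases h : a = 1
    · subst h; simp
    · rw [if_neg h, if_neg (by rwa [inv_eq_one]), zero_smul]
  rw [Finset.sum_congr rfl h1, Finset.sum_ite_eq' (Sq F) 1, if_pos one_mem_Sq, t_one, S.b_one,
    one_mul]

lemma EPart.full (hr : N = 2 * r + 1) (hN : N % 2 = 1) :
    (1 : MonoidAlgebra k G) ∈ Submodule.span k {y | ∃ a i b, y = a * E.fam i * b} := by
  set M := Submodule.span k {y | ∃ a i b, y = a * E.fam i * b} with hM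
  have hL : ∀ x y, x ∈ M → y * x ∈ M := fun x y hx => span_left E.fam x y hx
  have hR : ∀ x y, x ∈ M → x * y ∈ M := fun x y hx => span_right E.fam x y hx
  have hB0 : B S TChar.one ∈ M := span_self E.fam (Sum.inl 0)
  have hBl : ∀ i, B S (lam Γ r i) ∈ M := fun i => span_self E.fam (Sum.inr (Sum.inr i))
  have hε1 : ∀ m, E.ε m 1 ∈ M := fun m => span_self E.fam (Sum.inr (Sum.inl m))
  have hom1 : E.om 1 ∈ M := span_self E.fam (Sum.inl 1)
  have hom2 : E.om (-1) ∈ M := span_self E.fam (Sum.inl 2)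
  have hBli : ∀ i, B S (lam Γ r i).inv ∈ M := by
    intro i
    have h1 := W_W_inv S (lam Γ r i).inv
    rw [TChar.inv_inv] at h1
    rw [← h1]
    have h2 : (B S (lam Γ r i).inv * S.b (n 1) * B S (lam Γ r i)) *
        (B S (lam Γ r i) * S.b (n 1) * B S (lam Γ r i).inv)
        = (B S (lam Γ r i).inv * S.b (n 1)) * (B S (lam Γ r i) *
        (B S (lam Γ r i) * S.b (n 1) * B S (lam Γ r i).inv)) := by simp only [mul_assoc]
    rw [h2]
    exact hL _ _ (hR _ _ (hBl i))
  have he0 : S.e 0 ∈ M := by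
    rw [← sum_B S Γ hN]
    refine Submodule.sum_mem _ (fun j hj => ?_)
    by_cases hj0 : j = 0
    · rw [hj0, Γ.tc_zero]; exact hB0
    · obtain ⟨i, h | h⟩ := tc_cases Γ hr hj hj0
      · rw [h]; exact hBl i
      · rw [h]; exact hBli i
  have hss : ∀ α, ss S Γ r α ∈ M := by
    intro α
    unfold ss
    refine Submodule.sum_mem _ (fun i _ => ?_)
    rw [← yy_B, mul_assoc]
    exact hL _ _ (hR _ _ (hBl i))
  have hε2 : ∀ m, E.ε m (-1) ∈ M := by
    intro m
    obtain ⟨u, v, h⟩ := E.equi m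
    rw [h]
    exact hR _ _ (hL _ _ (hε1 m))
  have he1 : S.e 1 ∈ M := by
    have h : S.e 1 = E.om 1 + ∑ m, E.ε m 1 + ss S Γ r 1 := by rw [EPart.om]; abel
    rw [h]
    exact Submodule.add_mem _ (Submodule.add_mem _ hom1
      (Submodule.sum_mem _ (fun m _ => hε1 m))) (hss 1)
  have he2 : S.e (-1) ∈ M := by
    have h : S.e (-1) = E.om (-1) + ∑ m, E.ε m (-1) + ss S Γ r (-1) := by rw [EPart.om]; abel
    rw [h]
    exact Submodule.add_mem _ (Submodule.add_mem _ hom2
      (Submodule.sum_mem _ (fun m _ => hε2 m))) (hss (-1))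
  have hconj : ∀ (a : Fˣ) (β : F), S.e β ∈ M → S.e (β * ((a : F) ^ 2)⁻¹) ∈ M := by
    intro a β h
    have h1 : S.e (β * ((a : F) ^ 2)⁻¹) = S.b (t a) * S.e β * S.b (t a⁻¹) := by
      rw [S.bt_e, mul_assoc, ← S.b_mul, t_mul_t, mul_inv_cancel, t_one, S.b_one, mul_one]
    rw [h1]
    exact hR _ _ (hL _ _ h)
  have he : ∀ α, S.e α ∈ M := by
    intro α
    by_cases h0 : α = 0
    · rw [h0]; exact he0
    · rcases mem_or_neg_mem S (Units.mk0 α h0) with h | h
      · rw [mem_Sq] at h
        obtain ⟨x, hx⟩ := h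
        have hx0 : x ≠ 0 := by rintro rfl; apply h0; simpa using hx
        have h1 := hconj (Units.mk0 x hx0)⁻¹ 1 he1
        have h2 : (1 : F) * ((((Units.mk0 x hx0)⁻¹ : Fˣ) : F) ^ 2)⁻¹ = α := by
          rw [Units.val_mk0] at hx
          rw [Units.val_inv_eq_inv_val, Units.val_mk0, hx]
          field_simp
        rwa [h2] at h1
      · rw [mem_Sq] at h
        obtain ⟨x, hx⟩ := h
        have hx0 : x ≠ 0 := by rintro rfl; apply h0; simpa using hx
        have h1 := hconj (Units.mk0 x hx0)⁻¹ (-1) he2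
        have h2 : (-1 : F) * ((((Units.mk0 x hx0)⁻¹ : Fˣ) : F) ^ 2)⁻¹ = α := by
          rw [Units.val_neg, Units.val_mk0] at hx
          rw [Units.val_inv_eq_inv_val, Units.val_mk0]
          have : α = -(x * x) := by linear_combination -hx
          rw [this]
          field_simp
        rwa [h2] at h1
  rw [← S.e_sum]
  exact Submodule.sum_mem _ (fun α _ => he α)

instance finDim [Finite G] : FiniteDimensional k (MonoidAlgebra k G) :=
  Module.Finite.equiv (MonoidAlgebra.coeffLinearEquiv k).symm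

lemma lam_orth (S : Setup F k G) (Γ : GenChar F k N) (hr : N = 2 * r + 1) (i j : Fin r) :
    dm k (B S (lam Γ r i)) (B S (lam Γ r j)) = if i = j then 1 else 0 := by
  by_cases h : i = j
  · subst h
    rw [if_pos rfl, dm_B_self S (lam_ne_one Γ hr i)]
  · rw [if_neg h, dm_B_ne S (fun h' => h (lam_inj Γ hr h')) (lam_ne_inv Γ hr j i)]

lemma one_mul_one_F : (1 : F) * 1 = 1 := one_mul 1

lemma neg_one_mul_neg_one_F : (-1 : F) * (-1) = 1 := by ring

/-- **The idempotent data of `k[PSL(2,q)]`** -/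
noncomputable def EPart.data [Finite G] [DecidableEq T] (hr : N = 2 * r + 1) (hN : N % 2 = 1) :
    IdemData k (MonoidAlgebra k G) (Fin 3 ⊕ (T ⊕ Fin r)) (CC wt) :=
  IdemData.ofRows E.fam
    (by
      rintro (i | (m | i))
      · fin_cases i
        · exact B_idem S _
        · exact E.om_idem 1 one_mul_one_F
        · exact E.om_idem (-1) neg_one_mul_neg_one_F
      · exact E.idem m
      · exact B_idem S _)
    (by
      rintro (i | (m | i))
      · fin_cases i
        · exact B_ne S _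
        · exact E.om_ne 1 one_mul_one_F
        · exact E.om_ne (-1) neg_one_mul_neg_one_F
      · exact E.ne m
      · exact B_ne S _)
    (by
      rintro (i | (m | i))
      · fin_cases i
        · exact B_loc_one S
        · exact E.om_loc 1 one_mul_one_F
        · exact E.om_loc (-1) neg_one_mul_neg_one_F
      · exact E.loc m
      · exact B_loc S (lam_ne_one Γ hr i))
    (E.full hr hN)
    (by
      have h1 := one_mul_one_F (F := F)
      have h2 := neg_one_mul_neg_one_F (F := F)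
      have d12 : dm k (E.om 1) (E.om (-1)) = 2 := E.om_dim' 1 h1
      have d21 : dm k (E.om (-1)) (E.om 1) = 2 := by
        have := E.om_dim' (-1) h2
        rw [neg_neg] at this
        exact this
      rintro (i | (m | i)) (j | (m' | j))
      · fin_cases i <;> fin_cases j
        · exact dm_B_one S
        · exact E.dm_B_om hr h1
        · exact E.dm_B_om hr h2
        · exact E.dm_om_B hr h1
        · exact E.om_dim 1 h1
        · exact d12
        · exact E.dm_om_B hr h2
        · exact d21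
        · exact E.om_dim (-1) h2
      · fin_cases i
        · exact E.dm_B_ε TChar.one m'
        · exact E.om_ε 1 h1 m'
        · exact E.om_ε (-1) h2 m'
      · fin_cases i
        · exact dm_B_ne S (Ne.symm (lam_ne_one Γ hr j))
            (by rw [TChar.one_inv]; exact lam_ne_one Γ hr j)
        · exact E.dm_om_lam hr h1 j
        · exact E.dm_om_lam hr h2 j
      · fin_cases j
        · exact E.dm_ε_B TChar.one m
        · exact E.ε_om 1 h1 m
        · exact E.ε_om (-1) h2 m
      · simp only [CC]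
        by_cases h : m = m'
        · subst h
          rw [if_pos rfl]
          exact E.dim m
        · rw [if_neg (fun h' => h (Sum.inl_injective h'))]
          exact E.orth m m' h
      · exact E.dm_ε_B _ m
      · fin_cases j
        · exact dm_B_ne S (lam_ne_one Γ hr i) (one_ne_inv_lam Γ hr i)
        · exact E.dm_lam_om hr h1 i
        · exact E.dm_lam_om hr h2 i
      · exact E.dm_B_ε _ m'
      · simp only [CC]
        have := lam_orth S Γ hr i j
        by_cases h : i = j
        · subst h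
          rw [if_pos rfl] at this ⊢
          exact this
        · rw [if_neg h] at this
          rw [if_neg (fun h' => h (Sum.inr_injective h'))]
          exact this)
    (CC_rows wt (by rintro (m | i) <;> simp [wt]))

end Borel
end Pool.Cartan73
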