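import Pool.Agent.Cartan73.Corner2

/-! # The part of `k[G]` coming from the quotient by an odd order normal subgroup
(helper73, MP_bea28b_al) -/

namespace Pool.Cartan73

open MonoidAlgebra

attribute [local instance 10000] Fintype.ofFinite

/-- Idempotent data of a finite dimensional algebra. -/
structure IdemData (k A : Type*) [Field k] [Ring A] [Algebra k A] (I : Type*)
    (C : I → I → ℕ) where
  e : I → A
  idem : ∀ i, e i * e i = e i
  ne : ∀ i, e i ≠ 0
  loc : ∀ i x, ∃ c : k, IsNilpotent (e i * x * e i - c • e i)
  nil : ∀ i j, i ≠ j → ∀ a b, IsNilpotent (e i * a * e j * b * e i)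
  full : (1 : A) ∈ Submodule.span k {y | ∃ a i b, y = a * e i * b}
  dims : ∀ i j, Module.finrank k (LinearMap.range (sand (k := k) (e i) (e j))) = C i j

section
variable {k G Λ : Type*} [Field k] [CharP k 2] [Group G] [Finite G] [Group Λ]

/-- A split surjection with odd kernel. -/
structure SplitOdd (π : G →* Λ) (s : Λ →* G) : Prop where
  sec : ∀ l, π (s l) = l
  odd : Odd (Nat.card π.ker)

/-- the trivial pair -/
noncomputable def trivPair (k : Type*) [Field k] {G Λ : Type*} [Group G] [Group Λ]
    {π : G →* Λ} {s : Λ →* G} (S : SplitOdd π s) : LinPair k G where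
  A := π.ker
  lam := 1
  odd := S.odd

variable {π : G →* Λ} {s : Λ →* G} (S : SplitOdd π s)

/-- the map `k[G] → k[Λ]` -/
noncomputable abbrev pr (k : Type*) [Field k] (π : G →* Λ) :
    MonoidAlgebra k G →ₐ[k] MonoidAlgebra k Λ := mapDomainAlgHom k k π

/-- the map `k[Λ] → k[G]` -/
noncomputable abbrev se (k : Type*) [Field k] (s : Λ →* G) :
    MonoidAlgebra k Λ →ₐ[k] MonoidAlgebra k G := mapDomainAlgHom k k s

lemma pr_single (g : G) (r : k) : pr k π (single g r) = single (π g) r := by
  simp [pr, mapDomainAlgHom]

lemma se_single (l : Λ) (r : k) : se k s (single l r) = single (s l) r := by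
  simp [se, mapDomainAlgHom]

lemma pr_se (S : SplitOdd π s) (x : MonoidAlgebra k Λ) : pr k π (se k s x) = x := by
  induction x using MonoidAlgebra.induction_linear with
  | zero => simp
  | add a b ha hb => rw [map_add, map_add, ha, hb]
  | single l r => rw [se_single, pr_single, S.sec]

/-- the idempotent of the normal subgroup -/
noncomputable def eN (k : Type*) [Field k] {G Λ : Type*} [Group G] [Finite G] [Group Λ]
    {π : G →* Λ} {s : Λ →* G} (S : SplitOdd π s) : MonoidAlgebra k G := (trivPair k S).f

lemma eN_mul_eN : eN k S * eN k S = eN k S := (trivPair k S).f_mul_f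

lemma eN_mul_single_ker (n : G) (hn : π n = 1) : eN k S * single n (1 : k) = eN k S := by
  have := (trivPair k S).f_mul_single ⟨n, hn⟩
  rw [show (trivPair k S).lam ⟨n, hn⟩ = 1 from rfl, one_smul] at this
  exact this

lemma single_ker_mul_eN (n : G) (hn : π n = 1) : single n (1 : k) * eN k S = eN k S := by
  have := (trivPair k S).single_mul_f ⟨n, hn⟩
  rw [show (trivPair k S).lam ⟨n, hn⟩ = 1 from rfl, one_smul] at this
  exact this

lemma eN_def : eN k S = ∑ a : (trivPair k S).A, single (a : G) (1 : k) := by
  unfold eN LinPair.f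
  rfl

lemma single_mul_eN (g : G) (r : k) : single g r * eN k S = eN k S * single g r := by
  rw [eN_def, Finset.mul_sum, Finset.sum_mul]
  let φ : (trivPair k S).A ≃ (trivPair k S).A :=
    { toFun := fun a => ⟨g * a * g⁻¹, by
        have := a.2
        change π (g * a * g⁻¹) = 1
        have h : π (a : G) = 1 := this
        rw [map_mul, map_mul, h, mul_one, map_inv, mul_inv_cancel]⟩
      invFun := fun a => ⟨g⁻¹ * a * g, by
        have := a.2
        change π (g⁻¹ * a * g) = 1
        have h : π (a : G) = 1 := this
        rw [map_mul, map_mul, h, mul_one, map_inv, inv_mul_cancel]⟩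
      left_inv := fun a => by apply Subtype.ext; simp [mul_assoc]
      right_inv := fun a => by apply Subtype.ext; simp [mul_assoc] }
  refine Fintype.sum_equiv φ _ _ ?_
  intro a
  simp [single_mul_single, φ]

lemma eN_central (x : MonoidAlgebra k G) : x * eN k S = eN k S * x := by
  induction x using MonoidAlgebra.induction_linear with
  | zero => simp
  | add a b ha hb => rw [add_mul, mul_add, ha, hb]
  | single g r => exact single_mul_eN S g r

lemma eN_mul (x : MonoidAlgebra k G) : eN k S * x = eN k S * se k s (pr k π x) := by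
  induction x using MonoidAlgebra.induction_linear with
  | zero => simp
  | add a b ha hb => rw [map_add, map_add, mul_add, mul_add, ha, hb]
  | single g r =>
    rw [pr_single, se_single]
    have h1 : single g r = single (g * (s (π g))⁻¹) (1 : k) * single (s (π g)) r := by
      rw [single_mul_single]; simp
    rw [h1, ← mul_assoc, eN_mul_single_ker]
    rw [map_mul, map_inv, S.sec, mul_inv_cancel]

lemma pr_eN : pr k π (eN k S) = 1 := by
  rw [eN_def, map_sum]
  have : ∀ a : (trivPair k S).A, pr k π (single (a : G) (1 : k)) = 1 := by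
    intro a
    rw [pr_single]
    have h : π (a : G) = 1 := a.2
    rw [h]; rfl
  rw [Finset.sum_congr rfl (fun a _ => this a), Finset.sum_const, Finset.card_univ,
    ← Nat.card_eq_fintype_card, ← Nat.cast_smul_eq_nsmul k,
    LinPair.cast_odd (trivPair k S).odd, one_smul]

/-- the embedding `k[Λ] → k[G]` (not unital) -/
noncomputable def th (k : Type*) [Field k] [CharP k 2] {G Λ : Type*} [Group G] [Finite G]
    [Group Λ] {π : G →* Λ} {s : Λ →* G} (S : SplitOdd π s) :
    MonoidAlgebra k Λ →ₗ[k] MonoidAlgebra k G :=
  (LinearMap.mulLeft k (eN k S)).comp (se k s).toLinearMap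

lemma th_apply (x : MonoidAlgebra k Λ) : th k S x = eN k S * se k s x := rfl

lemma pr_th (x : MonoidAlgebra k Λ) : pr k π (th k S x) = x := by
  rw [th_apply, map_mul, pr_eN, one_mul, pr_se S]

lemma th_injective : Function.Injective (th k S) :=
  Function.LeftInverse.injective (pr_th S)

lemma th_mul (x y : MonoidAlgebra k Λ) : th k S (x * y) = th k S x * th k S y := by
  rw [th_apply, th_apply, th_apply, map_mul, mul_assoc (eN k S) (se k s x),
    ← mul_assoc (se k s x) (eN k S), eN_central, mul_assoc (eN k S) (se k s x),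
    ← mul_assoc (eN k S) (eN k S), eN_mul_eN]

lemma th_one : th k S 1 = eN k S := by rw [th_apply, map_one, mul_one]

lemma th_mul_mul (x y : MonoidAlgebra k Λ) (a : MonoidAlgebra k G) :
    th k S x * a * th k S y = th k S (x * pr k π a * y) := by
  rw [th_mul, th_mul]
  have h1 : th k S x * a = th k S x * th k S (pr k π a) := by
    rw [th_apply, th_apply, ← eN_central S (se k s x), mul_assoc, mul_assoc, ← mul_assoc (eN k S),
      eN_mul_eN, ← eN_mul]
  rw [h1]

lemma range_sand_th (hs : Function.Surjective (pr k π)) (x y : MonoidAlgebra k Λ) :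
    LinearMap.range (sand (k := k) (th k S x) (th k S y))
      = (LinearMap.range (sand (k := k) x y)).map (th k S) := by
  apply le_antisymm
  · rintro _ ⟨a, rfl⟩
    rw [sand_apply, th_mul_mul]
    exact ⟨_, ⟨pr k π a, rfl⟩, by rw [sand_apply]⟩
  · rintro _ ⟨_, ⟨a, rfl⟩, rfl⟩
    obtain ⟨b, rfl⟩ := hs a
    exact ⟨b, by rw [sand_apply, sand_apply, th_mul_mul]⟩

lemma pr_surjective (S : SplitOdd π s) : Function.Surjective (pr k π) :=
  fun x => ⟨se k s x, pr_se S x⟩

lemma finrank_sand_th (x y : MonoidAlgebra k Λ) :
    Module.finrank k (LinearMap.range (sand (k := k) (th k S x) (th k S y)))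
      = Module.finrank k (LinearMap.range (sand (k := k) x y)) := by
  rw [range_sand_th S (pr_surjective S)]
  exact (Submodule.equivMapOfInjective (th k S) (th_injective S) _).finrank_eq.symm

lemma th_nilpotent {x : MonoidAlgebra k Λ} (hx : IsNilpotent x) : IsNilpotent (th k S x) := by
  obtain ⟨n, hn⟩ := hx
  refine ⟨n + 1, ?_⟩
  have h : ∀ m : ℕ, th k S x ^ (m + 1) = th k S (x ^ (m + 1)) := by
    intro m
    induction m with
    | zero => simp
    | succ m ih => rw [pow_succ, ih, ← th_mul, ← pow_succ]
  rw [h, pow_succ, hn, zero_mul, map_zero]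

end

end Pool.Cartan73
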