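import Pool.Agent.Cartan73.Defs
import Pool.Agent.Cartan73.Triv

/-! # Idempotent data give the Cartan matrix (helper73, MP_bea28b_al) -/

namespace Pool.Cartan73

universe u

section Corner
variable {k A : Type*} [Field k] [Ring A] [Algebra k A]

/-- local corner -/
structure LocIdem (k : Type*) {A : Type*} [Field k] [Ring A] [Algebra k A] (e : A) : Prop where
  idem : e * e = e
  ne : e ≠ 0
  loc : ∀ x, ∃ c : k, IsNilpotent (e * x * e - c • e)

variable {e : A}

lemma LocIdem.nil_or_inv (L : LocIdem k e) {x : A} (h1 : e * x = x) (h2 : x * e = x) :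
    IsNilpotent x ∨ ∃ y, e * y = y ∧ y * e = y ∧ y * x = e := by
  obtain ⟨c, hc⟩ := L.loc x
  rw [h1, h2] at hc
  by_cases h0 : c = 0
  · left; rw [h0, zero_smul, sub_zero] at hc; exact hc
  right
  have h3 : IsNilpotent (c⁻¹ • (x - c • e)) := hc.smul _
  have hu := h3.isUnit_one_add
  obtain ⟨v, hv1, hv2⟩ := isUnit_iff_exists.mp hu
  -- hv1 : (1 + n) * v = 1, hv2 : v * (1 + n) = 1
  set n := c⁻¹ • (x - c • e) with hn
  have hen : e * n = n := by
    rw [hn, mul_smul_comm, mul_sub, h1, mul_smul_comm, L.idem]
  have hne : n * e = n := by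
    rw [hn, smul_mul_assoc, sub_mul, h2, smul_mul_assoc, L.idem]
  have hcomm : (1 + n) * e = e * (1 + n) := by
    rw [add_mul, mul_add, one_mul, mul_one, hen, hne]
  have hve : v * e = e * v := by
    calc v * e = v * e * ((1 + n) * v) := by rw [hv1, mul_one]
      _ = v * (e * (1 + n)) * v := by noncomm_ring
      _ = v * ((1 + n) * e) * v := by rw [hcomm]
      _ = (v * (1 + n)) * e * v := by noncomm_ring
      _ = e * v := by rw [hv2, one_mul]
  have hx : c⁻¹ • x = (1 + n) * e := by
    rw [add_mul, one_mul, hne, hn, smul_sub, smul_smul, inv_mul_cancel₀ h0, one_smul]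
    abel
  refine ⟨c⁻¹ • (e * v), ?_, ?_, ?_⟩
  · rw [mul_smul_comm, ← mul_assoc, L.idem]
  · rw [smul_mul_assoc, mul_assoc, hve, ← mul_assoc, L.idem]
  · calc c⁻¹ • (e * v) * x = (e * v) * (c⁻¹ • x) := by rw [smul_mul_assoc, mul_smul_comm]
      _ = e * (v * (1 + n)) * e := by rw [hx]; noncomm_ring
      _ = e := by rw [hv2, mul_one, L.idem]

lemma LocIdem.not_nil_of_inv (L : LocIdem k e) {x y : A} (h1 : e * x = x)
    (h : y * x = e) : ¬ IsNilpotent x := by
  rintro ⟨n, hn⟩
  have key : ∀ m : ℕ, y ^ m * x ^ m * e = e := by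
    intro m
    induction m with
    | zero => simp
    | succ m ih =>
      calc y ^ (m + 1) * x ^ (m + 1) * e = y ^ m * (y * x) * x ^ m * e := by
            rw [pow_succ y, pow_succ' x]; noncomm_ring
        _ = y ^ m * (e * x ^ m * e) := by rw [h]; noncomm_ring
        _ = y ^ m * (x ^ m * e) := by
            congr 1
            cases m with
            | zero => rw [pow_zero, mul_one, one_mul, L.idem]
            | succ m => rw [pow_succ', ← mul_assoc e x, h1]
        _ = e := by rw [← mul_assoc, ih]
  have := key n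
  rw [hn, mul_zero, zero_mul] at this
  exact L.ne this.symm

lemma LocIdem.mul_nil (L : LocIdem k e) {x y : A} (h1 : e * x = x) (h2 : x * e = x)
    (hx : IsNilpotent x) : IsNilpotent (e * y * x) := by
  rcases L.nil_or_inv (x := e * y * x) (by rw [← mul_assoc, ← mul_assoc, L.idem])
    (by rw [mul_assoc, h2]) with h | ⟨z, _, _, hz⟩
  · exact h
  · exact absurd hx (L.not_nil_of_inv (y := z * (e * y)) h1 (by rw [mul_assoc]; exact hz))

lemma LocIdem.add_nil (L : LocIdem k e) {x y : A} (h1 : e * x = x) (h2 : x * e = x)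
    (h3 : e * y = y) (h4 : y * e = y) (hx : IsNilpotent x) (hy : IsNilpotent y) :
    IsNilpotent (x + y) := by
  rcases L.nil_or_inv (x := x + y) (by rw [mul_add, h1, h3]) (by rw [add_mul, h2, h4]) with
    h | ⟨z, hz1, _, hz⟩
  · exact h
  exfalso
  have ha := L.mul_nil (y := z) h1 h2 hx
  have hb := L.mul_nil (y := z) h3 h4 hy
  rw [hz1] at ha hb
  have hab : z * x + z * y = e := by rw [← mul_add, hz]
  have hcomm : Commute (z * x) (z * y) := by
    have h5 : z * y = e - z * x := by rw [← hab]; abel
    rw [h5]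
    have h6 : z * x * e = z * x := by rw [mul_assoc, h2]
    have h7 : e * (z * x) = z * x := by rw [← mul_assoc, hz1]
    change z * x * (e - z * x) = (e - z * x) * (z * x)
    rw [mul_sub, sub_mul, h6, h7]
  have h8 := hcomm.isNilpotent_add ha hb
  rw [hab] at h8
  obtain ⟨n, hn⟩ := h8
  have h9 : ∀ m : ℕ, e ^ (m + 1) = e := by
    intro m
    induction m with
    | zero => simp
    | succ m ih => rw [pow_succ, ih, L.idem]
  have h10 : e ^ (n + 1) = 0 := by rw [pow_succ, hn, zero_mul]
  exact L.ne (by rw [← h9 n, h10])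

lemma LocIdem.not_nil (L : LocIdem k e) : ¬ IsNilpotent e :=
  L.not_nil_of_inv (y := e) L.idem L.idem

end Corner

section Proj
variable {k : Type*} {A : Type u} [Field k] [Ring A] [Algebra k A] {e : A}

/-- the left ideal `A e` -/
def PP (e : A) (he : e * e = e) : Submodule A A where
  carrier := {x | x * e = x}
  add_mem' := by intro x y hx hy; simp only [Set.mem_setOf_eq] at *; rw [add_mul, hx, hy]
  zero_mem' := by simp
  smul_mem' := by
    intro a x hx; simp only [Set.mem_setOf_eq, smul_eq_mul] at *; rw [mul_assoc, hx]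

lemma mem_PP {he : e * e = e} {x : A} : x ∈ PP e he ↔ x * e = x := Iff.rfl

/-- the radical of `A e` -/
def JJ (L : LocIdem k e) : Submodule A (PP e L.idem) where
  carrier := {x | ∀ a : A, IsNilpotent (e * a * (x : A))}
  add_mem' := by
    intro x y hx hy a
    rw [Submodule.coe_add, mul_add]
    have hxe : (x : A) * e = x := x.2
    have hye : (y : A) * e = y := y.2
    refine L.add_nil ?_ ?_ ?_ ?_ (hx a) (hy a)
    · rw [← mul_assoc, ← mul_assoc, L.idem]
    · rw [mul_assoc, hxe]
    · rw [← mul_assoc, ← mul_assoc, L.idem]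
    · rw [mul_assoc, hye]
  zero_mem' := by intro a; simp
  smul_mem' := by
    intro b x hx a
    have := hx (a * b)
    rw [Submodule.coe_smul, smul_eq_mul, ← mul_assoc, mul_assoc e a b]
    exact this

lemma mem_JJ (L : LocIdem k e) (x : PP e L.idem) :
    x ∈ JJ L ↔ ∀ a : A, IsNilpotent (e * a * (x : A)) := Iff.rfl

/-- the generator -/
def gen (e : A) (he : e * e = e) : PP e he := ⟨e, he⟩

lemma smul_gen {he : e * e = e} (x : PP e he) : (x : A) • gen e he = x :=
  Subtype.ext (by change (x : A) * e = x; exact x.2)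

lemma eq_top_of_gen_mem {he : e * e = e} {N : Submodule A (PP e he)} (h : gen e he ∈ N) :
    N = ⊤ := by
  rw [eq_top_iff]
  intro x _
  rw [← smul_gen x]
  exact N.smul_mem _ h

lemma le_JJ (L : LocIdem k e) {N : Submodule A (PP e L.idem)} (hN : N ≠ ⊤) : N ≤ JJ L := by
  intro x hx
  rw [mem_JJ]
  intro a
  have hxe : (x : A) * e = x := x.2
  rcases L.nil_or_inv (x := e * a * (x : A)) (by rw [← mul_assoc, ← mul_assoc, L.idem])
    (by rw [mul_assoc, hxe]) with h | ⟨y, _, _, hy⟩
  · exact h
  · exfalso
    apply hN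
    apply eq_top_of_gen_mem
    have : gen e L.idem = (y * (e * a)) • x := by
      apply Subtype.ext
      change e = y * (e * a) * (x : A)
      rw [mul_assoc, hy]
    rw [this]
    exact N.smul_mem _ hx

lemma gen_notMem (L : LocIdem k e) : gen e L.idem ∉ JJ L := by
  intro h
  have := (mem_JJ L _).mp h 1
  rw [mul_one] at this
  change IsNilpotent (e * e) at this
  rw [L.idem] at this
  exact L.not_nil this

lemma JJ_ne_top (L : LocIdem k e) : JJ L ≠ ⊤ := by
  intro h
  exact gen_notMem L (h ▸ Submodule.mem_top)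

lemma JJ_coatom (L : LocIdem k e) : IsCoatom (JJ L) := by
  refine ⟨JJ_ne_top L, ?_⟩
  intro N hN
  by_contra h
  exact absurd (le_JJ L h) (not_le_of_gt hN)

/-- the simple top -/
abbrev SS (L : LocIdem k e) : Type u := ↥(PP e L.idem) ⧸ JJ L

lemma SS_simple (L : LocIdem k e) : IsSimpleModule A (SS L) :=
  isSimpleModule_iff_isCoatom.mpr (JJ_coatom L)

lemma PP_projective (he : e * e = e) : Module.Projective A (PP e he) := by
  refine Module.Projective.of_split (PP e he).subtype
    ({ toFun := fun x => ⟨x * e, by rw [mem_PP, mul_assoc, he]⟩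
       map_add' := fun x y => Subtype.ext (by simp [add_mul])
       map_smul' := fun a x => Subtype.ext (by simp [mul_assoc]) } : A →ₗ[A] PP e he) ?_
  ext x
  exact x.2

lemma PP_cover (L : LocIdem k e) :
    IsProjectiveCover (A := A) (JJ L).mkQ where
  projective := PP_projective L.idem
  surjective := Submodule.mkQ_surjective _
  superfluous := by
    intro N hN
    rw [Submodule.ker_mkQ] at hN
    by_contra h
    have := le_JJ L h
    rw [sup_eq_right.mpr this] at hN
    exact JJ_ne_top L hN

/-- a simple module on which `e` does not act by zero is the top of `A e` -/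
lemma iso_of_act (L : LocIdem k e) {M : Type u} [AddCommGroup M] [Module A M]
    [hM : IsSimpleModule A M] {m : M} (hm : e • m ≠ 0) : Nonempty (M ≃ₗ[A] SS L) := by
  let f : PP e L.idem →ₗ[A] M :=
    (LinearMap.toSpanSingleton A M (e • m)).comp (PP e L.idem).subtype
  have hf : ∀ x : PP e L.idem, f x = (x : A) • (e • m) := fun x => rfl
  have h1 : f (gen e L.idem) = e • m := by
    rw [hf]
    change e • (e • m) = e • m
    rw [smul_smul, L.idem]
  have h2 : f ≠ 0 := by
    intro h
    rw [h] at h1
    exact hm h1.symm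
  have hsurj : Function.Surjective f := by
    rw [← LinearMap.range_eq_top]
    rcases eq_bot_or_eq_top (LinearMap.range f) with h | h
    · exact absurd (LinearMap.range_eq_bot.mp h) h2
    · exact h
  have hker : LinearMap.ker f = JJ L := by
    have h3 : LinearMap.ker f ≠ ⊤ := by
      intro h
      exact h2 (LinearMap.ker_eq_top.mp h)
    have h4 : IsCoatom (LinearMap.ker f) := by
      rw [← isSimpleModule_iff_isCoatom]
      exact IsSimpleModule.congr (LinearMap.quotKerEquivOfSurjective f hsurj)
    have h5 := le_JJ L h3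
    rcases h4.le_iff.mp h5 with h | h
    · exact absurd h (JJ_ne_top L)
    · exact h.symm
  exact ⟨(LinearMap.quotKerEquivOfSurjective f hsurj).symm.trans
    (Submodule.quotEquivOfEq _ _ hker)⟩

end Proj

section Fixed
variable (k : Type*) {A : Type u} [Field k] [Ring A] [Algebra k A]

/-- the image of the idempotent `e` on a module -/
def Fx (e : A) (M : Type*) [AddCommGroup M] [Module A M] [Module k M] [IsScalarTower k A M] :
    Submodule k M where
  carrier := {m | e • m = m}
  add_mem' := by intro x y hx hy; simp only [Set.mem_setOf_eq] at *; rw [smul_add, hx, hy]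
  zero_mem' := by simp
  smul_mem' := by
    intro c x hx
    simp only [Set.mem_setOf_eq] at *
    have : e • c • x = c • e • x := smul_comm e c x
    rw [this, hx]

variable {k} {e : A}
variable {M N : Type*} [AddCommGroup M] [Module A M] [Module k M] [IsScalarTower k A M]
  [AddCommGroup N] [Module A N] [Module k N] [IsScalarTower k A N]

lemma mem_Fx {m : M} : m ∈ Fx k e M ↔ e • m = m := Iff.rfl

lemma finrank_Fx_congr (f : M ≃ₗ[A] N) :
    Module.finrank k (Fx k e M) = Module.finrank k (Fx k e N) := by
  have h : (Fx k e M).map ((f.restrictScalars k : M ≃ₗ[k] N) : M →ₗ[k] N) = Fx k e N := by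
    ext n
    constructor
    · rintro ⟨m, hm, rfl⟩
      have hm' : e • m = m := hm
      change e • f m = f m
      rw [← map_smul, hm']
    · intro hn
      have hn' : e • n = n := hn
      refine ⟨f.symm n, ?_, f.apply_symm_apply n⟩
      change e • f.symm n = f.symm n
      rw [← map_smul, hn']
  rw [← h]
  exact ((f.restrictScalars k).submoduleMap (Fx k e M)).finrank_eq

lemma finrank_Fx_quot [FiniteDimensional k M] (K : Submodule A M) (he : e * e = e) :
    Module.finrank k (Fx k e M) =
      Module.finrank k (Fx k e (M ⧸ K)) + Module.finrank k (Fx k e K) := by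
  let φ : Fx k e M →ₗ[k] (M ⧸ K) := (K.mkQ.restrictScalars k).comp (Fx k e M).subtype
  let ψ : Fx k e K →ₗ[k] M := (K.subtype.restrictScalars k).comp (Fx k e K).subtype
  have hφ : ∀ x : Fx k e M, φ x = K.mkQ (x : M) := fun x => rfl
  have hψ : ∀ x : Fx k e K, ψ x = ((x : K) : M) := fun x => rfl
  have h1 := LinearMap.finrank_range_add_finrank_ker φ
  have h2 : LinearMap.range φ = Fx k e (M ⧸ K) := by
    ext q
    constructor
    · rintro ⟨x, rfl⟩
      have hx : e • (x : M) = x := x.2
      rw [mem_Fx, hφ, ← map_smul, hx]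
    · intro hq
      have hq' : e • q = q := hq
      obtain ⟨y, rfl⟩ := K.mkQ_surjective q
      refine ⟨⟨e • y, ?_⟩, ?_⟩
      · rw [mem_Fx, smul_smul, he]
      · rw [hφ]
        change K.mkQ (e • y) = _
        rw [map_smul, hq']
  have h3 : (LinearMap.ker φ).map (Fx k e M).subtype = LinearMap.range ψ := by
    ext m
    constructor
    · rintro ⟨x, hx, rfl⟩
      have hx' : K.mkQ (x : M) = 0 := hx
      rw [Submodule.mkQ_apply, Submodule.Quotient.mk_eq_zero] at hx'
      refine ⟨⟨⟨(x : M), hx'⟩, ?_⟩, rfl⟩
      rw [mem_Fx]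
      exact Subtype.ext x.2
    · rintro ⟨x, rfl⟩
      have hx : e • (x : K) = x := x.2
      have hx' : e • ((x : K) : M) = ((x : K) : M) := by
        rw [← Submodule.coe_smul, hx]
      refine ⟨⟨((x : K) : M), hx'⟩, ?_, rfl⟩
      change φ _ = 0
      rw [hφ, Submodule.mkQ_apply, Submodule.Quotient.mk_eq_zero]
      exact (x : K).2
  have h4 : Module.finrank k (LinearMap.ker φ) = Module.finrank k (Fx k e K) := by
    have h5 : Module.finrank k ((LinearMap.ker φ).map (Fx k e M).subtype)
        = Module.finrank k (LinearMap.ker φ) :=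
      (Submodule.equivMapOfInjective (Fx k e M).subtype (Submodule.injective_subtype _)
        _).finrank_eq.symm
    have h6 : Module.finrank k (LinearMap.range ψ) = Module.finrank k (Fx k e K) := by
      apply LinearMap.finrank_range_of_inj
      intro x y hxy
      rw [hψ, hψ] at hxy
      exact Subtype.ext (Subtype.ext hxy)
    rw [← h5, h3, h6]
  rw [← h1, h2, h4]

end Fixed

end Pool.Cartan73
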