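import Pool.Agent.Cartan73.Rep37

/-! # The homomorphism `SL(2,7) → SL(3,11)` (helper73, MP_bea28b_al) -/

namespace Pool.Cartan73

open Matrix

/-- `SL(2,7)` -/
abbrev SL27 := Matrix.SpecialLinearGroup (Fin 2) (ZMod 7)
/-- `SL(3,11)` -/
abbrev SL3 := Matrix.SpecialLinearGroup (Fin 3) (ZMod 11)

/-- image of unipotent elements -/
def TzS (x : ZMod 7) : SL3 := ⟨TzU x, det_TzU x⟩
/-- image of diagonal elements -/
def tauS (x : ZMod 7) : SL3 := ⟨tauM x, det_tauM x⟩
/-- image of the Weyl element -/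
def WS : SL3 := ⟨WM, det_WM⟩

lemma TzS_add (x y : ZMod 7) : TzS (x + y) = TzS x * TzS y := Subtype.ext (TzU_add x y)
lemma TzS_zero : TzS 0 = 1 := Subtype.ext TzU_zero
lemma tauS_mul {x y : ZMod 7} (hx : x ≠ 0) (hy : y ≠ 0) : tauS (x * y) = tauS x * tauS y :=
  Subtype.ext (tauM_mul x y hx hy)
lemma tauS_TzS {x : ZMod 7} (hx : x ≠ 0) (y : ZMod 7) :
    tauS x * TzS y = TzS (x ^ 2 * y) * tauS x := Subtype.ext (tauM_TzU x y hx)
lemma tauS_WS {x : ZMod 7} (hx : x ≠ 0) : tauS x * WS = WS * tauS x⁻¹ :=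
  Subtype.ext (tauM_WM x hx)
lemma WS_TzS_WS {b : ZMod 7} (hb : b ≠ 0) :
    WS * TzS b * WS = TzS (-b⁻¹) * WS * tauS b * TzS (-b⁻¹) := Subtype.ext (WM_TzU_WM b hb)
lemma WS_WS : WS * WS = 1 := Subtype.ext WM_WM
lemma tauS_one : tauS 1 = 1 := Subtype.ext rfl
lemma tauS_neg (x : ZMod 7) : tauS (-x) = tauS x := by
  apply Subtype.ext; change tauM (-x) = tauM x; revert x; decide +kernel

/-- the representation -/
def rhoF (g : SL27) : SL3 :=
  if g 1 0 = 0 then tauS (g 0 0) * TzS (g 0 1 * g 1 1)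
  else TzS (g 0 0 * (g 1 0)⁻¹) * WS * tauS (g 1 0) * TzS (g 1 1 * (g 1 0)⁻¹)

lemma det_eq (g : SL27) : g 0 0 * g 1 1 - g 0 1 * g 1 0 = 1 := by
  have := g.det_coe
  rwa [Matrix.det_fin_two] at this

lemma mul_ap (x y : SL27) (i j : Fin 2) : (x * y) i j = x i 0 * y 0 j + x i 1 * y 1 j := by
  change (x.1 * y.1) i j = _
  rw [Matrix.mul_apply, Fin.sum_univ_two]

/-- upper unipotent -/
def uS (s : ZMod 7) : SL27 := ⟨!![1, s; 0, 1], by simp⟩
/-- Weyl element -/
def wS : SL27 := ⟨!![0, -1; 1, 0], by simp⟩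

lemma rhoF_u_mul (s : ZMod 7) (y : SL27) : rhoF (uS s * y) = TzS s * rhoF y := by
  have e00 : (uS s * y) 0 0 = y 0 0 + s * y 1 0 := by rw [mul_ap]; simp [uS]
  have e01 : (uS s * y) 0 1 = y 0 1 + s * y 1 1 := by rw [mul_ap]; simp [uS]
  have e10 : (uS s * y) 1 0 = y 1 0 := by rw [mul_ap]; simp [uS]
  have e11 : (uS s * y) 1 1 = y 1 1 := by rw [mul_ap]; simp [uS]
  have hd := det_eq y
  unfold rhoF
  rw [e00, e01, e10, e11]
  by_cases hc : y 1 0 = 0
  · rw [if_pos hc, if_pos hc, hc, mul_zero, add_zero]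
    rw [hc, mul_zero, sub_zero] at hd
    have h0 : y 0 0 ≠ 0 := by intro h; rw [h, zero_mul] at hd; exact zero_ne_one hd
    have hs : TzS s * tauS (y 0 0) = tauS (y 0 0) * TzS (y 1 1 ^ 2 * s) := by
      rw [tauS_TzS h0]
      congr 2
      have : y 0 0 ^ 2 * (y 1 1 ^ 2 * s) = (y 0 0 * y 1 1) ^ 2 * s := by ring
      rw [this, hd]; ring
    rw [← mul_assoc, hs, mul_assoc, ← TzS_add]
    congr 2; ring
  · rw [if_neg hc, if_neg hc]
    have : (y 0 0 + s * y 1 0) * (y 1 0)⁻¹ = s + y 0 0 * (y 1 0)⁻¹ := by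
      field_simp; ring
    rw [this, TzS_add]; simp only [mul_assoc]

lemma rhoF_w_mul (y : SL27) : rhoF (wS * y) = WS * rhoF y := by
  have e00 : (wS * y) 0 0 = - y 1 0 := by rw [mul_ap]; simp [wS]
  have e01 : (wS * y) 0 1 = - y 1 1 := by rw [mul_ap]; simp [wS]
  have e10 : (wS * y) 1 0 = y 0 0 := by rw [mul_ap]; simp [wS]
  have e11 : (wS * y) 1 1 = y 0 1 := by rw [mul_ap]; simp [wS]
  have hd := det_eq y
  unfold rhoF
  rw [e00, e01, e10, e11]
  by_cases hc : y 1 0 = 0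
  · rw [hc, mul_zero, sub_zero] at hd
    have h0 : y 0 0 ≠ 0 := by intro h; rw [h, zero_mul] at hd; exact zero_ne_one hd
    have hinv : (y 0 0)⁻¹ = y 1 1 := inv_eq_of_mul_eq_one_right hd
    rw [if_neg h0, if_pos hc, hc, neg_zero, zero_mul, TzS_zero, one_mul, hinv, mul_assoc]
  · rw [if_neg hc]
    by_cases ha : y 0 0 = 0
    · rw [ha, zero_mul, TzS_zero, one_mul, if_pos rfl, tauS_neg, ← mul_assoc, ← mul_assoc, WS_WS,
        one_mul]
      rw [ha, zero_mul, zero_sub] at hd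
      have h1 : y 0 1 = - (y 1 0)⁻¹ := by
        field_simp
        linear_combination (-1) * hd
      rw [h1]
      congr 2
      ring
    · rw [if_neg ha]
      have h1 : WS * (TzS (y 0 0 * (y 1 0)⁻¹) * WS * tauS (y 1 0) * TzS (y 1 1 * (y 1 0)⁻¹))
          = (WS * TzS (y 0 0 * (y 1 0)⁻¹) * WS) * tauS (y 1 0) * TzS (y 1 1 * (y 1 0)⁻¹) := by
        simp only [mul_assoc]
      have h2 : y 0 0 * (y 1 0)⁻¹ ≠ 0 := mul_ne_zero ha (inv_ne_zero hc)
      rw [h1, WS_TzS_WS h2]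
      have h3 : TzS (-(y 0 0 * (y 1 0)⁻¹)⁻¹) * tauS (y 1 0)
          = tauS (y 1 0) * TzS (-((y 0 0) * (y 1 0))⁻¹) := by
        rw [tauS_TzS hc]
        congr 2
        field_simp
      have h4 : TzS (-(y 0 0 * (y 1 0)⁻¹)⁻¹) * WS * tauS (y 0 0 * (y 1 0)⁻¹)
            * TzS (-(y 0 0 * (y 1 0)⁻¹)⁻¹) * tauS (y 1 0) * TzS (y 1 1 * (y 1 0)⁻¹)
          = TzS (-(y 0 0 * (y 1 0)⁻¹)⁻¹) * WS * (tauS (y 0 0 * (y 1 0)⁻¹)
            * (TzS (-(y 0 0 * (y 1 0)⁻¹)⁻¹) * tauS (y 1 0))) * TzS (y 1 1 * (y 1 0)⁻¹) := by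
        simp only [mul_assoc]
      rw [h4, h3, ← mul_assoc (tauS (y 0 0 * (y 1 0)⁻¹)), ← tauS_mul h2 hc]
      have h5 : y 0 0 * (y 1 0)⁻¹ * y 1 0 = y 0 0 := by field_simp
      rw [h5, ← mul_assoc, mul_assoc (TzS (-(y 0 0 * (y 1 0)⁻¹)⁻¹) * WS * tauS (y 0 0)), ← TzS_add]
      have h6 : -(y 0 0 * (y 1 0)⁻¹)⁻¹ = -(y 1 0) * (y 0 0)⁻¹ := by
        field_simp
      have h7 : -(y 0 0 * y 1 0)⁻¹ + y 1 1 * (y 1 0)⁻¹ = y 0 1 * (y 0 0)⁻¹ := by
        field_simp
        linear_combination hd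
      rw [h6, h7]

/-- multiplicativity from the left -/
def LM (x : SL27) : Prop := ∀ y, rhoF (x * y) = rhoF x * rhoF y

lemma rhoF_one : rhoF 1 = 1 := by
  have : rhoF 1 = tauS 1 * TzS (0 * 1) := rfl
  rw [this, mul_one, TzS_zero, tauS_one, one_mul]

lemma LM_u (s : ZMod 7) : LM (uS s) := by
  intro y
  have h := rhoF_u_mul s 1
  rw [mul_one, rhoF_one, mul_one] at h
  rw [rhoF_u_mul, h]

lemma LM_w : LM wS := by
  intro y
  have h := rhoF_w_mul 1
  rw [mul_one, rhoF_one, mul_one] at h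
  rw [rhoF_w_mul, h]

lemma LM.mul {x y : SL27} (hx : LM x) (hy : LM y) : LM (x * y) := by
  intro z
  rw [mul_assoc, hx, hy, ← mul_assoc, ← hx]

lemma decomp (x : SL27) (hc : x 1 0 ≠ 0) :
    x = uS ((x 0 0 + 1) * (x 1 0)⁻¹) * wS * uS (x 1 0) * wS * uS ((x 1 1 + 1) * (x 1 0)⁻¹) := by
  have hd := det_eq x
  apply Subtype.ext
  ext i j
  have key : ∀ s c r : ZMod 7, ((uS s * wS * uS c * wS * uS r : SL27) : Matrix _ _ (ZMod 7))
      = !![s * c - 1, r * (s * c - 1) - s; c, r * c - 1] := by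
    intro s c r
    change (uS s).1 * wS.1 * (uS c).1 * wS.1 * (uS r).1 = _
    simp only [uS, wS]
    ext i j
    fin_cases i <;> fin_cases j <;> simp [Matrix.mul_apply, Fin.sum_univ_two] <;> ring
  rw [key]
  fin_cases i <;> fin_cases j
  · simp only [Fin.zero_eta, of_apply, cons_val', cons_val_zero, cons_val_fin_one]
    change x 0 0 = _
    field_simp; ring
  · simp only [Fin.zero_eta, Fin.mk_one, of_apply, cons_val', cons_val_zero, cons_val_one,
      cons_val_fin_one]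
    change x 0 1 = _
    field_simp
    linear_combination (-1) * hd
  · rfl
  · simp only [Fin.mk_one, of_apply, cons_val', cons_val_one, cons_val_fin_one]
    change x 1 1 = _
    field_simp; ring

lemma LM_of_ne (x : SL27) (hc : x 1 0 ≠ 0) : LM x := by
  rw [decomp x hc]
  exact ((((LM_u _).mul LM_w).mul (LM_u _)).mul LM_w).mul (LM_u _)

lemma LM_all (x : SL27) : LM x := by
  by_cases hc : x 1 0 = 0
  · have hd := det_eq x
    rw [hc, mul_zero, sub_zero] at hd
    have h0 : x 0 0 ≠ 0 := by intro h; rw [h, zero_mul] at hd; exact zero_ne_one hd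
    have h1 : LM (wS * x) := by
      apply LM_of_ne
      rw [mul_ap]; simpa [wS] using h0
    have h2 : wS * wS * wS * wS = 1 := by
      apply Subtype.ext
      simp only [Matrix.SpecialLinearGroup.coe_mul, wS]
      decide +kernel
    have h3 : x = wS * wS * wS * (wS * x) := by
      rw [← mul_assoc, h2, one_mul]
    rw [h3]
    exact ((LM_w.mul LM_w).mul LM_w).mul h1
  · exact LM_of_ne x hc

/-- the homomorphism -/
def rho : SL27 →* SL3 where
  toFun := rhoF
  map_one' := rhoF_one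
  map_mul' := fun x y => LM_all x y

lemma rho_apply (x : SL27) : rho x = rhoF x := rfl

lemma rho_ker (x : SL27) : rho x = 1 ↔ x = 1 ∨ x = -1 := by
  constructor
  · intro h
    rw [rho_apply, rhoF] at h
    by_cases hc : x 1 0 = 0
    · rw [if_pos hc] at h
      have hd := det_eq x
      rw [hc, mul_zero, sub_zero] at hd
      have h0 : x 0 0 ≠ 0 := by intro h; rw [h, zero_mul] at hd; exact zero_ne_one hd
      have h1 := borel_eq (x 0 0) (x 0 1 * x 1 1) h0 (congrArg Subtype.val h)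
      have h11 : x 1 1 ≠ 0 := by intro h; rw [h, mul_zero] at hd; exact zero_ne_one hd
      have h01 : x 0 1 = 0 := (mul_eq_zero.mp h1.1).resolve_right h11
      rcases h1.2 with h2 | h2
      · left
        rw [h2, one_mul] at hd
        apply Subtype.ext
        ext i j
        fin_cases i <;> fin_cases j
        · exact h2
        · exact h01
        · exact hc
        · exact hd
      · right
        have hd' : x 1 1 = -1 := by
          rw [h2] at hd; linear_combination (-1) * hd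
        apply Subtype.ext
        ext i j
        fin_cases i <;> fin_cases j
        · exact h2
        · exact h01
        · exact hc
        · exact hd'
    · rw [if_neg hc] at h
      exfalso
      apply words_ne (x 0 0 * (x 1 0)⁻¹) (x 1 1 * (x 1 0)⁻¹) (ti (x 1 0))
      rw [← tauM_eq]
      exact congrArg Subtype.val h
  · rintro (rfl | rfl)
    · exact map_one _
    · rw [rho_apply]
      apply Subtype.ext
      decide +kernel

/-- the group `PSL(2,7)` inside `SL(3,11)` -/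
abbrev LL := rho.range

/-- words -/
lemma LL_cases (l : LL) : (∃ (i : Fin 3) (r : ZMod 7), ((l : SL3) : M3) = Cp i * TzU r) ∨
    (∃ (s : ZMod 7) (i : Fin 3) (r : ZMod 7), ((l : SL3) : M3) = TzU s * WM * Cp i * TzU r) := by
  obtain ⟨l, x, rfl⟩ := l
  by_cases hc : x 1 0 = 0
  · left
    refine ⟨ti (x 0 0), x 0 1 * x 1 1, ?_⟩
    change (rhoF x : M3) = _
    rw [rhoF, if_pos hc, ← tauM_eq]; rfl
  · right
    refine ⟨x 0 0 * (x 1 0)⁻¹, ti (x 1 0), x 1 1 * (x 1 0)⁻¹, ?_⟩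
    change (rhoF x : M3) = _
    rw [rhoF, if_neg hc, ← tauM_eq]; rfl

/-- every word is in the group -/
lemma word_mem (s : ZMod 7) (i : Fin 3) (r : ZMod 7) :
    ∃ l : LL, ((l : SL3) : M3) = TzU s * WM * Cp i * TzU r := by
  -- choose a diagonal entry
  have : ∃ c : ZMod 7, c ≠ 0 ∧ ti c = i := by
    revert i; decide +kernel
  obtain ⟨c, hc, rfl⟩ := this
  let x : SL27 := ⟨!![s * c, s * (r * c) - c⁻¹; c, r * c], by
    rw [Matrix.det_fin_two_of]; field_simp; ring⟩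
  refine ⟨⟨rho x, x, rfl⟩, ?_⟩
  change (rhoF x : M3) = _
  have h10 : x 1 0 = c := rfl
  have h00 : x 0 0 = s * c := rfl
  have h11 : x 1 1 = r * c := rfl
  rw [rhoF, h10, if_neg hc, h00, h11, ← tauM_eq]
  have e1 : s * c * c⁻¹ = s := by field_simp
  have e2 : r * c * c⁻¹ = r := by field_simp
  rw [e1, e2]; rfl

end Pool.Cartan73
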