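import Pool.Agent.Cartan73.Assemble
import Pool.Agent.Cartan73.Rho

/-! # The group `H = 11^{3+3} : PSL(2,7)` (helper73, MP_bea28b_al) -/

namespace Pool.Cartan73

open Matrix

/-- The group `N` of order `11^6`. -/
@[ext] structure NN where
  u : V3
  z : V3
deriving DecidableEq

namespace NN

/-- equivalence with pairs -/
def equivProd : NN ≃ V3 × V3 where
  toFun n := (n.u, n.z)
  invFun p := ⟨p.1, p.2⟩
  left_inv _ := rfl
  right_inv _ := rfl

instance : Fintype NN := Fintype.ofEquiv _ equivProd.symm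

instance : Mul NN := ⟨fun a b => ⟨a.u + b.u, a.z + b.z + a.u ⨯₃ b.u⟩⟩
instance : One NN := ⟨⟨0, 0⟩⟩
instance : Inv NN := ⟨fun a => ⟨-a.u, -a.z⟩⟩

@[simp] lemma mul_u (a b : NN) : (a * b).u = a.u + b.u := rfl
@[simp] lemma mul_z (a b : NN) : (a * b).z = a.z + b.z + a.u ⨯₃ b.u := rfl
@[simp] lemma one_u : (1 : NN).u = 0 := rfl
@[simp] lemma one_z : (1 : NN).z = 0 := rfl
@[simp] lemma inv_u (a : NN) : (a⁻¹).u = -a.u := rfl
@[simp] lemma inv_z (a : NN) : (a⁻¹).z = -a.z := rfl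

instance : Group NN := Group.ofLeftAxioms
  (by
    intro a b c
    ext1
    · simp [add_assoc]
    · simp only [mul_z, mul_u, map_add, LinearMap.add_apply]
      abel)
  (by intro a; ext1 <;> simp)
  (by
    intro a; ext1
    · simp
    · simp only [mul_z, inv_z, inv_u, map_neg, LinearMap.neg_apply, cross_self, one_z]
      abel)

lemma card : Nat.card NN = 11 ^ 6 := by
  rw [Nat.card_congr equivProd, Nat.card_prod, Nat.card_eq_fintype_card]
  simp [ZMod.card]

end NN

/-- the dual matrix -/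
def dual (M : M3) : M3 := M.adjugateᵀ

lemma dual_mul (M N : M3) : dual (M * N) = dual M * dual N := by
  rw [dual, adjugate_mul_distrib, transpose_mul]; rfl

lemma dual_one : dual 1 = 1 := by rw [dual, adjugate_one, transpose_one]

lemma cross_mulVec (M : M3) (u v : V3) : (M *ᵥ u) ⨯₃ (M *ᵥ v) = dual M *ᵥ (u ⨯₃ v) := by
  ext i
  rw [dual, adjugate_fin_three]
  fin_cases i <;>
    simp [cross_apply, mulVec, dotProduct, Fin.sum_univ_three] <;> ring

lemma dot_dual (M : M3) (u v : V3) : (M *ᵥ u) ⬝ᵥ (dual M *ᵥ v) = M.det * (u ⬝ᵥ v) := by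
  rw [dual, adjugate_fin_three, det_fin_three]
  simp [mulVec, dotProduct, Fin.sum_univ_three]; ring

lemma dual_dual {M : M3} (hM : M.det = 1) : dual (dual M) = M := by
  rw [dual, dual, adjugate_transpose, transpose_transpose, adjugate_adjugate M (by decide)]
  simp [hM]

/-- action of `SL(3,11)` on `N` -/
def phi : SL3 →* MulAut NN where
  toFun M :=
    { toFun := fun a => ⟨M.1 *ᵥ a.u, dual M.1 *ᵥ a.z⟩
      invFun := fun a => ⟨(M⁻¹).1 *ᵥ a.u, dual (M⁻¹).1 *ᵥ a.z⟩
      left_inv := by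
        intro a
        have h : (M⁻¹).1 * M.1 = 1 := congrArg Subtype.val (inv_mul_cancel M)
        ext1
        · change (M⁻¹).1 *ᵥ (M.1 *ᵥ a.u) = a.u
          rw [mulVec_mulVec, h, one_mulVec]
        · change dual (M⁻¹).1 *ᵥ (dual M.1 *ᵥ a.z) = a.z
          rw [mulVec_mulVec, ← dual_mul, h, dual_one, one_mulVec]
      right_inv := by
        intro a
        have h : M.1 * (M⁻¹).1 = 1 := congrArg Subtype.val (mul_inv_cancel M)
        ext1
        · change M.1 *ᵥ ((M⁻¹).1 *ᵥ a.u) = a.u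
          rw [mulVec_mulVec, h, one_mulVec]
        · change dual M.1 *ᵥ (dual (M⁻¹).1 *ᵥ a.z) = a.z
          rw [mulVec_mulVec, ← dual_mul, h, dual_one, one_mulVec]
      map_mul' := by
        intro a b
        ext1
        · change M.1 *ᵥ (a.u + b.u) = M.1 *ᵥ a.u + M.1 *ᵥ b.u
          rw [mulVec_add]
        · change dual M.1 *ᵥ (a.z + b.z + a.u ⨯₃ b.u)
            = dual M.1 *ᵥ a.z + dual M.1 *ᵥ b.z + (M.1 *ᵥ a.u) ⨯₃ (M.1 *ᵥ b.u)
          rw [mulVec_add, mulVec_add, cross_mulVec] }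
  map_one' := by
    ext1 a
    ext1
    · change (1 : M3) *ᵥ a.u = a.u
      rw [one_mulVec]
    · change dual (1 : M3) *ᵥ a.z = a.z
      rw [dual_one, one_mulVec]
  map_mul' := by
    intro M N
    ext1 a
    ext1
    · change (M.1 * N.1) *ᵥ a.u = M.1 *ᵥ (N.1 *ᵥ a.u)
      rw [mulVec_mulVec]
    · change dual (M.1 * N.1) *ᵥ a.z = dual M.1 *ᵥ (dual N.1 *ᵥ a.z)
      rw [mulVec_mulVec, dual_mul]

/-- the group `H` -/
abbrev HH := NN ⋊[phi.comp LL.subtype] LL

end Pool.Cartan73
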