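import Mathlib

/-! # Hecke idempotents of odd order subgroups in characteristic two (helper73, MP_bea28b_al)

For a finite group `G`, a field `k` of characteristic two, a subgroup `A` of odd order and a linear
character `lam : A →* k`, the element `f = ∑ a, lam a⁻¹ a` is an idempotent of `k[G]`. -/

namespace Pool.Cartan73

open MonoidAlgebra

/-- A subgroup of odd order together with a linear character. -/
structure LinPair (k G : Type*) [Field k] [Group G] where
  A : Subgroup G
  lam : A →* k
  odd : Odd (Nat.card A)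

namespace LinPair

variable {k G : Type*} [Field k] [Group G] [Finite G]

attribute [local instance 10000] Fintype.ofFinite

/-- The idempotent of a pair. -/
noncomputable def f (P : LinPair k G) : MonoidAlgebra k G :=
  ∑ a : P.A, single (a : G) (P.lam a⁻¹)

omit [Finite G] in
lemma lam_mul_inv (P : LinPair k G) (a : P.A) : P.lam a * P.lam a⁻¹ = 1 := by
  rw [← map_mul]; simp

omit [Finite G] in
lemma lam_inv_mul (P : LinPair k G) (a : P.A) : P.lam a⁻¹ * P.lam a = 1 := by
  rw [← map_mul]; simp

omit [Finite G] in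
lemma lam_ne_zero (P : LinPair k G) (a : P.A) : P.lam a ≠ 0 := by
  intro h
  have := P.lam_mul_inv a
  rw [h] at this; simp at this

lemma single_mul_f (P : LinPair k G) (a : P.A) :
    single (a : G) (1 : k) * P.f = P.lam a • P.f := by
  unfold f
  rw [Finset.mul_sum, Finset.smul_sum]
  refine Fintype.sum_equiv (Equiv.mulLeft a) _ _ ?_
  intro b
  simp only [single_mul_single, one_mul, smul_single, Equiv.coe_mulLeft, smul_eq_mul]
  rw [mul_inv_rev, map_mul, mul_comm (P.lam b⁻¹), ← mul_assoc, P.lam_mul_inv, one_mul]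
  rfl

lemma f_mul_single (P : LinPair k G) (a : P.A) :
    P.f * single (a : G) (1 : k) = P.lam a • P.f := by
  unfold f
  rw [Finset.sum_mul, Finset.smul_sum]
  refine Fintype.sum_equiv (Equiv.mulRight a) _ _ ?_
  intro b
  simp only [single_mul_single, mul_one, smul_single, Equiv.coe_mulRight, smul_eq_mul]
  rw [mul_inv_rev, map_mul, ← mul_assoc, P.lam_mul_inv, one_mul]
  rfl

omit [Group G] [Finite G] in
lemma cast_odd [CharP k 2] {n : ℕ} (h : Odd n) : (n : k) = 1 := by
  obtain ⟨m, rfl⟩ := h
  have h2 : (2 : k) = 0 := CharP.cast_eq_zero k 2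
  push_cast
  rw [h2]; simp

lemma f_mul_f [CharP k 2] (P : LinPair k G) : P.f * P.f = P.f := by
  have h0 : P.f * P.f = ∑ a : P.A, single (a : G) (P.lam a⁻¹) * P.f := by
    rw [← Finset.sum_mul]; rfl
  rw [h0]
  have : ∀ a : P.A, single (a : G) (P.lam a⁻¹) * P.f = P.f := by
    intro a
    have h1 : single (a : G) (P.lam a⁻¹) = P.lam a⁻¹ • single (a : G) (1 : k) := by
      rw [smul_single]; simp
    rw [h1, smul_mul_assoc, P.single_mul_f, smul_smul, P.lam_inv_mul, one_smul]
  rw [Finset.sum_congr rfl (fun a _ => this a), Finset.sum_const, Finset.card_univ,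
    ← Nat.card_eq_fintype_card, ← Nat.cast_smul_eq_nsmul k, cast_odd P.odd, one_smul]

/-- coefficient of `f` at a group element -/
lemma f_coeff_mem (P : LinPair k G) (a : P.A) : P.f.coeff (a : G) = P.lam a⁻¹ := by
  classical
  unfold f
  rw [coeff_sum, Finsupp.finsetSum_apply]
  simp only [coeff_single, Finsupp.single_apply]
  rw [Finset.sum_eq_single a]
  · simp
  · intro b _ hb
    rw [if_neg]; intro h; exact hb (Subtype.ext h)
  · intro h; exact absurd (Finset.mem_univ _) h

lemma f_coeff_not_mem (P : LinPair k G) {g : G} (hg : g ∉ P.A) : P.f.coeff g = 0 := by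
  classical
  unfold f
  rw [coeff_sum, Finsupp.finsetSum_apply]
  simp only [coeff_single, Finsupp.single_apply]
  refine Finset.sum_eq_zero (fun b _ => ?_)
  rw [if_neg]; intro h; exact hg (h ▸ b.2)

lemma f_coeff_one (P : LinPair k G) : P.f.coeff 1 = 1 := by
  have := P.f_coeff_mem 1
  simpa using this

/-- incompatible pairs -/
lemma f_mul_single_mul_f_eq_zero (P Q : LinPair k G) (h : G) (a : P.A) (b : Q.A)
    (hab : (a : G) * h = h * b) (hne : P.lam a ≠ Q.lam b) :
    P.f * single h (1 : k) * Q.f = 0 := by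
  have h1 : P.lam a • (P.f * single h (1 : k) * Q.f) = Q.lam b • (P.f * single h (1 : k) * Q.f) := by
    calc P.lam a • (P.f * single h (1 : k) * Q.f)
        = (P.lam a • P.f) * single h (1 : k) * Q.f := by simp
      _ = P.f * single (a : G) (1 : k) * single h (1 : k) * Q.f := by rw [P.f_mul_single]
      _ = P.f * single ((a : G) * h) (1 : k) * Q.f := by
          rw [mul_assoc P.f, single_mul_single, one_mul]
      _ = P.f * single h (1 : k) * (single (b : G) (1 : k) * Q.f) := by
          rw [hab, ← mul_assoc, mul_assoc P.f (single h 1), single_mul_single, one_mul]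
      _ = Q.lam b • (P.f * single h (1 : k) * Q.f) := by
          rw [Q.single_mul_f, mul_smul_comm]
  have h2 : (P.lam a - Q.lam b) • (P.f * single h (1 : k) * Q.f) = 0 := by
    rw [sub_smul, h1, sub_self]
  exact (smul_eq_zero.mp h2).resolve_left (sub_ne_zero.mpr hne)

/-- compatible pairs: the coefficient at `h` is one -/
lemma coeff_f_mul_single_mul_f [CharP k 2] (P Q : LinPair k G) (h : G)
    (hc : ∀ (a : P.A) (b : Q.A), (a : G) * h = h * b → P.lam a = Q.lam b) :
    (P.f * single h (1 : k) * Q.f).coeff h = 1 := by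
  classical
  have h1 : P.f * single h (1 : k) * Q.f
      = ∑ a : P.A, ∑ b : Q.A, single ((a : G) * h * b) (P.lam a⁻¹ * Q.lam b⁻¹) := by
    unfold f
    rw [Finset.sum_mul, Finset.sum_mul]
    refine Finset.sum_congr rfl (fun a _ => ?_)
    rw [Finset.mul_sum]
    refine Finset.sum_congr rfl (fun b _ => ?_)
    simp [single_mul_single]
  rw [h1, coeff_sum, Finsupp.finsetSum_apply]
  simp only [coeff_sum, Finsupp.finsetSum_apply, coeff_single, Finsupp.single_apply]
  -- the subgroup of compatible elements
  let S : Subgroup P.A := (Q.A.comap (MulAut.conj h⁻¹).toMonoidHom).comap P.A.subtype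
  have hS : ∀ a : P.A, (∑ b : Q.A, if (a : G) * h * b = h then P.lam a⁻¹ * Q.lam b⁻¹ else 0)
      = if a ∈ S then 1 else 0 := by
    intro a
    have memS : a ∈ S ↔ h⁻¹ * (a : G) * h ∈ Q.A := by
      have : a ∈ S ↔ (MulAut.conj h⁻¹) (a : G) ∈ Q.A := Iff.rfl
      rw [this, MulAut.conj_apply, inv_inv]
    by_cases ha : a ∈ S
    · rw [if_pos ha]
      have hb := memS.mp ha
      rw [Finset.sum_eq_single (⟨h⁻¹ * (a : G) * h, hb⟩⁻¹ : Q.A)]
      · rw [if_pos]
        · have h3 := hc a ⟨h⁻¹ * (a : G) * h, hb⟩ (by simp [mul_assoc])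
          rw [inv_inv, ← h3, P.lam_inv_mul]
        · simp [mul_assoc]
      · intro b _ hb'
        rw [if_neg]
        intro h4
        apply hb'
        apply Subtype.ext
        have : (b : G) = (h⁻¹ * (a : G) * h)⁻¹ := by
          have h5 : ((a : G) * h)⁻¹ * ((a : G) * h * b) = ((a : G) * h)⁻¹ * h := by rw [h4]
          rw [inv_mul_cancel_left] at h5
          rw [h5]; simp [mul_assoc]
        simpa using this
      · intro h4; exact absurd (Finset.mem_univ _) h4
    · rw [if_neg ha]
      refine Finset.sum_eq_zero (fun b _ => ?_)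
      rw [if_neg]
      intro h4
      apply ha
      rw [memS]
      have : h⁻¹ * (a : G) * h = (b : G)⁻¹ := by
        have h5 : (a : G) * h = h * (b : G)⁻¹ := by
          rw [eq_mul_inv_iff_mul_eq]; exact h4
        rw [mul_assoc, h5, inv_mul_cancel_left]
      rw [this]; exact Q.A.inv_mem b.2
  rw [Finset.sum_congr rfl (fun a _ => hS a), Finset.sum_boole]
  have hcard : (Finset.univ.filter (fun a : P.A => a ∈ S)).card = Nat.card S := by
    rw [Nat.card_eq_fintype_card, Fintype.card_subtype]
  rw [hcard]
  apply cast_odd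
  exact P.odd.of_dvd_nat (Subgroup.card_subgroup_dvd_card S)

end LinPair

end Pool.Cartan73
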