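import Pool.Agent.Cartan73.Borel4
import Pool.Agent.Cartan73.Full2

/-! # Instances: `PSL(2,967)`, `PSL(2,7)`, characters (helper73, MP_bea28b_al) -/

set_option linter.unusedSectionVars false

open Matrix Finset Cartan76

namespace Pool.Cartan73

section
variable {k : Type*} [Field k]

lemma exists_addChar [IsAlgClosed k] [CharP k 2] (p : ℕ) [Fact p.Prime] (hp : Odd p) :
    ∃ ψ : AddChar (ZMod p) k, ψ ≠ 1 := by
  have : NeZero ((p : ℕ) : k) := by
    refine ⟨?_⟩
    have h : ((p : ℕ) : k) = 1 := LinPair.cast_odd hp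
    rw [h]; exact one_ne_zero
  have hp1 : 1 < p := (Fact.out : p.Prime).one_lt
  obtain ⟨z, hz⟩ := HasEnoughRootsOfUnity.exists_primitiveRoot k p
  refine ⟨AddChar.zmodChar p hz.pow_eq_one, ?_⟩
  intro h
  have h1 : AddChar.zmodChar p hz.pow_eq_one 1 = 1 := by rw [h]; rfl
  rw [AddChar.zmodChar_apply] at h1
  have h2 := hz.dvd_of_pow_eq_one _ h1
  have h3 := Nat.eq_zero_of_dvd_of_lt h2 (ZMod.val_lt (1 : ZMod p))
  have h4 := (ZMod.val_eq_zero (1 : ZMod p)).mp h3
  have : Fact (1 < p) := ⟨hp1⟩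
  exact one_ne_zero h4

end

/-! ### generating characters -/

lemma exists_genChar {F k G : Type*} [Field F] [Fintype F] [DecidableEq F] [Field k]
    [IsAlgClosed k] [CharP k 2] [Group G] (S : Setup F k G) :
    Nonempty (Borel.GenChar F k (4 * S.c - 1)) := by
  have hc := S.hc
  have hq := S.hq
  have hcard : Fintype.card Fˣ = 2 * (4 * S.c - 1) := by
    rw [Fintype.card_units]; omega
  have hN : (4 * S.c - 1) % 2 = 1 := by omega
  obtain ⟨g, hg⟩ := IsCyclic.exists_generator (α := Fˣ)
  have hord : orderOf g = 2 * (4 * S.c - 1) := by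
    rw [orderOf_eq_card_of_forall_mem_zpowers hg, Nat.card_eq_fintype_card, hcard]
  have : NeZero (((4 * S.c - 1 : ℕ)) : k) := by
    refine ⟨?_⟩
    rw [Setup.cast_odd hN]; exact one_ne_zero
  obtain ⟨z, hz⟩ := HasEnoughRootsOfUnity.exists_primitiveRoot k (4 * S.c - 1)
  have hzu : IsUnit z := hz.isUnit (by omega)
  obtain ⟨zu, rfl⟩ := hzu
  have hz' : IsPrimitiveRoot zu (4 * S.c - 1) := IsPrimitiveRoot.coe_units_iff.1 hz
  have hdvd : orderOf zu ∣ orderOf g := by
    rw [hord, ← hz'.eq_orderOf]; exact Dvd.intro_left 2 rfl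
  refine ⟨⟨g, ?_, ?_, monoidHomOfForallMemZpowers hg hdvd, ?_⟩⟩
  · intro a
    obtain ⟨i, hi⟩ := (mem_powers_iff_mem_zpowers.2 (hg a))
    exact ⟨i, hi.symm⟩
  · have h1 : (g ^ (4 * S.c - 1)) ^ 2 = 1 := by
      rw [← pow_mul, mul_comm, ← hord, pow_orderOf_eq_one]
    have h2 : g ^ (4 * S.c - 1) ≠ 1 := by
      intro h3
      have h4 := orderOf_dvd_of_pow_eq_one h3
      rw [hord] at h4
      have h5 := Nat.le_of_dvd (by omega) h4
      omega
    have h3 : ((g ^ (4 * S.c - 1) : Fˣ) : F) ^ 2 = 1 := by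
      rw [← Units.val_pow_eq_pow_val, h1, Units.val_one]
    have h5 : (((g ^ (4 * S.c - 1) : Fˣ) : F) - 1) * (((g ^ (4 * S.c - 1) : Fˣ) : F) + 1) = 0 := by
      linear_combination h3
    rcases mul_eq_zero.1 h5 with h4 | h4
    · exact absurd (Units.ext (sub_eq_zero.1 h4)) h2
    · apply Units.ext
      rw [Units.val_neg, Units.val_one]
      linear_combination h4
  · rw [monoidHomOfForallMemZpowers_apply_gen]
    exact hz'.eq_orderOf.symm

/-! ### the setup for `PSL(2,7)` and `PSL(2,967)` -/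

/-- elements of the centre of `SL(2,F)` -/
lemma mem_center_SL2 {F : Type*} [Field F] (g : SLF F) :
    g ∈ Subgroup.center (SLF F) ↔ (g.1 = 1 ∨ g.1 = -1) := by
  rw [Matrix.SpecialLinearGroup.mem_center_iff]
  constructor
  · rintro ⟨r, hr, h⟩
    rw [Fintype.card_fin] at hr
    have h1 : (r - 1) * (r + 1) = 0 := by linear_combination hr
    rcases mul_eq_zero.1 h1 with h2 | h2
    · left
      rw [← h, sub_eq_zero.1 h2]; simp
    · right
      have : r = -1 := by linear_combination h2
      rw [← h, this, map_neg, map_one]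
  · rintro (h | h)
    · exact ⟨1, by simp, by rw [map_one]; exact h.symm⟩
    · exact ⟨-1, by simp, by rw [map_neg, map_one]; exact h.symm⟩

/-- the setup for `PSL(2,p)` -/
noncomputable def setupPSL (k : Type*) [Field k] (p : ℕ) [Fact p.Prime] (c : ℕ) (hc : c % 2 = 1)
    (hq : p + 1 = 8 * c) (ψ : AddChar (ZMod p) k) (hψ : ψ ≠ 1) :
    Setup (ZMod p) k (Matrix.ProjectiveSpecialLinearGroup (Fin 2) (ZMod p)) where
  toHom := QuotientGroup.mk' _
  surj := QuotientGroup.mk'_surjective _
  ker := by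
    intro g h
    rw [QuotientGroup.mk'_apply, QuotientGroup.mk'_apply, QuotientGroup.eq, mem_center_SL2]
    have key : ∀ ε : Matrix (Fin 2) (Fin 2) (ZMod p), (ε = 1 ∨ ε = -1) →
        ((g⁻¹ * h).1 = ε ↔ h.1 = g.1 * ε) := by
      intro ε hε
      constructor
      · intro h1
        have h2 : h = g * (g⁻¹ * h) := by rw [mul_inv_cancel_left]
        have h3 : h.1 = g.1 * (g⁻¹ * h).1 := by
          nth_rewrite 1 [h2]
          rw [Matrix.SpecialLinearGroup.coe_mul]
        rw [h3, h1]
      · intro h1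
        have h2 : (g⁻¹ * h).1 = (g⁻¹).1 * h.1 := Matrix.SpecialLinearGroup.coe_mul _ _
        have h3 : (g⁻¹).1 * g.1 = 1 := by
          rw [← Matrix.SpecialLinearGroup.coe_mul, inv_mul_cancel]; rfl
        rw [h2, h1, ← mul_assoc, h3, one_mul]
    rw [key 1 (Or.inl rfl), key (-1) (Or.inr rfl), mul_one, mul_neg, mul_one]
    constructor
    · rintro (h1 | h1)
      · left; exact h1.symm
      · right; rw [h1, neg_neg]
    · rintro (h1 | h1)
      · left; exact h1.symm
      · right; rw [h1, neg_neg]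
  ψ := ψ
  hψ := hψ
  c := c
  hc := hc
  hq := by rw [ZMod.card]; exact hq

instance fact967 : Fact (Nat.Prime 967) := ⟨by norm_num⟩

/-- the setup for `LL = PSL(2,7)` inside `SL(3,11)` -/
noncomputable def setupLL (k : Type*) [Field k] (ψ : AddChar (ZMod 7) k) (hψ : ψ ≠ 1) :
    Setup (ZMod 7) k LL where
  toHom := rho.rangeRestrict
  surj := rho.rangeRestrict_surjective
  ker := by
    intro g h
    have h1 : rho.rangeRestrict g = rho.rangeRestrict h ↔ rho (g⁻¹ * h) = 1 := by
      rw [map_mul, map_inv, inv_mul_eq_one]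
      constructor
      · intro h2; exact congrArg Subtype.val h2
      · intro h2; exact Subtype.ext h2
    rw [h1, rho_ker, inv_mul_eq_one, inv_mul_eq_iff_eq_mul, mul_neg, mul_one]
    constructor
    · rintro (h2 | h2)
      · left; rw [h2]
      · right; rw [h2]; simp
    · rintro (h2 | h2)
      · left; exact Subtype.ext h2
      · right
        apply Subtype.ext
        have : (-g).1 = -g.1 := by simp
        rw [this, h2, neg_neg]
  ψ := ψ
  hψ := hψ
  c := 1
  hc := rfl
  hq := by rw [ZMod.card]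

end Pool.Cartan73
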