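import Pool.Agent.Cartan73.GSide
import Pool.Agent.Cartan73.Inst
import Pool.Agent.Cartan76.Om2

/-! # Instantiating the Gelfand-Graev part (helper73, MP_bea28b_al) -/

set_option linter.unusedSectionVars false

open Matrix Finset Cartan76

namespace Pool.Cartan73
namespace Borel

variable {F k G : Type*} [Field F] [Fintype F] [DecidableEq F] [Field k] [CharP k 2] [Group G]
variable (S : Setup F k G)

lemma xx_X (Y : TChar F k) (α β : F) (j : ℤ) (hα : α * α = 1) (hβ : β = α * Setup.sg F j) :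
    xx S Y α * S.X α β j = 0 := by
  have hβ2 : β * β = 1 := by
    rw [hβ]; linear_combination Setup.sg F j * Setup.sg F j * hα + Setup.sg_sq (F := F) j
  have hαβ : α * β = Setup.sg F j := by rw [hβ]; linear_combination Setup.sg F j * hα
  by_cases hj : (8 * (S.c : ℤ)) ∣ j
  · have hj1 : Setup.sg F j = 1 := Setup.sg_even (by
      obtain ⟨m, rfl⟩ := hj
      exact ⟨4 * S.c * m, by ring⟩)
    rw [S.X_dvd α β hj, hβ, hj1, mul_one]
    exact xx_z S Y hα
  · rw [S.X_of_not_dvd α β hj]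
    apply xx_D S Y hα hβ2
    rw [hαβ]
    rintro ⟨w, hw⟩
    exact S.disc_nonsq hj w (by rw [hw]; ring)

lemma X_yy (Y : TChar F k) (α β : F) (j : ℤ) (hα : α * α = 1) (hβ2 : β * β = 1)
    (hβ : α = β * Setup.sg F j) :
    S.X β α j * yy S Y α = 0 := by
  have hαβ : β * α = Setup.sg F j := by rw [hβ]; linear_combination Setup.sg F j * hβ2
  by_cases hj : (8 * (S.c : ℤ)) ∣ j
  · have hj1 : Setup.sg F j = 1 := Setup.sg_even (by
      obtain ⟨m, rfl⟩ := hj
      exact ⟨4 * S.c * m, by ring⟩)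
    rw [hj1, mul_one] at hβ
    subst hβ
    rw [S.X_dvd α α hj]
    exact z_yy S Y hα
  · rw [S.X_of_not_dvd β α hj]
    apply D_yy S Y hα hβ2
    rw [hαβ]
    rintro ⟨w, hw⟩
    exact S.disc_nonsq hj w (by rw [hw]; ring)

variable (χ : AddChar (ZMod S.c) k)

lemma xx_J (Y : TChar F k) (α β : F) (m : ZMod S.c) (j : ℤ) (hα : α * α = 1)
    (hβ : β = α * Setup.sg F j) : xx S Y α * S.J χ α β m j = 0 := by
  unfold Setup.J
  rw [Finset.mul_sum]
  refine Finset.sum_eq_zero fun i _ => ?_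
  unfold Setup.XZ
  rw [mul_smul_comm, xx_X S Y α β _ hα, smul_zero]
  rw [Setup.sg_add, hβ, Setup.sg_even (j := 8 * (i.val : ℤ)) ⟨4 * i.val, by ring⟩, mul_one]

lemma J_yy (Y : TChar F k) (α β : F) (m : ZMod S.c) (j : ℤ) (hα : α * α = 1) (hβ2 : β * β = 1)
    (hβ : α = β * Setup.sg F j) : S.J χ β α m j * yy S Y α = 0 := by
  unfold Setup.J
  rw [Finset.sum_mul]
  refine Finset.sum_eq_zero fun i _ => ?_
  unfold Setup.XZ
  rw [smul_mul_assoc, X_yy S Y α β _ hα hβ2, smul_zero]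
  rw [Setup.sg_add, hβ, Setup.sg_even (j := 8 * (i.val : ℤ)) ⟨4 * i.val, by ring⟩, mul_one]

lemma spData {N : ℕ} (Γ : GenChar F k N) {r : ℕ} (hr : N = 2 * r + 1) (hN : N % 2 = 1) {α : F}
    (hα : α * α = 1) : Setup.SpData S χ α (ss S Γ r α) where
  ss := ss_idem S Γ hr α
  es := e_ss S Γ α
  se := ss_e S Γ α
  sJ := by
    intro β m j hβ
    unfold ss
    rw [Finset.sum_mul]
    refine Finset.sum_eq_zero (fun i _ => ?_)
    rw [mul_assoc, xx_J S χ _ α β m j hα hβ, mul_zero]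
  Js := by
    intro β m j hβ2 hβ
    unfold ss
    rw [Finset.mul_sum]
    refine Finset.sum_eq_zero (fun i _ => ?_)
    rw [← mul_assoc, J_yy S χ _ α β m j hα hβ2 hβ, zero_mul]
  sD := by
    intro τ ρ hρ h
    obtain ⟨c, hc⟩ := H3 S Γ hr hN hα hρ h
    exact ⟨c, by rw [← hc]; abel⟩
  sD' := by
    intro τ ρ hρ h
    exact H4 S Γ hr hN hα rfl hρ h

instance neZero_c : NeZero S.c := ⟨by have := S.hc; omega⟩

/-- the Gelfand-Graev part -/
noncomputable def ePart [IsAlgClosed k] (hχ : χ.IsPrimitive) {N : ℕ} (Γ : GenChar F k N) {r : ℕ}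
    (hr : N = 2 * r + 1) (hN : N % 2 = 1) : EPart S Γ r S.reps :=
  have hom : ∀ α : F, S.e α - ∑ m : S.reps, S.eps χ α m.1 - ss S Γ r α
      = S.om χ α (ss S Γ r α) := by
    intro α
    unfold Setup.om
    rw [← Finset.sum_coe_sort S.reps (fun m => S.eps χ α m)]
  have h1 : (1 : F) * 1 = 1 := one_mul 1
  have hne : ∀ m : S.reps, m.1 ≠ 0 := fun m => ((S.mem_reps m.1).1 m.2).1
  { ε := fun m α => S.eps χ α m.1
    e_ε := fun m α _ => S.e_mul_eps χ α m.1
    ε_e := fun m α _ => S.eps_mul_e χ α m.1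
    idem := fun m => S.eps_idem χ hχ 1 h1 (hne m)
    ne := fun m => S.eps_ne χ 1 m.1
    loc := fun m x => S.eps_local χ hχ 1 m.1 h1 (hne m) x
    dim := fun m => S.eps_finrank χ hχ 1 m.1 h1 (hne m)
    orth := fun m m' hmm => dm_zero_of (fun y =>
      S.eps_sand_zero χ hχ 1 1 m.1 m'.1 h1 h1 (hne m) (hne m') (fun h => hmm (Subtype.ext h))
        (fun h => S.reps_not_both m'.2 (by rw [← h]; exact m.2)) y)
    x_ε := fun X m α hα => xx_J S χ X α α m.1 0 hα (by rw [Setup.sg_zero, mul_one])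
    ε_y := fun X m α hα => J_yy S χ X α α m.1 0 hα hα (by rw [Setup.sg_zero, mul_one])
    equi := by
      intro m
      have h2 := S.eps_equiv χ hχ (-1) m.1 neg_one_mul_neg_one_F (hne m)
      rw [neg_neg] at h2
      refine ⟨S.J χ (-1) 1 m.1 1, S.J χ 1 (-1) m.1 (-1), ?_⟩
      have h3 : S.J χ (-1) 1 m.1 1 * S.eps χ 1 m.1 = S.J χ (-1) 1 m.1 1 := by
        have hs : Setup.sg F 1 = -1 := Setup.sg_odd ⟨0, by ring⟩
        rw [S.J_mul_eps χ hχ (-1) 1 m.1 m.1 1 neg_one_mul_neg_one_F (by rw [hs]; ring) (hne m),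
          if_pos (Or.inl rfl)]
      rw [h3, h2]
    om_idem := fun α hα => by
      rw [hom]
      exact Setup.om_idem hχ hα (spData S χ Γ hr hN hα)
    om_ne := fun α hα => by
      rw [hom]
      exact Setup.om_ne hχ hα (spData S χ Γ hr hN hα)
    om_loc := fun α hα x => by
      rw [hom]
      exact Setup.om_local hχ hα (spData S χ Γ hr hN hα) x
    om_dim := fun α hα => by
      rw [hom]
      exact Setup.om_finrank hχ hα (spData S χ Γ hr hN hα)
    om_dim' := fun α hα => by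
      rw [hom, hom]
      exact Setup.om_finrank' hχ hα (spData S χ Γ hr hN hα)
        (spData S χ Γ hr hN (by linear_combination hα))
    om_ε := fun α hα m => by
      rw [hom]
      exact dm_zero_of (fun y => Setup.om_sand_eps hχ hα (spData S χ Γ hr hN hα) h1 (hne m) y)
    ε_om := fun α hα m => by
      rw [hom]
      exact dm_zero_of (fun y => Setup.eps_sand_om hχ hα (spData S χ Γ hr hN hα) h1 (hne m) y) }

/-- **The G side** -/
theorem G_data [IsAlgClosed k] [Finite G] (r : ℕ) (hr : 4 * S.c - 1 = 2 * r + 1) :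
    Nonempty (IdemData k (MonoidAlgebra k G) (Fin 3 ⊕ (S.reps ⊕ Fin r)) (CC wt)) := by
  classical
  obtain ⟨Γ⟩ := exists_genChar S
  have hc := S.hc
  have : NeZero ((S.c : ℕ) : k) := by
    refine ⟨?_⟩
    rw [Setup.cast_odd S.hc]; exact one_ne_zero
  obtain ⟨z, hz⟩ := HasEnoughRootsOfUnity.exists_primitiveRoot k S.c
  have hχ := AddChar.zmodChar_primitive_of_primitive_root S.c hz
  exact ⟨(ePart S _ hχ Γ (r := r) hr (by omega)).data hr (by omega)⟩

end Borel
end Pool.Cartan73
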