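import Pool.Agent.Cartan73.GroupH

/-! # Linear pairs in `H` (helper73, MP_bea28b_al) -/

namespace Pool.Cartan73

open Matrix MonoidAlgebra

attribute [local instance 10000] Fintype.ofFinite

/-- matrix of an element of `L` -/
def mt (l : LL) : M3 := ((l : SL3) : M3)

lemma mt_mul (l l' : LL) : mt (l * l') = mt l * mt l' := rfl
lemma mt_one : mt 1 = 1 := rfl
lemma det_mt (l : LL) : (mt l).det = 1 := (l : SL3).2

/-- projection to `L` -/
abbrev piH : HH →* LL := SemidirectProduct.rightHom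

/-- section -/
abbrev sH : LL →* HH := SemidirectProduct.inr

lemma mul_left' (g h : HH) (n : NN) (hn : n = ⟨g.left.u + mt g.right *ᵥ h.left.u,
    g.left.z + dual (mt g.right) *ᵥ h.left.z + g.left.u ⨯₃ (mt g.right *ᵥ h.left.u)⟩) :
    (g * h).left = n := by
  rw [hn]; rfl

lemma mul_left_one (a b : HH) (ha : a.right = 1) :
    (a * b).left = ⟨a.left.u + b.left.u, a.left.z + b.left.z + a.left.u ⨯₃ b.left.u⟩ := by
  apply mul_left'
  rw [ha, mt_one, dual_one, one_mulVec, one_mulVec]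

lemma card_ker : Nat.card piH.ker = 11 ^ 6 := by
  rw [← NN.card]
  refine Nat.card_congr ?_
  exact
    { toFun := fun h => h.1.left
      invFun := fun n => ⟨SemidirectProduct.inl n, by simp⟩
      left_inv := by
        rintro ⟨h, hh⟩
        apply Subtype.ext
        apply SemidirectProduct.ext
        · rfl
        · exact hh.symm
      right_inv := fun n => rfl }

lemma splitOdd : SplitOdd piH sH where
  sec := fun l => by simp
  odd := by rw [card_ker]; decide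

instance : Finite HH := by
  have : Finite (NN × LL) := inferInstance
  exact Finite.of_equiv _ (SemidirectProduct.equivProd).symm

/-- the subgroup `{(u, z) : w · u = 0}` -/
def mkA (w : V3) : Subgroup HH where
  carrier := {h | h.right = 1 ∧ w ⬝ᵥ h.left.u = 0}
  mul_mem' := by
    rintro a b ⟨ha, ha'⟩ ⟨hb, hb'⟩
    refine ⟨by rw [SemidirectProduct.mul_right, ha, hb, mul_one], ?_⟩
    rw [mul_left' a b _ rfl, ha, mt_one, one_mulVec, dotProduct_add, ha', hb', add_zero]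
  one_mem' := ⟨rfl, by change w ⬝ᵥ (0 : V3) = 0; simp⟩
  inv_mem' := by
    rintro a ⟨ha, ha'⟩
    refine ⟨by rw [SemidirectProduct.inv_right, ha, inv_one], ?_⟩
    rw [SemidirectProduct.inv_left, ha, inv_one, map_one, MulAut.one_apply, NN.inv_u,
      dotProduct_neg, ha', neg_zero]

lemma mkA_le (w : V3) : mkA w ≤ piH.ker := fun _ h => h.1

lemma mkA_odd (w : V3) : Odd (Nat.card (mkA w)) := by
  refine Odd.of_dvd_nat ?_ (Subgroup.card_dvd_of_le (mkA_le w))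
  rw [card_ker]; decide

variable {k : Type*} [Field k]

/-- the pair of a plane and a character -/
def mkPair (ψ : AddChar (ZMod 11) k) (w α σ : V3)
    (hσ : ∀ u u' : V3, w ⬝ᵥ u = 0 → w ⬝ᵥ u' = 0 → σ ⬝ᵥ (u ⨯₃ u') = 0) : LinPair k HH where
  A := mkA w
  lam :=
    { toFun := fun h => ψ (α ⬝ᵥ h.1.left.u + σ ⬝ᵥ h.1.left.z)
      map_one' := by
        change ψ (α ⬝ᵥ (0 : V3) + σ ⬝ᵥ (0 : V3)) = 1
        simp
      map_mul' := by
        rintro ⟨a, ha, ha'⟩ ⟨b, hb, hb'⟩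
        change ψ (α ⬝ᵥ (a * b).left.u + σ ⬝ᵥ (a * b).left.z) = _
        rw [mul_left_one a b ha, ← AddChar.map_add_eq_mul]
        congr 1
        simp only [dotProduct_add]
        rw [hσ _ _ ha' hb']
        ring }
  odd := mkA_odd w

section
variable (ψ : AddChar (ZMod 11) k) {w α σ w' α' σ' : V3}
    (hσ : ∀ u u' : V3, w ⬝ᵥ u = 0 → w ⬝ᵥ u' = 0 → σ ⬝ᵥ (u ⨯₃ u') = 0)
    (hσ' : ∀ u u' : V3, w' ⬝ᵥ u = 0 → w' ⬝ᵥ u' = 0 → σ' ⬝ᵥ (u ⨯₃ u') = 0)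

/-- element of `mkA` -/
def mkE (w u z : V3) (hu : w ⬝ᵥ u = 0) : mkA w := ⟨⟨⟨u, z⟩, 1⟩, rfl, hu⟩

/-- conjugation formula -/
lemma conj_eq (h : HH) (u z : V3) :
    (⟨⟨mt h.right *ᵥ u, dual (mt h.right) *ᵥ z + (2 : ZMod 11) • (h.left.u ⨯₃ (mt h.right *ᵥ u))⟩, 1⟩
      : HH) * h = h * ⟨⟨u, z⟩, 1⟩ := by
  apply SemidirectProduct.ext
  · rw [mul_left' _ _ _ rfl, mul_left' _ _ _ rfl]
    ext1
    · change mt h.right *ᵥ u + mt 1 *ᵥ h.left.u = h.left.u + mt h.right *ᵥ u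
      rw [mt_one, one_mulVec, add_comm]
    · change dual (mt h.right) *ᵥ z + (2 : ZMod 11) • (h.left.u ⨯₃ (mt h.right *ᵥ u))
          + dual (mt 1) *ᵥ h.left.z + (mt h.right *ᵥ u) ⨯₃ (mt 1 *ᵥ h.left.u)
        = h.left.z + dual (mt h.right) *ᵥ z + h.left.u ⨯₃ (mt h.right *ᵥ u)
      rw [mt_one, dual_one, one_mulVec, one_mulVec, ← cross_anticomm h.left.u, two_smul]
      abel
  · change 1 * h.right = h.right * 1
    rw [one_mul, mul_one]

lemma incompat (hψ : ∀ x, ψ x = 1 → x = 0) (h : HH) (u z : V3) (hu : w' ⬝ᵥ u = 0)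
    (hu' : w ⬝ᵥ (mt h.right *ᵥ u) = 0)
    (hne : α ⬝ᵥ (mt h.right *ᵥ u) + σ ⬝ᵥ (dual (mt h.right) *ᵥ z
      + (2 : ZMod 11) • (h.left.u ⨯₃ (mt h.right *ᵥ u))) ≠ α' ⬝ᵥ u + σ' ⬝ᵥ z) :
    (mkPair ψ w α σ hσ).f * single h (1 : k) * (mkPair ψ w' α' σ' hσ').f = 0 := by
  refine LinPair.f_mul_single_mul_f_eq_zero _ _ h
    (mkE w (mt h.right *ᵥ u) (dual (mt h.right) *ᵥ z
      + (2 : ZMod 11) • (h.left.u ⨯₃ (mt h.right *ᵥ u))) hu') (mkE w' u z hu) (conj_eq h u z) ?_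
  change ψ (α ⬝ᵥ (mt h.right *ᵥ u) + σ ⬝ᵥ (dual (mt h.right) *ᵥ z
      + (2 : ZMod 11) • (h.left.u ⨯₃ (mt h.right *ᵥ u)))) ≠ ψ (α' ⬝ᵥ u + σ' ⬝ᵥ z)
  intro he
  apply hne
  have h1 : ψ ((α ⬝ᵥ (mt h.right *ᵥ u) + σ ⬝ᵥ (dual (mt h.right) *ᵥ z
      + (2 : ZMod 11) • (h.left.u ⨯₃ (mt h.right *ᵥ u)))) - (α' ⬝ᵥ u + σ' ⬝ᵥ z)) = 1 := by
    rw [AddChar.map_sub_eq_div, he, div_self]
    intro h0
    have := AddChar.map_add_eq_mul ψ (α' ⬝ᵥ u + σ' ⬝ᵥ z) (-(α' ⬝ᵥ u + σ' ⬝ᵥ z))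
    rw [add_neg_cancel, AddChar.map_zero_eq_one, h0, zero_mul] at this
    exact one_ne_zero this
  exact sub_eq_zero.mp (hψ _ h1)

end

end Pool.Cartan73
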