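import Mathlib

/-! # The three-dimensional representation of `PSL(2,7)` over the field with 11 elements:
tables and finite checks (helper73, MP_bea28b_al) -/

namespace Pool.Cartan73

open Matrix

/-- 3 by 3 matrices over the field with 11 elements -/
abbrev M3 := Matrix (Fin 3) (Fin 3) (ZMod 11)
/-- vectors -/
abbrev V3 := Fin 3 → ZMod 11

/-- an element of order 3 and its inverse -/
def CM : M3 := !![0,0,1;1,0,0;0,1,0]
def CM2 : M3 := !![0,1,0;0,0,1;1,0,0]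
/-- images of the diagonal matrices -/
def tauM : ZMod 7 → M3 := ![1, 1, CM, CM2, CM2, CM, 1]
/-- powers of `CM` -/
def Cp : Fin 3 → M3 := ![1, CM, CM2]
/-- the index of `tauM` in `Cp` -/
def ti : ZMod 7 → Fin 3 := ![0, 0, 1, 2, 2, 1, 0]
/-- image of the Weyl element -/
def WM : M3 := !![10,0,0;0,0,10;0,10,0]
/-- powers of the image of the unipotent element -/
def TzU : ZMod 7 → M3 := ![!![1,0,0;0,1,0;0,0,1],
  !![5,2,6;5,9,6;3,0,3],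
  !![9,6,5;0,3,3;2,6,5],
  !![2,6,6;2,5,5;0,3,8],
  !![3,3,0;6,5,2;6,5,9],
  !![8,0,3;6,2,6;5,2,5],
  !![5,5,2;3,8,0;6,6,2]]
/-- the same for the dual representation -/
def TzD : ZMod 7 → M3 := ![!![1,0,0;0,1,0;0,0,1],
  !![5,3,6;5,8,6;2,0,2],
  !![8,6,5;0,2,2;3,6,5],
  !![3,6,6;3,5,5;0,2,9],
  !![2,2,0;6,5,3;6,5,8],
  !![9,0,2;6,3,6;5,3,5],
  !![5,5,3;2,9,0;6,6,3]]
/-- orbit representatives -/
def vU : Fin 3 → V3 := ![![1,0,0], ![1,1,1], ![0,1,2]]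
def vD : Fin 3 → V3 := ![![1,0,0], ![1,1,1], ![0,1,3]]
/-- orbit tables -/
def tvU : Fin 3 → ZMod 7 → V3 := ![![![1,0,0], ![5,5,3], ![9,0,2], ![2,2,0], ![3,6,6], ![8,6,5], ![5,3,6]],
  ![![1,1,1], ![2,9,6], ![9,6,2], ![3,1,0], ![6,2,9], ![0,3,1], ![1,0,3]],
  ![![0,1,2], ![3,10,6], ![5,9,5], ![7,4,8], ![3,9,1], ![6,3,1], ![9,8,10]]]
def tvD : Fin 3 → ZMod 7 → V3 := ![![![1,0,0], ![5,5,2], ![8,0,3], ![3,3,0], ![2,6,6], ![9,6,5], ![5,2,6]],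
  ![![1,1,1], ![3,8,4], ![8,4,3], ![4,2,0], ![4,3,8], ![0,4,2], ![2,0,4]],
  ![![0,1,3], ![10,4,6], ![10,8,10], ![2,9,7], ![2,3,7], ![6,10,7], ![3,9,4]]]

/-- certificates for the covering by orbits -/
abbrev Code := Fin 3 × ZMod 7 × Fin 3 × ZMod 7 × ZMod 11
def certAU : ZMod 11 → ZMod 11 → Code := ![![(0,0,0,0,10), (0,0,0,3,5), (2,0,2,0,10), (1,6,0,0,10), (1,0,0,3,7), (2,3,1,1,5), (2,6,0,2,5), (1,1,0,2,4), (1,3,0,3,10), (2,1,1,6,1), (0,0,1,2,5)],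
  ![(0,0,2,3,5), (1,0,0,0,10), (2,2,1,6,3), (1,4,0,3,6), (2,0,0,2,2), (0,0,2,1,2), (0,0,1,4,9), (2,1,2,0,9), (1,2,0,2,5), (2,4,1,1,8), (1,1,0,3,1)],
  ![(2,3,2,2,10), (2,3,2,5,8), (0,0,0,4,7), (2,2,0,2,1), (2,0,2,5,7), (2,1,2,3,2), (2,0,0,5,9), (2,0,0,1,7), (2,3,1,0,1), (0,0,0,5,4), (2,2,2,2,8)],
  ![(1,0,0,6,10), (1,1,0,5,6), (2,0,1,6,1), (2,0,2,2,6), (2,2,1,2,7), (2,1,0,1,1), (2,0,1,5,10), (2,3,0,1,7), (2,1,1,1,5), (2,1,0,2,10), (1,0,0,1,5)],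
  ![(1,3,0,0,7), (2,0,1,2,2), (2,6,2,2,7), (2,0,0,4,7), (1,2,0,6,2), (2,0,2,4,6), (2,1,1,3,5), (1,4,0,0,9), (2,1,2,2,4), (2,3,2,0,7), (2,1,0,5,9)],
  ![(2,2,0,5,6), (0,0,0,1,2), (2,5,2,5,2), (2,3,2,3,1), (2,4,2,2,6), (2,2,0,1,7), (2,4,0,2,4), (2,2,2,5,5), (2,5,2,2,1), (2,5,1,0,2), (0,0,2,5,9)],
  ![(2,0,1,0,5), (0,0,2,4,9), (2,3,1,2,9), (2,5,0,2,10), (2,1,2,4,5), (2,0,1,3,4), (2,1,0,6,7), (2,0,0,6,6), (2,3,1,6,10), (2,3,0,2,9), (0,0,1,6,9)],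
  ![(1,5,0,6,4), (2,2,0,0,9), (2,6,1,2,7), (2,2,2,3,4), (1,0,0,4,9), (2,2,1,0,5), (2,4,1,2,6), (1,1,0,4,2), (2,4,2,0,7), (2,3,0,5,7), (2,4,0,1,2)],
  ![(1,2,0,3,1), (1,3,0,6,6), (2,2,0,4,10), (2,2,1,5,5), (2,0,2,6,4), (2,0,2,1,1), (2,1,1,0,10), (2,1,1,5,7), (2,4,1,0,6), (2,4,0,5,1), (1,2,0,0,6)],
  ![(2,5,0,1,1), (2,1,2,1,8), (0,0,2,6,7), (2,0,1,4,10), (2,2,1,1,4), (2,1,0,4,2), (2,0,1,1,9), (2,2,2,0,4), (2,1,0,0,1), (0,0,1,1,7), (2,0,0,3,3)],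
  ![(0,0,0,2,6), (1,2,0,5,1), (2,0,2,3,8), (1,1,0,0,5), (2,2,2,1,9), (0,0,0,6,2), (0,0,1,5,2), (2,4,2,5,2), (1,0,0,2,6), (2,1,1,2,3), (1,4,0,6,10)]]
def certBU : ZMod 11 → Code := ![(0,0,2,0,10), (0,0,1,3,5), (2,5,1,2,10), (1,0,0,5,10), (1,5,0,0,7), (2,1,2,5,6), (2,0,0,0,5), (1,3,0,2,7), (1,1,0,6,1), (2,3,0,4,10), (0,0,2,2,6)]
def certCU : Code := (0,0,1,0,10)
def certAD : ZMod 11 → ZMod 11 → Code := ![![(0,0,0,0,10), (0,0,0,3,7), (1,6,0,0,5), (2,0,2,0,10), (2,6,0,2,7), (1,1,0,2,3), (1,0,0,3,8), (2,3,1,1,7), (2,1,1,6,1), (1,3,0,3,5), (0,0,1,2,7)],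
  ![(0,0,2,3,7), (1,0,0,0,10), (2,2,1,6,5), (2,0,0,2,1), (0,0,1,4,9), (1,4,0,3,4), (1,2,0,2,7), (0,0,2,1,2), (2,1,2,0,10), (2,4,1,1,6), (1,1,0,3,1)],
  ![(1,0,0,6,5), (2,3,2,5,6), (1,1,0,4,3), (2,5,2,5,2), (2,4,2,0,5), (2,0,1,4,3), (2,1,0,0,8), (2,2,2,3,6), (2,5,1,0,2), (1,0,0,4,8), (2,2,2,2,6)],
  ![(2,3,2,2,10), (2,0,1,2,1), (2,1,2,3,2), (0,0,0,4,5), (2,0,1,5,3), (2,4,1,2,7), (2,2,1,0,4), (2,1,0,1,8), (0,0,0,5,6), (2,0,0,5,9), (2,1,0,5,10)],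
  ![(2,0,1,0,7), (0,0,2,4,9), (2,1,1,5,5), (2,5,0,2,3), (2,0,2,2,4), (2,6,2,2,1), (2,3,2,0,1), (2,1,1,1,7), (2,3,1,6,3), (2,0,2,6,6), (0,0,1,6,9)],
  ![(1,5,0,6,3), (1,1,0,5,4), (2,1,0,2,3), (2,0,0,6,7), (2,0,2,5,1), (2,2,0,1,8), (2,4,0,2,3), (2,0,0,1,1), (2,1,2,4,4), (2,0,1,6,8), (1,0,0,1,7)],
  ![(1,3,0,0,8), (1,3,0,6,4), (2,4,0,5,8), (2,2,2,5,4), (2,2,1,1,10), (2,0,1,3,3), (2,1,0,6,8), (2,2,2,0,10), (2,4,2,2,7), (2,2,0,4,3), (1,2,0,0,4)],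
  ![(2,2,0,5,4), (0,0,0,1,2), (2,3,0,1,5), (2,3,2,3,8), (2,2,1,5,7), (2,6,1,2,1), (2,3,0,5,1), (2,4,1,0,4), (2,5,2,2,8), (2,2,1,2,5), (0,0,2,5,9)],
  ![(2,5,0,1,1), (2,2,0,0,10), (2,1,0,4,2), (0,0,2,6,5), (2,1,1,0,3), (2,1,1,3,4), (2,0,2,4,7), (2,0,2,1,8), (0,0,1,1,5), (2,0,1,1,9), (2,4,0,1,1)],
  ![(1,2,0,3,6), (2,1,2,1,6), (1,4,0,0,8), (2,3,1,2,9), (2,1,2,2,6), (2,2,0,2,8), (2,3,1,0,8), (2,0,0,4,5), (2,3,0,2,9), (1,2,0,6,3), (2,0,0,3,5)],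
  ![(0,0,0,2,4), (1,2,0,5,1), (2,0,2,3,6), (2,2,2,1,10), (0,0,1,5,2), (1,1,0,0,7), (1,0,0,2,4), (0,0,0,6,2), (2,4,2,5,1), (2,1,1,2,5), (1,4,0,6,10)]]
def certBD : ZMod 11 → Code := ![(0,0,2,0,10), (0,0,1,3,7), (1,0,0,5,5), (2,5,1,2,10), (2,0,0,0,7), (1,3,0,2,8), (1,5,0,0,8), (2,1,2,5,4), (2,3,0,4,10), (1,1,0,6,6), (0,0,2,2,4)]
def certCD : Code := (0,0,1,0,10)

set_option maxRecDepth 100000

instance fact11 : Fact (Nat.Prime 11) := ⟨by norm_num⟩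
instance fact7 : Fact (Nat.Prime 7) := ⟨by norm_num⟩

lemma TzU_add : ∀ x y : ZMod 7, TzU (x + y) = TzU x * TzU y := by decide +kernel
lemma TzU_zero : TzU 0 = 1 := by decide +kernel
lemma tauM_mul : ∀ x y : ZMod 7, x ≠ 0 → y ≠ 0 → tauM (x * y) = tauM x * tauM y := by
  decide +kernel
lemma tauM_TzU : ∀ x y : ZMod 7, x ≠ 0 → tauM x * TzU y = TzU (x ^ 2 * y) * tauM x := by
  decide +kernel
lemma tauM_WM : ∀ x : ZMod 7, x ≠ 0 → tauM x * WM = WM * tauM x⁻¹ := by decide +kernel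
lemma WM_TzU_WM : ∀ b : ZMod 7, b ≠ 0 →
    WM * TzU b * WM = TzU (-b⁻¹) * WM * tauM b * TzU (-b⁻¹) := by decide +kernel
lemma WM_WM : WM * WM = 1 := by decide +kernel
lemma tauM_eq : ∀ x : ZMod 7, tauM x = Cp (ti x) := by decide +kernel
lemma det_TzU : ∀ x : ZMod 7, (TzU x).det = 1 := by
  intro x; rw [det_fin_three]; revert x; decide +kernel
lemma det_tauM : ∀ x : ZMod 7, (tauM x).det = 1 := by
  intro x; rw [det_fin_three]; revert x; decide +kernel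
lemma det_WM : WM.det = 1 := by rw [det_fin_three]; decide +kernel
lemma words_ne : ∀ x y : ZMod 7, ∀ i : Fin 3, TzU x * WM * Cp i * TzU y ≠ 1 := by decide +kernel
lemma borel_eq : ∀ a b : ZMod 7, a ≠ 0 → tauM a * TzU b = 1 → b = 0 ∧ (a = 1 ∨ a = -1) := by
  decide +kernel

lemma tvU_eq : ∀ (a : Fin 3) (r : ZMod 7), TzU r *ᵥ vU a = tvU a r := by decide +kernel
lemma tvD_eq : ∀ (a : Fin 3) (r : ZMod 7), TzD r *ᵥ vD a = tvD a r := by decide +kernel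
lemma TzD_add : ∀ x y : ZMod 7, TzD (x + y) = TzD x * TzD y := by decide +kernel
lemma TzD_zero : TzD 0 = 1 := by decide +kernel

/-- apply a code -/
def app (Tz : ZMod 7 → M3) (tv : Fin 3 → ZMod 7 → V3) (c : Code) : V3 :=
  c.2.2.2.2 • (Tz c.2.1 *ᵥ (WM *ᵥ (Cp c.2.2.1 *ᵥ tv c.1 c.2.2.2.1)))

lemma certAU_ok : ∀ y z : ZMod 11, app TzU tvU (certAU y z) = ![1, y, z] := by decide +kernel
lemma certBU_ok : ∀ z : ZMod 11, app TzU tvU (certBU z) = ![0, 1, z] := by decide +kernel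
lemma certCU_ok : app TzU tvU certCU = ![0, 0, 1] := by decide +kernel
lemma certAD_ok : ∀ y z : ZMod 11, app TzD tvD (certAD y z) = ![1, y, z] := by decide +kernel
lemma certBD_ok : ∀ z : ZMod 11, app TzD tvD (certBD z) = ![0, 1, z] := by decide +kernel
lemma certCD_ok : app TzD tvD certCD = ![0, 0, 1] := by decide +kernel

/-- words in the stabilisers (non Borel type) -/
def stW : Fin 3 → List (ZMod 7 × Fin 3 × ZMod 7) := ![[(1, 2, 5), (2, 2, 6), (5, 1, 2)], [], []]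

/-- the check for two words -/
def chk (tv : Fin 3 → ZMod 7 → V3) (a b : Fin 3) (s : ZMod 7) (i : Fin 3) (r : ZMod 7)
    (t : ZMod 11) : Bool :=
  decide (t = 0) || !(decide (WM *ᵥ (Cp i *ᵥ tv a r) = t • tv b s)) ||
    (decide (a = b) && (decide (t = 1) || decide (t = -1)) &&
      (!(decide (t = 1)) || decide ((-s, i, r) ∈ stW a)))

lemma orbU_chk : ∀ (a b : Fin 3) (s : ZMod 7) (i : Fin 3) (r : ZMod 7) (t : ZMod 11),
    chk tvU a b s i r t = true := by decide +kernel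

lemma orbD_chk : ∀ (a b : Fin 3) (s : ZMod 7) (i : Fin 3) (r : ZMod 7) (t : ZMod 11),
    chk tvD a b s i r t = true := by decide +kernel

/-- the check for Borel words -/
def chkB (tv : Fin 3 → ZMod 7 → V3) (a b : Fin 3) (i : Fin 3) (r : ZMod 7)
    (t : ZMod 11) : Bool :=
  decide (t = 0) || !(decide (Cp i *ᵥ tv a r = t • tv b 0)) ||
    (decide (a = b) && (decide (t = 1) || decide (t = -1)) &&
      (!(decide (t = 1)) || (decide (r = 0) && (decide (i = 0) || decide (a = 1)))))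

lemma orbU_chkB : ∀ (a b : Fin 3) (i : Fin 3) (r : ZMod 7) (t : ZMod 11),
    chkB tvU a b i r t = true := by decide +kernel

lemma orbD_chkB : ∀ (a b : Fin 3) (i : Fin 3) (r : ZMod 7) (t : ZMod 11),
    chkB tvD a b i r t = true := by decide +kernel

/-- rotation of order four -/
def RM : M3 := !![1,0,0;0,0,10;0,1,0]

lemma RM_U : TzU 2 * WM * Cp 2 * TzU 6 = RM := by decide +kernel
lemma RM_D : TzD 2 * WM * Cp 2 * TzD 6 = RM := by decide +kernel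
lemma RM2_U : TzU 5 * WM * Cp 1 * TzU 2 = RM * RM := by decide +kernel
lemma RM3_U : TzU 1 * WM * Cp 2 * TzU 5 = RM * RM * RM := by decide +kernel
lemma RM2_D : TzD 5 * WM * Cp 1 * TzD 2 = RM * RM := by decide +kernel
lemma RM3_D : TzD 1 * WM * Cp 2 * TzD 5 = RM * RM * RM := by decide +kernel
lemma RM4 : RM * RM * RM * RM = 1 := by decide +kernel

/-- facts on orbits -/
structure Facts (Tz : ZMod 7 → M3) (v : Fin 3 → V3) : Prop where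
  wW : ∀ (a b : Fin 3) (s : ZMod 7) (i : Fin 3) (r : ZMod 7) (t : ZMod 11), t ≠ 0 →
    (Tz s * WM * Cp i * Tz r) *ᵥ v a = t • v b →
    a = b ∧ (t = 1 ∨ t = -1) ∧ (t = 1 → (s, i, r) ∈ stW a)
  wB : ∀ (a b : Fin 3) (i : Fin 3) (r : ZMod 7) (t : ZMod 11), t ≠ 0 →
    (Cp i * Tz r) *ᵥ v a = t • v b →
    a = b ∧ (t = 1 ∨ t = -1) ∧ (t = 1 → r = 0 ∧ (i = 0 ∨ a = 1))
  cov : ∀ u : V3, u ≠ 0 → ∃ (a : Fin 3) (s : ZMod 7) (i : Fin 3) (r : ZMod 7) (t : ZMod 11),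
    t ≠ 0 ∧ u = t • ((Tz s * WM * Cp i * Tz r) *ᵥ v a)
  neg : ∀ a : Fin 3, ∃ (s : ZMod 7) (i : Fin 3) (r : ZMod 7),
    (Tz s * WM * Cp i * Tz r) *ᵥ v a = - v a

lemma facts_of (Tz : ZMod 7 → M3) (v : Fin 3 → V3) (tv : Fin 3 → ZMod 7 → V3)
    (h0 : Tz 0 = 1) (hadd : ∀ x y, Tz (x + y) = Tz x * Tz y)
    (htv : ∀ a r, Tz r *ᵥ v a = tv a r)
    (hc : ∀ a b s i r t, chk tv a b s i r t = true)
    (hcB : ∀ a b i r t, chkB tv a b i r t = true)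
    (cA : ZMod 11 → ZMod 11 → Code) (cB : ZMod 11 → Code) (cC : Code)
    (hA : ∀ y z, app Tz tv (cA y z) = ![1, y, z]) (hB : ∀ z, app Tz tv (cB z) = ![0, 1, z])
    (hC : app Tz tv cC = ![0, 0, 1])
    (hn : ∀ a : Fin 3, ∃ (s : ZMod 7) (i : Fin 3) (r : ZMod 7),
      (Tz s * WM * Cp i * Tz r) *ᵥ v a = - v a) : Facts Tz v where
  wW := by
    intro a b s i r t ht h
    have h1 : WM *ᵥ (Cp i *ᵥ tv a r) = t • tv b (-s) := by
      rw [← htv, ← htv, ← mulVec_smul, ← h, mulVec_mulVec, mulVec_mulVec, mulVec_mulVec,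
        ← Matrix.mul_assoc, ← Matrix.mul_assoc, ← Matrix.mul_assoc, ← hadd, neg_add_cancel, h0,
        Matrix.one_mul]
    have h2 := hc a b (-s) i r t
    simp only [chk, h1, ht, decide_true, decide_false, Bool.not_true, Bool.or_false, Bool.false_or,
      Bool.and_eq_true, decide_eq_true_eq, Bool.or_eq_true, Bool.not_eq_true', decide_eq_false_iff_not,
      neg_neg] at h2
    refine ⟨h2.1.1, h2.1.2, fun h3 => h2.2.resolve_left (fun h4 => h4 h3)⟩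
  wB := by
    intro a b i r t ht h
    have h1 : Cp i *ᵥ tv a r = t • tv b 0 := by
      rw [← htv, ← htv, h0, one_mulVec, ← h, mulVec_mulVec]
    have h2 := hcB a b i r t
    simp only [chkB, h1, ht, decide_true, decide_false, Bool.not_true, Bool.or_false, Bool.false_or,
      Bool.and_eq_true, decide_eq_true_eq, Bool.or_eq_true, Bool.not_eq_true',
      decide_eq_false_iff_not] at h2
    refine ⟨h2.1.1, h2.1.2, fun h3 => h2.2.resolve_left (fun h4 => h4 h3)⟩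
  cov := by
    have key : ∀ c : Code, ∀ x : ZMod 11, x • app Tz tv c ≠ 0 → ∃ (a : Fin 3) (s : ZMod 7)
        (i : Fin 3) (r : ZMod 7) (t : ZMod 11),
        t ≠ 0 ∧ x • app Tz tv c = t • ((Tz s * WM * Cp i * Tz r) *ᵥ v a) := by
      intro c x hx
      refine ⟨c.1, c.2.1, c.2.2.1, c.2.2.2.1, x * c.2.2.2.2, ?_, ?_⟩
      · intro h
        apply hx
        rw [app, smul_smul, h, zero_smul]
      · rw [app, smul_smul, ← htv, mulVec_mulVec, mulVec_mulVec, mulVec_mulVec]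
    intro u hu
    by_cases h1 : u 0 = 0
    · by_cases h2 : u 1 = 0
      · have e : u = u 2 • app Tz tv cC := by
          rw [hC]; ext j; fin_cases j <;> simp [h1, h2]
        rw [e]; apply key; rw [← e]; exact hu
      · have e : u = u 1 • app Tz tv (cB ((u 1)⁻¹ * u 2)) := by
          rw [hB]; ext j; fin_cases j <;> simp [h1, h2, mul_inv_cancel_left₀]
        rw [e]; apply key; rw [← e]; exact hu
    · have e : u = u 0 • app Tz tv (cA ((u 0)⁻¹ * u 1) ((u 0)⁻¹ * u 2)) := by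
        rw [hA]; ext j; fin_cases j <;> simp [h1, mul_inv_cancel_left₀]
      rw [e]; apply key; rw [← e]; exact hu
  neg := hn

lemma negU : ∀ a : Fin 3, ∃ (s : ZMod 7) (i : Fin 3) (r : ZMod 7),
    (TzU s * WM * Cp i * TzU r) *ᵥ vU a = - vU a := by
  intro a; fin_cases a
  · exact ⟨0, 0, 0, by decide +kernel⟩
  · exact ⟨0, 0, 0, by decide +kernel⟩
  · exact ⟨5, 1, 2, by decide +kernel⟩

lemma negD : ∀ a : Fin 3, ∃ (s : ZMod 7) (i : Fin 3) (r : ZMod 7),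
    (TzD s * WM * Cp i * TzD r) *ᵥ vD a = - vD a := by
  intro a; fin_cases a
  · exact ⟨0, 0, 0, by decide +kernel⟩
  · exact ⟨0, 0, 0, by decide +kernel⟩
  · exact ⟨5, 1, 2, by decide +kernel⟩

theorem factsU : Facts TzU vU := facts_of TzU vU tvU TzU_zero TzU_add tvU_eq orbU_chk orbU_chkB
  certAU certBU certCU certAU_ok certBU_ok certCU_ok negU

theorem factsD : Facts TzD vD := facts_of TzD vD tvD TzD_zero TzD_add tvD_eq orbD_chk orbD_chkB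
  certAD certBD certCD certAD_ok certBD_ok certCD_ok negD

end Pool.Cartan73
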