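import Pool.Agent.Cartan73.Pairs

/-! # Stabilisers in `L` of the orbit representatives (helper73, MP_bea28b_al) -/

namespace Pool.Cartan73

open Matrix MonoidAlgebra

lemma mt_injective : Function.Injective mt := fun _ _ h => Subtype.ext (Subtype.ext h)

lemma mt_pow (l : LL) (j : ℕ) : mt (l ^ j) = mt l ^ j := by
  induction j with
  | zero => rfl
  | succ j ih => rw [pow_succ, mt_mul, ih, pow_succ]

/-- preimages of the generators of the stabilisers -/
def xL : Fin 3 → SL27 := ![⟨!![6, 3; 3, 4], by decide +kernel⟩, ⟨!![2, 0; 0, 4], by decide +kernel⟩, 1]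

/-- generators of the stabilisers -/
def gL (a : Fin 3) : LL := ⟨rho (xL a), xL a, rfl⟩

lemma mt_gL0 : mt (gL 0) = RM := by
  change (rhoF (xL 0)).1 = RM
  decide +kernel

lemma mt_gL1 : mt (gL 1) = CM := by
  change (rhoF (xL 1)).1 = CM
  decide +kernel

lemma gL2 : gL 2 = 1 := by
  apply mt_injective
  change (rhoF (xL 2)).1 = 1
  decide +kernel

lemma dual_TzU : ∀ x, dual (TzU x) = TzD x := by
  intro x; rw [dual, adjugate_fin_three]; revert x; decide +kernel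
lemma dual_WM : dual WM = WM := by rw [dual, adjugate_fin_three]; decide +kernel
lemma dual_Cp : ∀ i, dual (Cp i) = Cp i := by
  intro i; rw [dual, adjugate_fin_three]; revert i; decide +kernel
lemma dual_RM : dual RM = RM := by rw [dual, adjugate_fin_three]; decide +kernel
lemma dual_CM : dual CM = CM := dual_Cp 1

lemma dual_mt_gL : ∀ a, dual (mt (gL a)) = mt (gL a) := by
  intro a
  fin_cases a
  · change dual (mt (gL 0)) = mt (gL 0); rw [mt_gL0, dual_RM]
  · change dual (mt (gL 1)) = mt (gL 1); rw [mt_gL1, dual_CM]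
  · change dual (mt (gL 2)) = mt (gL 2); rw [gL2, mt_one, dual_one]

lemma dual_pow (M : M3) (j : ℕ) : dual (M ^ j) = dual M ^ j := by
  induction j with
  | zero => rw [pow_zero, pow_zero, dual_one]
  | succ j ih => rw [pow_succ, dual_mul, ih, pow_succ]

lemma orderOf_gL : ∀ a, orderOf (gL a) = mm a := by
  intro a
  fin_cases a
  · change orderOf (gL 0) = 4
    have h : (4 : ℕ) = 2 ^ (1 + 1) := by norm_num
    rw [h]
    apply orderOf_eq_prime_pow
    · intro h1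
      have h2 := congrArg mt h1
      rw [mt_pow, mt_gL0, mt_one] at h2
      revert h2; decide +kernel
    · apply mt_injective
      rw [mt_pow, mt_gL0, mt_one]
      decide +kernel
  · change orderOf (gL 1) = 3
    have : Fact (Nat.Prime 3) := ⟨by norm_num⟩
    apply orderOf_eq_prime
    · apply mt_injective
      rw [mt_pow, mt_gL1, mt_one]
      decide +kernel
    · intro h1
      have h2 := congrArg mt h1
      rw [mt_gL1, mt_one] at h2
      revert h2; decide +kernel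
  · change orderOf (gL 2) = 1
    rw [gL2, orderOf_one]

/-- from words to powers of the generator -/
lemma word_power (a : Fin 3) (l : LL) :
    (∀ i r, mt l = Cp i * TzU r → r = 0 ∧ (i = 0 ∨ a = 1) → ∃ j : ℕ, l = gL a ^ j) ∧
    (∀ s i r, mt l = TzU s * WM * Cp i * TzU r → (s, i, r) ∈ stW a → ∃ j : ℕ, l = gL a ^ j) := by
  constructor
  · rintro i r h ⟨rfl, hi⟩
    rw [TzU_zero, mul_one] at h
    rcases hi with rfl | rfl
    · exact ⟨0, mt_injective (by rw [h]; rfl)⟩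
    · refine ⟨i, mt_injective ?_⟩
      rw [h, mt_pow, mt_gL1]
      clear h
      revert i; decide +kernel
  · intro s i r h hs
    fin_cases a
    · have hs' : (s, i, r) = (1, 2, 5) ∨ (s, i, r) = (2, 2, 6) ∨ (s, i, r) = (5, 1, 2) := by
        simpa [stW] using hs
      rcases hs' with h1 | h1 | h1
      · simp only [Prod.mk.injEq] at h1
        obtain ⟨rfl, rfl, rfl⟩ := h1
        refine ⟨3, mt_injective ?_⟩
        rw [h, RM3_U]
        change _ = mt (gL 0 ^ 3)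
        rw [mt_pow, mt_gL0]; rw [pow_succ, pow_two]
      · simp only [Prod.mk.injEq] at h1
        obtain ⟨rfl, rfl, rfl⟩ := h1
        refine ⟨1, mt_injective ?_⟩
        rw [h, RM_U]
        change _ = mt (gL 0 ^ 1)
        rw [mt_pow, mt_gL0, pow_one]
      · simp only [Prod.mk.injEq] at h1
        obtain ⟨rfl, rfl, rfl⟩ := h1
        refine ⟨2, mt_injective ?_⟩
        rw [h, RM2_U]
        change _ = mt (gL 0 ^ 2)
        rw [mt_pow, mt_gL0, pow_two]
    · simp [stW] at hs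
    · simp [stW] at hs

lemma stabU (l : LL) (a b : Fin 3) (t : ZMod 11) (ht : t ≠ 0) (h : mt l *ᵥ vU a = t • vU b) :
    a = b ∧ (t = 1 ∨ t = -1) ∧ (t = 1 → ∃ j : ℕ, l = gL a ^ j) := by
  rcases LL_cases l with ⟨i, r, hl⟩ | ⟨s, i, r, hl⟩
  · have hl' : mt l = Cp i * TzU r := hl
    rw [hl'] at h
    obtain ⟨h1, h2, h3⟩ := factsU.wB a b i r t ht h
    exact ⟨h1, h2, fun h4 => (word_power a l).1 i r hl' (h3 h4)⟩
  · have hl' : mt l = TzU s * WM * Cp i * TzU r := hl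
    rw [hl'] at h
    obtain ⟨h1, h2, h3⟩ := factsU.wW a b s i r t ht h
    exact ⟨h1, h2, fun h4 => (word_power a l).2 s i r hl' (h3 h4)⟩

lemma stabD (l : LL) (a b : Fin 3) (t : ZMod 11) (ht : t ≠ 0)
    (h : dual (mt l) *ᵥ vD a = t • vD b) :
    a = b ∧ (t = 1 ∨ t = -1) ∧ (t = 1 → ∃ j : ℕ, l = gL a ^ j) := by
  rcases LL_cases l with ⟨i, r, hl⟩ | ⟨s, i, r, hl⟩
  · have hl' : mt l = Cp i * TzU r := hl
    rw [hl', dual_mul, dual_Cp, dual_TzU] at h
    obtain ⟨h1, h2, h3⟩ := factsD.wB a b i r t ht h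
    exact ⟨h1, h2, fun h4 => (word_power a l).1 i r hl' (h3 h4)⟩
  · have hl' : mt l = TzU s * WM * Cp i * TzU r := hl
    rw [hl', dual_mul, dual_mul, dual_mul, dual_Cp, dual_TzU, dual_TzU, dual_WM] at h
    obtain ⟨h1, h2, h3⟩ := factsD.wW a b s i r t ht h
    exact ⟨h1, h2, fun h4 => (word_power a l).2 s i r hl' (h3 h4)⟩

/-- the five scalars -/
def tt : Fin 5 → ZMod 11 := ![1, 2, 3, 4, 5]

lemma tt_ne : ∀ t, tt t ≠ 0 := by decide +kernel
lemma tt_ratio : ∀ t t' : Fin 5, (tt t)⁻¹ * tt t' = 1 ∨ (tt t)⁻¹ * tt t' = -1 → t = t' := by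
  decide +kernel
lemma tt_cover : ∀ x : ZMod 11, x ≠ 0 → ∃ t, x = tt t ∨ x = - tt t := by decide +kernel

lemma stabU' (l : LL) (a b : Fin 3) (t t' : Fin 5)
    (h : mt l *ᵥ (tt t • vU a) = tt t' • vU b) : a = b ∧ t = t' ∧ ∃ j : ℕ, l = gL a ^ j := by
  have h1 : mt l *ᵥ vU a = ((tt t)⁻¹ * tt t') • vU b := by
    rw [← smul_smul, ← h, mulVec_smul, smul_smul, inv_mul_cancel₀ (tt_ne t), one_smul]
  obtain ⟨h2, h3, h4⟩ := stabU l a b _ (mul_ne_zero (inv_ne_zero (tt_ne t)) (tt_ne t')) h1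
  have h5 := tt_ratio t t' h3
  refine ⟨h2, h5, h4 ?_⟩
  rw [h5, inv_mul_cancel₀ (tt_ne _)]

lemma stabD' (l : LL) (a b : Fin 3) (t t' : Fin 5)
    (h : dual (mt l) *ᵥ (tt t • vD a) = tt t' • vD b) :
    a = b ∧ t = t' ∧ ∃ j : ℕ, l = gL a ^ j := by
  have h1 : dual (mt l) *ᵥ vD a = ((tt t)⁻¹ * tt t') • vD b := by
    rw [← smul_smul, ← h, mulVec_smul, smul_smul, inv_mul_cancel₀ (tt_ne t), one_smul]
  obtain ⟨h2, h3, h4⟩ := stabD l a b _ (mul_ne_zero (inv_ne_zero (tt_ne t)) (tt_ne t')) h1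
  have h5 := tt_ratio t t' h3
  refine ⟨h2, h5, h4 ?_⟩
  rw [h5, inv_mul_cancel₀ (tt_ne _)]

/-- covering by orbits -/
lemma coverU (u : V3) (hu : u ≠ 0) : ∃ (a : Fin 3) (t : Fin 5) (l : LL),
    u = mt l *ᵥ (tt t • vU a) := by
  obtain ⟨a, s, i, r, x, hx, rfl⟩ := factsU.cov u hu
  obtain ⟨l, hl⟩ := word_mem s i r
  have hl' : mt l = TzU s * WM * Cp i * TzU r := hl
  obtain ⟨t, ht | ht⟩ := tt_cover x hx
  · exact ⟨a, t, l, by rw [mulVec_smul, hl', ht]⟩
  · obtain ⟨s', i', r', hn⟩ := factsU.neg a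
    obtain ⟨l', hl2⟩ := word_mem s' i' r'
    have hl2' : mt l' = TzU s' * WM * Cp i' * TzU r' := hl2
    refine ⟨a, t, l * l', ?_⟩
    have e : mt (l * l') *ᵥ vU a = - (mt l *ᵥ vU a) := by
      rw [mt_mul, hl2', ← mulVec_mulVec, hn, mulVec_neg]
    rw [mulVec_smul, e, hl', ht, smul_neg, neg_smul]

lemma coverD (u : V3) (hu : u ≠ 0) : ∃ (a : Fin 3) (t : Fin 5) (l : LL),
    u = dual (mt l) *ᵥ (tt t • vD a) := by
  obtain ⟨a, s, i, r, x, hx, rfl⟩ := factsD.cov u hu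
  obtain ⟨l, hl⟩ := word_mem s i r
  have hl' : dual (mt l) = TzD s * WM * Cp i * TzD r := by
    have : mt l = TzU s * WM * Cp i * TzU r := hl
    rw [this, dual_mul, dual_mul, dual_mul, dual_Cp, dual_TzU, dual_TzU, dual_WM]
  obtain ⟨t, ht | ht⟩ := tt_cover x hx
  · exact ⟨a, t, l, by rw [mulVec_smul, hl', ht]⟩
  · obtain ⟨s', i', r', hn⟩ := factsD.neg a
    obtain ⟨l', hl2⟩ := word_mem s' i' r'
    have hl2' : dual (mt l') = TzD s' * WM * Cp i' * TzD r' := by
      have : mt l' = TzU s' * WM * Cp i' * TzU r' := hl2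
      rw [this, dual_mul, dual_mul, dual_mul, dual_Cp, dual_TzU, dual_TzU, dual_WM]
    refine ⟨a, t, l * l', ?_⟩
    have e : dual (mt (l * l')) *ᵥ vD a = - (dual (mt l) *ᵥ vD a) := by
      rw [mt_mul, dual_mul, hl2', ← mulVec_mulVec, hn, mulVec_neg]
    rw [mulVec_smul, e, hl', ht, smul_neg, neg_smul]

end Pool.Cartan73
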